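import Pool.Agent.Y465.SZ.Base

/-!
Project Y465-SZ: the formal algebra (statements of the jobs ALG1, ALG2, ALG3) and the pages (PAG).
Everything is in characteristic 2: `a + a = 0`, so `a * b + b * a` is the commutator.
-/

namespace Pool.Agent.Y465.SZ

section alg

variable {A : Type} [Ring A] {P : Type} [DecidableEq P]

/-- part of `X` which preserves the label at `b` -/
def kp (pi : P → A) (b : P) (X : A) : A := (1 + pi b) * X * (1 + pi b) + pi b * X * pi b

/-- part of `X` which changes the label at `c` from x to 1 -/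
def mv (pi : P → A) (c : P) (X : A) : A := (1 + pi c) * X * pi c

/-- the structure used in the formal part of the proof -/
structure AlgH (pi L Y T : P → A) (sig : P → P → A) (d D Y0 : A) (U : Finset P → P → A) : Prop where
  two : ∀ a : A, a + a = 0
  pp : ∀ i, pi i * pi i = pi i
  pc : ∀ i j, pi i * pi j = pi j * pi i
  hL : ∀ j, L j = D * pi j + pi j * D
  hY : ∀ j, Y j = Y0 * pi j + pi j * Y0
  hd : ∀ j, d * pi j + pi j * d = L j + Y j
  mD : ∀ i, D * pi i = pi i * D * pi i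
  mY : ∀ i, Y0 * pi i = pi i * Y0 * pi i
  md : ∀ i, d * pi i = pi i * d * pi i
  cDL : ∀ j, D * L j = L j * D
  cdL : ∀ j, d * L j = L j * d
  cdY : ∀ j, d * Y j = Y j * d
  cLY : ∀ i j, L i * Y j = Y j * L i
  LT : ∀ j, L j * T j = pi j
  TL : ∀ j, T j * L j = 1 + pi j
  Tp : ∀ j, T j * pi j = T j
  pT : ∀ j, pi j * T j = 0
  mT : ∀ i j, pi i * T j = pi i * T j * pi i
  sp : ∀ b c j, sig b c * pi j = pi j * sig b c
  ss : ∀ b c, sig b c = sig c b
  sL : ∀ b c, sig b c * (pi c * L b + L b * pi c) = pi c * L b + L b * pi c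
  Ls : ∀ b c, (pi c * L b + L b * pi c) * sig b c = pi c * L b + L b * pi c
  sY : ∀ b c, sig b c * (pi c * Y b + Y b * pi c) = pi c * Y b + Y b * pi c
  Ys : ∀ b c, (pi c * Y b + Y b * pi c) * sig b c = pi c * Y b + Y b * pi c
  sV : ∀ b c q, sig b c * kp pi b (mv pi c (T q)) = 0
  Vs : ∀ b c q, kp pi b (mv pi c (T q)) * sig b c = 0
  U0 : ∀ q, U ∅ q = T q
  U1 : ∀ B b q, b ∉ B → U (insert b B) q = kp pi b (U B q)
  cl : (∀ p q, T p * T q = T q * T p) → ∀ B b p q, b ∉ B →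
    mv pi b (U B q) * U (insert b B) p = U (insert b B) p * mv pi b (U B q)

/-- commutator -/
def br (a b : A) : A := a * b + b * a

/-- job ALG1 -/
def S_ALG1 : Prop := ∀ (A : Type) [Ring A] (P : Type) [DecidableEq P]
    (pi L Y T : P → A) (sig : P → P → A) (d D Y0 : A) (U : Finset P → P → A),
    AlgH pi L Y T sig d D Y0 U →
    (∀ p q, T p * T q = T q * T p) ∧
    (∀ p q, p ≠ q → br (br d (T q)) (T p) =
      br (pi p) (T q) + br (pi q) (T p) + T q * d * br (pi q) (T p) + T p * d * br (pi p) (T q)) ∧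
    (∀ b q, b ≠ q → br (L b) (U {b} q) = 0 ∧ br (Y b) (U {b} q) = 0)

/-- job ALG2 -/
def S_ALG2 : Prop := ∀ (A : Type) [Ring A] (P : Type) [DecidableEq P]
    (pi L Y T : P → A) (sig : P → P → A) (d D Y0 : A) (U : Finset P → P → A),
    AlgH pi L Y T sig d D Y0 U →
    (∀ p q, T p * T q = T q * T p) →
    (∀ p q, p ≠ q → br (br d (T q)) (T p) =
      br (pi p) (T q) + br (pi q) (T p) + T q * d * br (pi q) (T p) + T p * d * br (pi p) (T q)) →
    (∀ b q, b ≠ q → br (L b) (U {b} q) = 0 ∧ br (Y b) (U {b} q) = 0) →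
    (∀ B b q, b ∈ B → q ∉ B → br (L b) (U B q) = 0 ∧ br (Y b) (U B q) = 0) ∧
    (∀ B p q, p ∉ B → q ∉ B → p ≠ q → br (br d (U B q)) (U B p) =
      br (pi p) (U B q) + br (pi q) (U B p) + U B q * d * br (pi q) (U B p) +
        U B p * d * br (pi p) (U B q))

/-- the homotopy `nu` -/
def NN (d : A) (U : Finset P → P → A) : Finset P → List P → A
  | _, [] => 0
  | B, p :: l => U B p + (1 + (d * U B p + U B p * d)) * NN d U (insert p B) l

/-- job ALG3 -/
def S_ALG3 : Prop := ∀ (A : Type) [Ring A] (P : Type) [DecidableEq P]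
    (pi L Y T : P → A) (sig : P → P → A) (d D Y0 : A) (U : Finset P → P → A),
    AlgH pi L Y T sig d D Y0 U →
    (∀ B b q, b ∈ B → q ∉ B → br (L b) (U B q) = 0 ∧ br (Y b) (U B q) = 0) →
    (∀ B p q, p ∉ B → q ∉ B → p ≠ q → br (br d (U B q)) (U B p) =
      br (pi p) (U B q) + br (pi q) (U B p) + U B q * d * br (pi q) (U B p) +
        U B p * d * br (pi p) (U B q)) →
    ∀ (p : P) (l : List P), (p :: l).Nodup →
      br (L p) (NN d U ∅ (p :: l)) = 1 ∧ ∀ j ∈ p :: l, br (L j) (br d (NN d U ∅ (p :: l))) = 0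

end alg

section pages

variable {V : Type} [AddCommGroup V] [Module (ZMod 2) V]

/-- the page `E^k` of a filtered graded module with operator `d` (quotient of cycles by boundaries) -/
abbrev Page (F : ℤ → ℤ → Submodule (ZMod 2) V) (d : V →ₗ[ZMod 2] V) (k : ℕ) (a s : ℤ) : Type :=
  (Zp F d k a s) ⧸ (Submodule.comap (Zp F d k a s).subtype
    (Zp F d (k - 1) (a + 1) s ⊔ (Zp F d (k - 1) (a - k + 1) (s + 2)).map d))

/-- job PAG -/
def S_PAG : Prop := ∀ (V V1 V2 : Type) [AddCommGroup V] [Module (ZMod 2) V]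
    [AddCommGroup V1] [Module (ZMod 2) V1] [AddCommGroup V2] [Module (ZMod 2) V2]
    (F : ℤ → ℤ → Submodule (ZMod 2) V) (F1 : ℤ → ℤ → Submodule (ZMod 2) V1)
    (F2 : ℤ → ℤ → Submodule (ZMod 2) V2) (d : V →ₗ[ZMod 2] V) (d1 : V1 →ₗ[ZMod 2] V1)
    (d2 : V2 →ₗ[ZMod 2] V2) (e : (V1 × V2) ≃ₗ[ZMod 2] V),
    (∀ a s x, e x ∈ F a s ↔ x.1 ∈ F1 a s ∧ x.2 ∈ F2 a s) →
    (∀ x, d (e x) = e (d1 x.1, d2 x.2)) →
    ∀ (k : ℕ) (a s : ℤ), Nonempty (Page F d k a s ≃ₗ[ZMod 2] (Page F1 d1 k a s × Page F2 d2 k a s))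

end pages

end Pool.Agent.Y465.SZ
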