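import Pool.Agent.Y465.SZ.Alg

set_option linter.unusedSimpArgs false
set_option linter.unusedVariables false
set_option linter.unusedSectionVars false

namespace Pool.Agent.Y465.SZ.A1
open Pool.Agent.Y465.SZ

variable {A : Type} [Ring A]

theorem c2n (two : ∀ a : A, a + a = 0) (a : A) : (2 : ℕ) • a = 0 := by rw [two_nsmul]; exact two a
theorem c2z (two : ∀ a : A, a + a = 0) (a : A) : (2 : ℤ) • a = 0 := by rw [two_zsmul]; exact two a
theorem c4z (two : ∀ a : A, a + a = 0) (a : A) : (4 : ℤ) • a = 0 := by
  have : (4 : ℤ) = 2 * 2 := by norm_num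
  rw [this, mul_zsmul, c2z two]
theorem c6z (two : ∀ a : A, a + a = 0) (a : A) : (6 : ℤ) • a = 0 := by
  have : (6 : ℤ) = 2 * 3 := by norm_num
  rw [this, mul_zsmul, c2z two]
theorem c8z (two : ∀ a : A, a + a = 0) (a : A) : (8 : ℤ) • a = 0 := by
  have : (8 : ℤ) = 2 * 4 := by norm_num
  rw [this, mul_zsmul, c2z two]
theorem c4n (two : ∀ a : A, a + a = 0) (a : A) : (4 : ℕ) • a = 0 := by
  have : (4 : ℕ) = 2 * 2 := by norm_num
  rw [this, mul_nsmul, c2n two]
theorem ngg (two : ∀ a : A, a + a = 0) (a : A) : -a = a := by
  rw [neg_eq_iff_add_eq_zero]; exact two a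
theorem sba (two : ∀ a : A, a + a = 0) (a b : A) : a - b = a + b := by
  rw [sub_eq_add_neg, ngg two]
theorem eqz (two : ∀ a : A, a + a = 0) {a b : A} (h : a + b = 0) : a = b := by
  rw [← sba two] at h
  exact sub_eq_zero.mp h
theorem zeq (two : ∀ a : A, a + a = 0) {a b : A} (h : a = b) : a + b = 0 := by
  rw [h]; exact two b

/-- principle P -/
theorem prP {p L T z : A} (LT : L * T = p) (TL : T * L = 1 + p) (Tp : T * p = T) (pT : p * T = 0)
    (zp : z * p = p * z) (zL : z * L = L * z) : T * z = z * T := by
  calc T * z = T * p * z := by rw [Tp]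
    _ = T * z * p := by rw [mul_assoc, ← zp, ← mul_assoc]
    _ = T * z * (L * T) := by rw [LT]
    _ = T * L * z * T := by rw [← mul_assoc (T * z), mul_assoc T z L, zL, ← mul_assoc]
    _ = (1 + p) * z * T := by rw [TL]
    _ = z * T := by rw [add_mul, one_mul, ← zp, add_mul, mul_assoc z p T, pT, mul_zero, add_zero]

section one

variable {P : Type} [DecidableEq P] {pi L Y T : P → A} {sig : P → P → A} {d D Y0 : A}
  {U : Finset P → P → A}

theorem piL (H : AlgH pi L Y T sig d D Y0 U) (j : P) : pi j * L j = L j := by
  have h1 := H.hL j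
  have h2 := H.pp j
  have h3 := H.mD j
  have two := H.two
  rw [h1]
  linear_combination (norm := skip) h2 * D + h3
  simp only [sba two, mul_add, add_mul, mul_assoc, one_mul, mul_one, mul_zero, zero_mul, add_zero, zero_add]
  abel_nf
  try simp only [c2z two, c4z two, add_zero, zero_add]

theorem Lpi (H : AlgH pi L Y T sig d D Y0 U) (j : P) : L j * pi j = 0 := by
  have h1 := H.hL j
  have h2 := H.pp j
  have h3 := H.mD j
  have two := H.two
  rw [h1]
  linear_combination (norm := skip) D * h2 + h3
  simp only [sba two, mul_add, add_mul, mul_assoc, one_mul, mul_one, mul_zero, zero_mul, add_zero, zero_add]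
  abel_nf
  try simp only [c2z two, c4z two, add_zero, zero_add]

theorem piY (H : AlgH pi L Y T sig d D Y0 U) (j : P) : pi j * Y j = Y j := by
  have h1 := H.hY j
  have h2 := H.pp j
  have h3 := H.mY j
  have two := H.two
  rw [h1]
  linear_combination (norm := skip) h2 * Y0 + h3
  simp only [sba two, mul_add, add_mul, mul_assoc, one_mul, mul_one, mul_zero, zero_mul, add_zero, zero_add]
  abel_nf
  try simp only [c2z two, c4z two, add_zero, zero_add]

theorem Ypi (H : AlgH pi L Y T sig d D Y0 U) (j : P) : Y j * pi j = 0 := by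
  have h1 := H.hY j
  have h2 := H.pp j
  have h3 := H.mY j
  have two := H.two
  rw [h1]
  linear_combination (norm := skip) Y0 * h2 + h3
  simp only [sba two, mul_add, add_mul, mul_assoc, one_mul, mul_one, mul_zero, zero_mul, add_zero, zero_add]
  abel_nf
  try simp only [c2z two, c4z two, add_zero, zero_add]

theorem LLz (H : AlgH pi L Y T sig d D Y0 U) (j : P) : L j * L j = 0 := by
  conv_lhs => rw [← piL H j]
  rw [← mul_assoc, mul_assoc (pi j), Lpi H j, mul_zero, zero_mul]

theorem LYz (H : AlgH pi L Y T sig d D Y0 U) (j : P) : L j * Y j = 0 := by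
  rw [← piY H j, ← mul_assoc, Lpi H j, zero_mul]

theorem YLz (H : AlgH pi L Y T sig d D Y0 U) (j : P) : Y j * L j = 0 := by
  rw [← piL H j, ← mul_assoc, Ypi H j, zero_mul]

/-- `[D, T j] = 1` -/
theorem DT (H : AlgH pi L Y T sig d D Y0 U) (j : P) : D * T j + T j * D = 1 := by
  have two := H.two
  have h1 := prP (z := D + L j) (H.LT j) (H.TL j) (H.Tp j) (H.pT j) (by
    have a1 := H.hL j
    have a2 := piL H j
    have a3 := Lpi H j
    linear_combination (norm := skip) a1 + a2 + a3
    simp only [sba two, mul_add, add_mul, mul_assoc, one_mul, mul_one, mul_zero, zero_mul, add_zero, zero_add]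
    abel_nf
    try simp only [c2z two, c4z two, add_zero, zero_add]) (by
    have a1 := H.cDL j
    linear_combination (norm := skip) a1
    simp only [sba two, mul_add, add_mul, mul_assoc, one_mul, mul_one, mul_zero, zero_mul, add_zero, zero_add]
    abel_nf
    try simp only [c2z two, c4z two, add_zero, zero_add])
  have h2 := H.LT j
  have h3 := H.TL j
  linear_combination (norm := skip) h1 + h2 + h3 + two (pi j)
  simp only [sba two, mul_add, add_mul, mul_assoc, one_mul, mul_one, mul_zero, zero_mul, add_zero, zero_add]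
  abel_nf
  try simp only [c2z two, c4z two, add_zero, zero_add]


theorem Tsq (H : AlgH pi L Y T sig d D Y0 U) (j : P) : T j * T j = 0 := by
  conv_lhs => rw [← H.Tp j]
  rw [mul_assoc, ← mul_assoc (pi j), H.pT j, zero_mul, mul_zero]

/-- (1) -/
theorem TTc (H : AlgH pi L Y T sig d D Y0 U) (p q : P) : T p * T q = T q * T p := by
  have two := H.two
  have e1 := DT H p
  have e2 := DT H q
  have hX : D * (T p * T q + T q * T p) = (T p * T q + T q * T p) * D := by
    linear_combination (norm := skip) e1 * T q + T p * e2 + e2 * T p + T q * e1 + two (T p) + two (T q)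
    simp only [sba two, mul_add, add_mul, mul_assoc, one_mul, mul_one, mul_zero, zero_mul, add_zero, zero_add]
    abel_nf
    try simp only [c2z two, c4z two, add_zero, zero_add]
  have hpX : pi p * (T p * T q + T q * T p) = 0 := by
    have a1 := H.pT p
    have a2 := H.mT p q
    linear_combination (norm := skip) a1 * T q + a2 * T p + pi p * T q * a1
    simp only [sba two, mul_add, add_mul, mul_assoc, one_mul, mul_one, mul_zero, zero_mul, add_zero, zero_add]
    abel_nf
    try simp only [c2z two, c4z two, add_zero, zero_add]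
  have hLX : L p * (T p * T q + T q * T p) = 0 := by
    have a1 := H.hL p
    rw [a1]
    have : (D * pi p + pi p * D) * (T p * T q + T q * T p) =
      D * (pi p * (T p * T q + T q * T p)) + pi p * (D * (T p * T q + T q * T p)) := by
      rw [add_mul, mul_assoc, mul_assoc]
    rw [this, hpX, hX, ← mul_assoc, hpX, mul_zero, zero_mul, add_zero]
  have h3 : T p * (L p * (T p * T q + T q * T p)) = 0 := by rw [hLX, mul_zero]
  rw [← mul_assoc, H.TL p, add_mul, hpX, add_zero, one_mul] at h3
  exact eqz two h3

/-- `R` -/
theorem Req (H : AlgH pi L Y T sig d D Y0 U) (q : P) :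
    1 + (d * T q + T q * d) = Y q * T q + T q * Y q := by
  have two := H.two
  have h1 := prP (z := d + L q + Y q) (H.LT q) (H.TL q) (H.Tp q) (H.pT q) (by
    have a1 := H.hd q
    have a2 := piL H q
    have a3 := Lpi H q
    have a4 := piY H q
    have a5 := Ypi H q
    linear_combination (norm := skip) a1 + a2 + a3 + a4 + a5
    simp only [sba two, mul_add, add_mul, mul_assoc, one_mul, mul_one, mul_zero, zero_mul, add_zero, zero_add]
    abel_nf
    try simp only [c2z two, c4z two, add_zero, zero_add]) (by
    have a1 := H.cdL q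
    have a2 := LYz H q
    have a3 := YLz H q
    linear_combination (norm := skip) a1 + a2 + a3
    simp only [sba two, mul_add, add_mul, mul_assoc, one_mul, mul_one, mul_zero, zero_mul, add_zero, zero_add]
    abel_nf
    try simp only [c2z two, c4z two, add_zero, zero_add])
  have h2 := H.LT q
  have h3 := H.TL q
  linear_combination (norm := skip) h1 + h2 + h3 + two (pi q)
  simp only [sba two, mul_add, add_mul, mul_assoc, one_mul, mul_one, mul_zero, zero_mul, add_zero, zero_add]
  abel_nf
  try simp only [c2z two, c4z two, add_zero, zero_add]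

/-- `N` is symmetric -/
theorem Nsym (H : AlgH pi L Y T sig d D Y0 U) (p q : P) :
    pi q * Y p + Y p * pi q = pi p * Y q + Y q * pi p := by
  have two := H.two
  have a1 := H.hY p
  have a2 := H.hY q
  have a3 := H.pc p q
  linear_combination (norm := skip) pi q * a1 + a1 * pi q + pi p * a2 + a2 * pi p + Y0 * a3 + a3 * Y0
  simp only [sba two, mul_add, add_mul, mul_assoc, one_mul, mul_one, mul_zero, zero_mul, add_zero, zero_add]
  abel_nf
  try simp only [c2z two, c4z two, add_zero, zero_add]

/-- `Y` has degrees 0, 1 at all points -/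
theorem mYY (H : AlgH pi L Y T sig d D Y0 U) (p q : P) : Y p * pi q = pi q * Y p * pi q := by
  have two := H.two
  have a1 := H.hY p
  have a3 := H.pc p q
  have a4 := H.mY q
  linear_combination (norm := skip) a1 * pi q + pi q * a1 * pi q + pi p * a4 + Y0 * a3 + pi q * Y0 * a3 +
    a3 * Y0 * pi q + a4 * pi p
  simp only [sba two, mul_add, add_mul, mul_assoc, one_mul, mul_one, mul_zero, zero_mul, add_zero, zero_add]
  abel_nf
  try simp only [c2z two, c4z two, add_zero, zero_add]

theorem mLL (H : AlgH pi L Y T sig d D Y0 U) (p q : P) : L p * pi q = pi q * L p * pi q := by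
  have two := H.two
  have a1 := H.hL p
  have a3 := H.pc p q
  have a4 := H.mD q
  linear_combination (norm := skip) a1 * pi q + pi q * a1 * pi q + pi p * a4 + D * a3 + pi q * D * a3 +
    a3 * D * pi q + a4 * pi p
  simp only [sba two, mul_add, add_mul, mul_assoc, one_mul, mul_one, mul_zero, zero_mul, add_zero, zero_add]
  abel_nf
  try simp only [c2z two, c4z two, add_zero, zero_add]

/-- claim (b): `Y q + N` commutes with `T p` -/
theorem YNT (H : AlgH pi L Y T sig d D Y0 U) (p q : P) :
    T p * (Y q + (pi p * Y q + Y q * pi p)) = (Y q + (pi p * Y q + Y q * pi p)) * T p := by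
  have two := H.two
  apply prP (H.LT p) (H.TL p) (H.Tp p) (H.pT p)
  · have a1 := mYY H q p
    have a2 := H.pp p
    linear_combination (norm := skip) a2 * Y q + Y q * a2
    simp only [sba two, mul_add, add_mul, mul_assoc, one_mul, mul_one, mul_zero, zero_mul, add_zero, zero_add]
    abel_nf
    try simp only [c2z two, c4z two, add_zero, zero_add]
  · have a1 := H.cLY p q
    have a2 := piL H p
    have a3 := Lpi H p
    have a4 := mYY H q p
    linear_combination (norm := skip) pi p * a1 + a2 * Y q + a1 * pi p + a3 * Y q + Y q * a2 + Y q * a3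
    simp only [sba two, mul_add, add_mul, mul_assoc, one_mul, mul_one, mul_zero, zero_mul, add_zero, zero_add]
    abel_nf
    try simp only [c2z two, c4z two, add_zero, zero_add]


theorem kpe (two : ∀ a : A, a + a = 0) (b : P) (X : A) :
    kp pi b X = X + (pi b * X + X * pi b) := by
  unfold kp
  linear_combination (norm := skip) two (pi b * X * pi b)
  simp only [sba two, mul_add, add_mul, mul_assoc, one_mul, mul_one, mul_zero, zero_mul, add_zero, zero_add]
  abel_nf
  try simp only [c2z two, c4z two, add_zero, zero_add]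

theorem mvT (H : AlgH pi L Y T sig d D Y0 U) (c : P) : mv pi c (T c) = T c := by
  unfold mv
  rw [add_mul, add_mul, one_mul, H.pT, zero_mul, add_zero, H.Tp]

theorem sgU (H : AlgH pi L Y T sig d D Y0 U) (b c : P) : sig b c * kp pi b (T c) = 0 := by
  have := H.sV b c c
  rwa [mvT H] at this

theorem Usg (H : AlgH pi L Y T sig d D Y0 U) (b c : P) : kp pi b (T c) * sig b c = 0 := by
  have := H.Vs b c c
  rwa [mvT H] at this

theorem NU (H : AlgH pi L Y T sig d D Y0 U) (b c : P) :
    (pi c * Y b + Y b * pi c) * kp pi b (T c) = 0 := by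
  rw [← H.Ys b c, mul_assoc, sgU H, mul_zero]

theorem UN (H : AlgH pi L Y T sig d D Y0 U) (b c : P) :
    kp pi b (T c) * (pi c * Y b + Y b * pi c) = 0 := by
  rw [← H.sY b c, ← mul_assoc, Usg H, zero_mul]

/-- (4), first part -/
theorem LbU (H : AlgH pi L Y T sig d D Y0 U) (b q : P) : br (L b) (kp pi b (T q)) = 0 := by
  have two := H.two
  have a1 := H.hL b
  have a2 := piL H b
  have a3 := Lpi H b
  have a4 := H.mT b q
  have a5 := DT H q
  have a6 := H.pp b
  unfold br kp
  linear_combination (norm := skip) a3 * T q + T q * a2 + a1 * T q + a1 * T q * pi b + pi b * T q * a1 +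
    D * a4 + a4 * D + pi b * a5 * (1 + pi b) + a6
  simp only [sba two, mul_add, add_mul, mul_assoc, one_mul, mul_one, mul_zero, zero_mul, add_zero, zero_add]
  abel_nf
  try simp only [c2z two, c4z two, add_zero, zero_add]

/-- (4), second part -/
theorem YbU (H : AlgH pi L Y T sig d D Y0 U) (b q : P) : br (Y b) (kp pi b (T q)) = 0 := by
  have two := H.two
  have a1 := NU H b q
  have a2 := UN H b q
  have a3 := YNT H q b
  have a4 := piY H b
  have a5 := Ypi H b
  have a6 := H.pc b q
  obtain ⟨M, hM⟩ : ∃ M, M = Y b + (pi q * Y b + Y b * pi q) := ⟨_, rfl⟩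
  have b1 : pi b * M = M := by
    rw [hM]
    linear_combination (norm := skip) a4 + a6 * Y b + pi q * a4 + a4 * pi q
    simp only [sba two, mul_add, add_mul, mul_assoc, one_mul, mul_one, mul_zero, zero_mul, add_zero, zero_add]
    abel_nf
    try simp only [c2z two, c4z two, add_zero, zero_add]
  have b2 : M * pi b = 0 := by
    rw [hM]
    linear_combination (norm := skip) a5 + Y b * a6 + pi q * a5 + a5 * pi q
    simp only [sba two, mul_add, add_mul, mul_assoc, one_mul, mul_one, mul_zero, zero_mul, add_zero, zero_add]
    abel_nf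
    try simp only [c2z two, c4z two, add_zero, zero_add]
  rw [← hM] at a3
  have b3 : br M (kp pi b (T q)) = 0 := by
    rw [kpe two]
    unfold br
    linear_combination (norm := skip) T q * b1 + pi b * a3 + b1 * T q + b2 * T q + a3 * pi b + T q * b2
    simp only [sba two, mul_add, add_mul, mul_assoc, one_mul, mul_one, mul_zero, zero_mul, add_zero, zero_add]
    abel_nf
    try simp only [c2z two, c4z two, add_zero, zero_add]
  have b4 : Y b = M + (pi q * Y b + Y b * pi q) := by
    rw [hM]
    linear_combination (norm := skip) two (pi q * Y b + Y b * pi q)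
    simp only [sba two, mul_add, add_mul, mul_assoc, one_mul, mul_one, mul_zero, zero_mul, add_zero, zero_add]
    abel_nf
    try simp only [c2z two, c4z two, add_zero, zero_add]
  unfold br at b3 ⊢
  linear_combination (norm := skip) b3 + a1 + a2 + b4 * kp pi b (T q) + kp pi b (T q) * b4
  simp only [sba two, mul_add, add_mul, mul_assoc, one_mul, mul_one, mul_zero, zero_mul, add_zero, zero_add]
  abel_nf
  try simp only [c2z two, c4z two, add_zero, zero_add]


/-- `U` and the part which changes -/
theorem Rpi (H : AlgH pi L Y T sig d D Y0 U) (q : P) :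
    (Y q * T q + T q * Y q) * pi q = pi q * (Y q * T q + T q * Y q) := by
  have two := H.two
  have a1 := H.Tp q
  have a2 := H.pT q
  have a3 := Ypi H q
  have a4 := piY H q
  linear_combination (norm := skip) Y q * a1 + T q * a3 + a4 * T q + a2 * Y q
  simp only [sba two, mul_add, add_mul, mul_assoc, one_mul, mul_one, mul_zero, zero_mul, add_zero, zero_add]
  abel_nf
  try simp only [c2z two, c4z two, add_zero, zero_add]

/-- claim (a) -/
theorem Ra (H : AlgH pi L Y T sig d D Y0 U) (p q : P) :
    pi q * (Y p * T p + T p * Y p) = pi q * (Y p * T p + T p * Y p) * pi q := by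
  have two := H.two
  have a1 := mYY H p q
  have a2 := H.mT q p
  have a3 := NU H q p
  have a4 := UN H q p
  have a5 := Nsym H p q
  rw [← a5] at a3 a4
  rw [kpe two] at a3 a4
  have a6 := H.pp q
  linear_combination (norm := skip) a3 + a4 + Y p * a6 * T p + T p * a6 * Y p + a1 * T p * pi q +
    pi q * Y p * a2 + T p * a1 + a2 * Y p + pi q * T p * a1 + a2 * Y p * pi q
  simp only [sba two, mul_add, add_mul, mul_assoc, one_mul, mul_one, mul_zero, zero_mul, add_zero, zero_add]
  abel_nf
  try simp only [c2z two, c4z two, add_zero, zero_add]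

/-- (i) -/
theorem Ri (H : AlgH pi L Y T sig d D Y0 U) (p q : P) :
    (Y q * T q + T q * Y q) * kp pi q (T p) = kp pi q (T p) * (Y q * T q + T q * Y q) := by
  have two := H.two
  have a1 := Ra H p q
  have a2 := Rpi H q
  have a3 := TTc H p q
  have r1 := Req H p
  have r2 := Req H q
  obtain ⟨Rp, hRp⟩ : ∃ R, R = Y p * T p + T p * Y p := ⟨_, rfl⟩
  obtain ⟨Rq, hRq⟩ : ∃ R, R = Y q * T q + T q * Y q := ⟨_, rfl⟩
  rw [← hRp] at a1 r1
  rw [← hRq] at a2 r2
  rw [← hRq]
  have a4 : Rq * T p + T p * Rq = Rp * T q + T q * Rp := by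
    rw [← r1, ← r2]
    linear_combination (norm := skip) d * a3 + a3 * d
    simp only [sba two, mul_add, add_mul, mul_assoc, one_mul, mul_one, mul_zero, zero_mul, add_zero, zero_add]
    abel_nf
    try simp only [c2z two, c4z two, add_zero, zero_add]
  have a5 := H.Tp q
  have a6 := H.pT q
  rw [kpe two]
  linear_combination (norm := skip) a4 + pi q * a4 + a4 * pi q + a2 * T p + T p * a2 + a1 * T q + 
    pi q * Rp * a6 + a5 * Rp + T q * a1 + a5 * Rp * pi q + a6 * Rp + Rp * a5
  simp only [sba two, mul_add, add_mul, mul_assoc, one_mul, mul_one, mul_zero, zero_mul, add_zero, zero_add]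
  abel_nf
  try simp only [c2z two, c4z two, add_zero, zero_add]


/-- (ii) -/
theorem Rii (H : AlgH pi L Y T sig d D Y0 U) (p q : P) :
    (pi q * T p + T p * pi q) * (Y q * T q + T q * Y q) =
      (Y p * T p + T p * Y p) * (pi p * T q + T q * pi p) := by
  have two := H.two
  obtain ⟨N, hN⟩ : ∃ N, N = pi p * Y q + Y q * pi p := ⟨_, rfl⟩
  have hN' : N = pi q * Y p + Y p * pi q := by rw [hN, Nsym H q p]
  have hp := H.pp p
  have hq := H.pp q
  have hpq := H.pc p q
  -- facts on `M q = Y q + N`
  have b1 : pi q * (Y q + N) = Y q + N := by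
    rw [hN]
    have a4 := piY H q
    linear_combination (norm := skip) a4 + hpq * Y q + pi p * a4 + a4 * pi p
    simp only [sba two, mul_add, add_mul, mul_assoc, one_mul, mul_one, mul_zero, zero_mul, add_zero, zero_add]
    abel_nf
    try simp only [c2z two, c4z two, add_zero, zero_add]
  have b2 : (Y q + N) * pi q = 0 := by
    rw [hN]
    have a5 := Ypi H q
    linear_combination (norm := skip) a5 + Y q * hpq + pi p * a5 + a5 * pi p
    simp only [sba two, mul_add, add_mul, mul_assoc, one_mul, mul_one, mul_zero, zero_mul, add_zero, zero_add]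
    abel_nf
    try simp only [c2z two, c4z two, add_zero, zero_add]
  have b3 : pi p * (Y p + N) = Y p + N := by
    rw [hN']
    have a4 := piY H p
    linear_combination (norm := skip) a4 + hpq * Y p + pi q * a4 + a4 * pi q
    simp only [sba two, mul_add, add_mul, mul_assoc, one_mul, mul_one, mul_zero, zero_mul, add_zero, zero_add]
    abel_nf
    try simp only [c2z two, c4z two, add_zero, zero_add]
  have b4 : (Y p + N) * pi p = 0 := by
    rw [hN']
    have a5 := Ypi H p
    linear_combination (norm := skip) a5 + Y p * hpq + pi q * a5 + a5 * pi q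
    simp only [sba two, mul_add, add_mul, mul_assoc, one_mul, mul_one, mul_zero, zero_mul, add_zero, zero_add]
    abel_nf
    try simp only [c2z two, c4z two, add_zero, zero_add]
  have c1 := YNT H p q
  rw [← hN] at c1
  have c2 := YNT H q p
  rw [← hN'] at c2
  have e1 : (pi q * T p + T p * pi q) * (Y q + N) = 0 := by
    linear_combination (norm := skip) pi q * c1 + b1 * T p + c1 + T p * b1
    simp only [sba two, mul_add, add_mul, mul_assoc, one_mul, mul_one, mul_zero, zero_mul, add_zero, zero_add]
    abel_nf
    try simp only [c2z two, c4z two, add_zero, zero_add]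
  have e2 : (Y p + N) * (pi p * T q + T q * pi p) = 0 := by
    linear_combination (norm := skip) b4 * T q + c2 * pi p + T q * b4
    simp only [sba two, mul_add, add_mul, mul_assoc, one_mul, mul_one, mul_zero, zero_mul, add_zero, zero_add]
    abel_nf
    try simp only [c2z two, c4z two, add_zero, zero_add]
  have u1 := NU H p q
  have u2 := UN H q p
  rw [← hN'] at u1
  rw [← hN, kpe two] at u2
  rw [kpe two] at u1
  have t1 := H.Tp q
  have t2 := H.pT q
  have t3 := H.Tp p
  have t4 := H.pT p
  have m1 := H.mT q p
  have m2 := H.mT p q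
  have f1 : (pi q * T p + T p * pi q) * T q = 0 := by
    linear_combination (norm := skip) T p * t2 + m1 * T q + pi q * T p * t2
    simp only [sba two, mul_add, add_mul, mul_assoc, one_mul, mul_one, mul_zero, zero_mul, add_zero, zero_add]
    abel_nf
    try simp only [c2z two, c4z two, add_zero, zero_add]
  have f2 : T p * (pi p * T q + T q * pi p) = 0 := by
    linear_combination (norm := skip) T p * m2 + t3 * T q * pi p
    simp only [sba two, mul_add, add_mul, mul_assoc, one_mul, mul_one, mul_zero, zero_mul, add_zero, zero_add]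
    abel_nf
    try simp only [c2z two, c4z two, add_zero, zero_add]
  linear_combination (norm := skip) e1 * T q + f1 * Y q + (pi q * T p + T p * pi q) * u1 + T p * e2 +
    Y p * f2 + u2 * (pi p * T q + T q * pi p)
  simp only [sba two, mul_add, add_mul, mul_assoc, one_mul, mul_one, mul_zero, zero_mul, add_zero, zero_add]
  abel_nf
  try simp only [c2z two, c4z two, c6z two, add_zero, zero_add]

theorem second (H : AlgH pi L Y T sig d D Y0 U) (p q : P) :
    br (br d (T q)) (T p) =
      br (pi p) (T q) + br (pi q) (T p) + T q * d * br (pi q) (T p) + T p * d * br (pi p) (T q) := by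
  have two := H.two
  have h1 := Ri H p q
  have h2 := Rii H p q
  have r1 := Req H p
  have r2 := Req H q
  rw [← r2] at h1 h2
  rw [← r1] at h2
  rw [kpe two] at h1
  have t1 := H.Tp q
  have t2 := H.pT q
  have t3 := H.Tp p
  have t4 := H.pT p
  have m1 := H.mT q p
  have m2 := H.mT p q
  have f1 : T q * (pi q * T p + T p * pi q) = 0 := by
    linear_combination (norm := skip) T q * m1 + t1 * T p * pi q
    simp only [sba two, mul_add, add_mul, mul_assoc, one_mul, mul_one, mul_zero, zero_mul, add_zero, zero_add]
    abel_nf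
    try simp only [c2z two, c4z two, add_zero, zero_add]
  have f2 : T p * (pi p * T q + T q * pi p) = 0 := by
    linear_combination (norm := skip) T p * m2 + t3 * T q * pi p
    simp only [sba two, mul_add, add_mul, mul_assoc, one_mul, mul_one, mul_zero, zero_mul, add_zero, zero_add]
    abel_nf
    try simp only [c2z two, c4z two, add_zero, zero_add]
  unfold br
  linear_combination (norm := skip) h1 + h2 + d * f1 + d * f2
  simp only [sba two, mul_add, add_mul, mul_assoc, one_mul, mul_one, mul_zero, zero_mul, add_zero, zero_add]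
  abel_nf
  try simp only [c2z two, c4z two, c6z two, add_zero, zero_add]

end one

theorem alg1 : S_ALG1 := by
  intro A _ P _ pi L Y T sig d D Y0 U H
  refine ⟨TTc H, fun p q _ => second H p q, fun b q _ => ?_⟩
  have : U {b} q = kp pi b (T q) := by
    rw [← H.U0 q, ← H.U1 ∅ b q (Finset.notMem_empty b)]
    rfl
  rw [this]
  exact ⟨LbU H b q, YbU H b q⟩

end Pool.Agent.Y465.SZ.A1
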