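import Pool.Agent.Y465.SZ.Alg1

set_option linter.unusedSimpArgs false
set_option linter.unusedVariables false
set_option linter.unusedSectionVars false

namespace Pool.Agent.Y465.SZ.A2
open Pool.Agent.Y465.SZ

variable {A : Type} [Ring A]

theorem c2z (two : ∀ a : A, a + a = 0) (a : A) : (2 : ℤ) • a = 0 := by rw [two_zsmul]; exact two a
theorem c4z (two : ∀ a : A, a + a = 0) (a : A) : (4 : ℤ) • a = 0 := by
  have : (4 : ℤ) = 2 * 2 := by norm_num
  rw [this, mul_zsmul, c2z two]
theorem c6z (two : ∀ a : A, a + a = 0) (a : A) : (6 : ℤ) • a = 0 := by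
  have : (6 : ℤ) = 2 * 3 := by norm_num
  rw [this, mul_zsmul, c2z two]
theorem ngg (two : ∀ a : A, a + a = 0) (a : A) : -a = a := by
  rw [neg_eq_iff_add_eq_zero]; exact two a
theorem sba (two : ∀ a : A, a + a = 0) (a b : A) : a - b = a + b := by
  rw [sub_eq_add_neg, ngg two]
theorem eqz (two : ∀ a : A, a + a = 0) {a b : A} (h : a + b = 0) : a = b := by
  rw [← sba two] at h
  exact sub_eq_zero.mp h
theorem zeq (two : ∀ a : A, a + a = 0) {a b : A} (h : a = b) : a + b = 0 := by
  rw [h]; exact two b

/-- commutation with an element of degrees 0 and 1 passes to the degree 0 part -/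
theorem cl1 (two : ∀ a : A, a + a = 0) {p L X s : A} (pp : p * p = p) (hL : L * p = p * L * p)
    (hX : p * X = p * X * p) (hc : L * X = X * L) (sM : s * (p * L + L * p) = p * L + L * p)
    (Ms : (p * L + L * p) * s = p * L + L * p) (sX : s * ((1 + p) * X * p) = 0)
    (Xs : ((1 + p) * X * p) * s = 0) :
    L * ((1 + p) * X * (1 + p) + p * X * p) = ((1 + p) * X * (1 + p) + p * X * p) * L := by
  have h1 : (p * L + L * p) * ((1 + p) * X * p) = 0 := by
    rw [← Ms, mul_assoc, sX, mul_zero]
  have h2 : ((1 + p) * X * p) * (p * L + L * p) = 0 := by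
    rw [← sM, ← mul_assoc, Xs, zero_mul]
  have g1 : (p * L + L * p) * X * (1 + p) + p * X * (p * L + L * p) = 0 := by
    linear_combination (norm := skip) p * hc * (1 + p) + L * hX + hX * L
    simp only [sba two, mul_add, add_mul, mul_assoc, one_mul, mul_one, mul_zero, zero_mul, add_zero, zero_add]
    abel_nf
    try simp only [c2z two, c4z two, c6z two, add_zero, zero_add]
  linear_combination (norm := skip) hc + g1 + h1 + h2 + L * pp * X * p + X * pp * L + p * X * pp * L + p * hc +
    hL * X * p + hX * L * p + hc * p + X * hL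
  simp only [sba two, mul_add, add_mul, mul_assoc, one_mul, mul_one, mul_zero, zero_mul, add_zero, zero_add]
  abel_nf
  try simp only [c2z two, c4z two, c6z two, add_zero, zero_add]


theorem tail {a b c e : A} (h : a * b = c * e) (x : A) : a * (b * x) = c * (e * x) := by
  rw [← mul_assoc, h, mul_assoc]
theorem tail0 {a b : A} (h : a * b = 0) (x : A) : a * (b * x) = 0 := by
  rw [← mul_assoc, h, zero_mul]
theorem tail1 {a b c : A} (h : a * b = c) (x : A) : a * (b * x) = c * x := by
  rw [← mul_assoc, h]

/-- degree zero part of the main identity -/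
theorem cl2 (two : ∀ a : A, a + a = 0) {e f d0 l u0 u' v0 v' a0 a' b0 b' : A} (hef : e + f = 1)
    (ee : e * e = e) (ff : f * f = f) (ef : e * f = 0) (fe : f * e = 0)
    (ed : e * d0 = d0 * e) (fd : f * d0 = d0 * f) (el : e * l = l * f) (fl : f * l = 0)
    (eu0 : e * u0 = u0 * e) (fu0 : f * u0 = u0 * f) (ev0 : e * v0 = v0 * e) (fv0 : f * v0 = v0 * f)
    (ea0 : e * a0 = a0 * e) (fa0 : f * a0 = a0 * f) (eb0 : e * b0 = b0 * e) (fb0 : f * b0 = b0 * f)
    (eu : e * u' = 0) (fu : f * u' = u' * e) (ev : e * v' = 0) (fv : f * v' = v' * e)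
    (ea : e * a' = 0) (fa : f * a' = a' * e) (eb : e * b' = 0) (fb : f * b' = b' * e)
    (h : br (br (d0 + l) (u0 + u')) (v0 + v') = (a0 + a') + (b0 + b') +
      (u0 + u') * (d0 + l) * (b0 + b') + (v0 + v') * (d0 + l) * (a0 + a'))
    (hlu : l * u0 = u0 * l) (hlv : l * v0 = v0 * l) (hla : l * a0 = a0 * l) (hlb : l * b0 = b0 * l)
    (hc : u' * v0 = v0 * u') (ub : u0 * b0 = 0) (va : v0 * a0 = 0) (ub1 : u' * b0 = 0)
    (ub2 : u0 * b' = 0) (va1 : v' * a0 = 0) (va2 : v0 * a' = 0) :
    br (br (d0 + l) u0) v0 = a0 + b0 + u0 * (d0 + l) * b0 + v0 * (d0 + l) * a0 := by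
  have h1 := zeq two h
  have h2 : f * (br (br (d0 + l) (u0 + u')) (v0 + v') + ((a0 + a') + (b0 + b') +
      (u0 + u') * (d0 + l) * (b0 + b') + (v0 + v') * (d0 + l) * (a0 + a'))) * f +
      e * (br (br (d0 + l) (u0 + u')) (v0 + v') + ((a0 + a') + (b0 + b') +
      (u0 + u') * (d0 + l) * (b0 + b') + (v0 + v') * (d0 + l) * (a0 + a'))) * e = 0 := by
    rw [h1, mul_zero, mul_zero, zero_mul, zero_mul, add_zero]
  simp only [br, mul_add, add_mul, mul_assoc, ee, ff, ef, fe, ed, fd, el, fl, eu0, fu0, ev0, fv0, ea0, fa0,
    eb0, fb0, eu, fu, ev, fv, ea, fa, eb, fb, tail ed, tail fd, tail el, tail0 fl, tail eu0, tail fu0,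
    tail ev0, tail fv0, tail ea0, tail fa0, tail eb0, tail fb0, tail0 eu, tail fu, tail0 ev, tail fv,
    tail0 ea, tail fa, tail0 eb, tail fb, mul_zero, zero_mul, add_zero, zero_add] at h2
  have h3 : (d0 * u0 * v0 + u0 * d0 * v0 + v0 * d0 * u0 + v0 * u0 * d0 +
      (l * u' * v0 + u' * l * v0 + v0 * l * u' + v0 * u' * l) +
      (l * u0 * v' + u0 * l * v' + v' * l * u0 + v' * u0 * l) + a0 + b0 +
      (u0 * d0 * b0 + u' * l * b0 + u0 * l * b') + (v0 * d0 * a0 + v' * l * a0 + v0 * l * a')) *
      (e + f) = 0 := by
    have le : l * e = 0 := by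
      have : l = l * f := by
        conv_lhs => rw [← one_mul l, ← hef, add_mul, el, fl, add_zero]
      rw [this, mul_assoc, fe, mul_zero]
    have key : ∀ z : A, e * z = 0 → f * z = z * e → z * f = 0 := by
      intro z hz1 hz2
      have : z = z * e := by
        conv_lhs => rw [← one_mul z, ← hef, add_mul, hz1, hz2, zero_add]
      rw [this, mul_assoc, ef, mul_zero]
    have uf := key u' eu fu
    have vf := key v' ev fv
    have af := key a' ea fa
    have bf := key b' eb fb
    linear_combination (norm := skip) h2 + u' * l * ev0 + u' * le * v0 + v0 * u' * le + v' * l * eu0 +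
      v' * le * u0 + v' * u0 * le + u' * l * eb0 + u' * le * b0 + v' * l * ea0 + v' * le * a0 +
      l * u' * fv0 + l * uf * v0 + v0 * l * uf + l * u0 * vf + u0 * l * vf + u0 * l * bf + v0 * l * af
    simp only [sba two, mul_add, add_mul, mul_assoc, one_mul, mul_one, mul_zero, zero_mul, add_zero, zero_add]
    abel_nf
    try simp only [c2z two, c4z two, c6z two, add_zero, zero_add]
  rw [hef, mul_one] at h3
  unfold br
  linear_combination (norm := skip) h3 + hlu * v0 + v0 * hlu + hlu * b0 + l * ub + hlv * a0 + l * va +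
    l * hc + hc * l + u' * hlv + hlv * u' + hlu * v' + v' * hlu + u' * hlb + ub1 * l + hlu * b' + l * ub2 +
    v' * hla + va1 * l + hlv * a' + l * va2
  simp only [sba two, mul_add, add_mul, mul_assoc, one_mul, mul_one, mul_zero, zero_mul, add_zero, zero_add]
  abel_nf
  try simp only [c2z two, c4z two, c6z two, add_zero, zero_add]


section two

variable {P : Type} [DecidableEq P] {pi L Y T : P → A} {sig : P → P → A} {d D Y0 : A}
  {U : Finset P → P → A}

theorem kp_left {b : P} {s X : A} (h : s * pi b = pi b * s) : kp pi b (s * X) = s * kp pi b X := by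
  unfold kp
  have h1 : (1 + pi b) * (s * X) = s * ((1 + pi b) * X) := by
    rw [← mul_assoc, ← mul_assoc, mul_add, mul_one, h, add_mul, one_mul]
  have h2 : pi b * (s * X) = s * (pi b * X) := by
    rw [← mul_assoc, ← h, mul_assoc]
  rw [h1, h2, mul_assoc s, mul_assoc s, ← mul_add]

theorem kp_right {b : P} {s X : A} (h : s * pi b = pi b * s) : kp pi b (X * s) = kp pi b X * s := by
  unfold kp
  have h1 : X * s * (1 + pi b) = X * (1 + pi b) * s := by
    rw [mul_assoc, mul_assoc, mul_add, mul_one, h, add_mul, one_mul]
  have h2 : X * s * pi b = X * pi b * s := by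
    rw [mul_assoc, h, mul_assoc]
  rw [mul_assoc, h1, mul_assoc (pi b), h2, ← mul_assoc, ← mul_assoc, ← mul_assoc, ← mul_assoc, ← add_mul]

theorem mul_comm1 (H : AlgH pi L Y T sig d D Y0 U) (b c : P) : (1 + pi c) * pi b = pi b * (1 + pi c) := by
  rw [add_mul, mul_add, H.pc, one_mul, mul_one]

/-- induction principle for the operators `U` -/
theorem Uind (H : AlgH pi L Y T sig d D Y0 U) (q : P) (p : A → Prop) (h0 : p (T q))
    (h1 : ∀ b X, p X → p (kp pi b X)) : ∀ B, p (U B q) := by
  intro B
  induction B using Finset.induction_on with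
  | empty => rw [H.U0]; exact h0
  | insert b B hb ih => rw [H.U1 B b q hb]; exact h1 b _ ih

theorem Upi (H : AlgH pi L Y T sig d D Y0 U) (q : P) (B : Finset P) : U B q * pi q = U B q := by
  apply Uind H q (fun X => X * pi q = X) (H.Tp q)
  intro b X hX
  show kp pi b X * pi q = kp pi b X
  rw [← kp_right (H.pc q b), hX]

theorem piU (H : AlgH pi L Y T sig d D Y0 U) (q : P) (B : Finset P) : pi q * U B q = 0 := by
  apply Uind H q (fun X => pi q * X = 0) (H.pT q)
  intro b X hX
  show pi q * kp pi b X = 0
  rw [← kp_left (H.pc q b), hX]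
  unfold kp
  rw [mul_zero, mul_zero, zero_mul, zero_mul, add_zero]

theorem mU (H : AlgH pi L Y T sig d D Y0 U) (q c : P) (B : Finset P) :
    pi c * U B q = pi c * U B q * pi c := by
  apply Uind H q (fun X => pi c * X = pi c * X * pi c) (H.mT c q)
  intro b X hX
  show pi c * kp pi b X = pi c * kp pi b X * pi c
  rw [← kp_left (H.pc c b), ← kp_right (H.pc c b), ← hX]

theorem kp_comm_self (H : AlgH pi L Y T sig d D Y0 U) (b : P) (X : A) :
    kp pi b X * pi b = pi b * kp pi b X := by
  have two := H.two
  have h1 := H.pp b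
  unfold kp
  linear_combination (norm := skip) (1 + pi b) * X * h1 + pi b * X * h1 + h1 * X * (1 + pi b) + h1 * X * pi b
  simp only [sba two, mul_add, add_mul, mul_assoc, one_mul, mul_one, mul_zero, zero_mul, add_zero, zero_add]
  abel_nf
  try simp only [c2z two, c4z two, c6z two, add_zero, zero_add]

theorem Ucomm (H : AlgH pi L Y T sig d D Y0 U) (q b : P) (B : Finset P) (hb : b ∈ B) :
    U B q * pi b = pi b * U B q := by
  have : B = insert b (B.erase b) := (Finset.insert_erase hb).symm
  rw [this, H.U1 _ b q (Finset.notMem_erase b B)]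
  exact kp_comm_self H b _

theorem kp_kp (H : AlgH pi L Y T sig d D Y0 U) (b c : P) (X : A) :
    kp pi b (mv pi c X) = mv pi c (kp pi b X) := by
  unfold mv
  rw [kp_right (H.pc c b), kp_left (mul_comm1 H b c)]

theorem kp_kp2 (H : AlgH pi L Y T sig d D Y0 U) (b c : P) (X : A) :
    kp pi b (kp pi c X) = kp pi c (kp pi b X) := by
  have h1 : kp pi c X = (1 + pi c) * X * (1 + pi c) + pi c * X * pi c := rfl
  have h2 : ∀ X Z : A, kp pi b (X + Z) = kp pi b X + kp pi b Z := by
    intro X Z
    unfold kp
    simp only [mul_add, add_mul]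
    abel
  rw [h1, h2, kp_right (mul_comm1 H b c), kp_left (mul_comm1 H b c), kp_right (H.pc c b),
    kp_left (H.pc c b)]
  rfl

theorem kp_zero (b : P) : kp pi b (0 : A) = 0 := by
  unfold kp
  rw [mul_zero, mul_zero, zero_mul, zero_mul, add_zero]

theorem sgV (H : AlgH pi L Y T sig d D Y0 U) (q b c : P) (B : Finset P) :
    sig b c * kp pi b (mv pi c (U B q)) = 0 := by
  apply Uind H q (fun X => sig b c * kp pi b (mv pi c X) = 0) (H.sV b c q)
  intro a X hX
  show sig b c * kp pi b (mv pi c (kp pi a X)) = 0
  rw [← kp_kp H a c, kp_kp2 H b a, ← kp_left (H.sp b c a), hX, kp_zero]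

theorem Vsg (H : AlgH pi L Y T sig d D Y0 U) (q b c : P) (B : Finset P) :
    kp pi b (mv pi c (U B q)) * sig b c = 0 := by
  apply Uind H q (fun X => kp pi b (mv pi c X) * sig b c = 0) (H.Vs b c q)
  intro a X hX
  show kp pi b (mv pi c (kp pi a X)) * sig b c = 0
  rw [← kp_kp H a c, kp_kp2 H b a, ← kp_right (H.sp b c a), hX, kp_zero]

theorem kp_of_comm (two : ∀ a : A, a + a = 0) {b : P} {X : A} (hb : pi b * pi b = pi b)
    (h : X * pi b = pi b * X) : kp pi b X = X := by
  unfold kp
  linear_combination (norm := skip) h + two (pi b * X * pi b)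
  simp only [sba two, mul_add, add_mul, mul_assoc, one_mul, mul_one, mul_zero, zero_mul, add_zero, zero_add]
  abel_nf
  try simp only [c2z two, c4z two, c6z two, add_zero, zero_add]

theorem sgV' (H : AlgH pi L Y T sig d D Y0 U) (q b c : P) (B : Finset P) (hb : b ∈ B) :
    sig b c * mv pi c (U B q) = 0 ∧ mv pi c (U B q) * sig b c = 0 := by
  have h1 : kp pi b (mv pi c (U B q)) = mv pi c (U B q) := by
    rw [kp_kp H, kp_of_comm H.two (H.pp b) (Ucomm H q b B hb)]
  constructor
  · conv_lhs => rw [← h1]
    exact sgV H q b c B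
  · conv_lhs => rw [← h1]
    exact Vsg H q b c B

/-- claim 1 -/
theorem claim1 (H : AlgH pi L Y T sig d D Y0 U) 
    (h3 : ∀ b q, b ≠ q → br (L b) (U {b} q) = 0 ∧ br (Y b) (U {b} q) = 0) (b q : P) (B : Finset P)
    (hB : b ∈ B) (hq : q ∉ B) : L b * U B q = U B q * L b ∧ Y b * U B q = U B q * Y b := by
  have two := H.two
  have key : ∀ B' : Finset P, b ∉ B' → q ∉ insert b B' → L b * U (insert b B') q = U (insert b B') q * L b ∧
      Y b * U (insert b B') q = U (insert b B') q * Y b := by
    intro B'
    induction B' using Finset.induction_on with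
    | empty =>
      intro _ hq'
      have hbq : b ≠ q := by
        intro h
        exact hq' (by rw [h]; exact Finset.mem_insert_self q _)
      have := h3 b q hbq
      exact ⟨eqz two this.1, eqz two this.2⟩
    | insert c B' hc ih =>
      intro hb hq'
      have hbc : b ≠ c := fun h => hb (by rw [h]; exact Finset.mem_insert_self c _)
      have hb' : b ∉ B' := fun h => hb (Finset.mem_insert_of_mem h)
      have hins : insert b (insert c B') = insert c (insert b B') := Finset.insert_comm b c B'
      rw [hins] at hq' ⊢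
      have hq'' : q ∉ insert b B' := fun h => hq' (Finset.mem_insert_of_mem h)
      obtain ⟨i1, i2⟩ := ih hb' hq''
      have hcB : c ∉ insert b B' := by
        intro h
        rcases Finset.mem_insert.mp h with h | h
        · exact hbc h.symm
        · exact hc h
      rw [H.U1 _ c q hcB]
      have hs := sgV' H q b c (insert b B') (Finset.mem_insert_self b B')
      have hmL : L b * pi c = pi c * L b * pi c := by
        have a1 := H.hL b
        have a3 := H.pc b c
        have a4 := H.mD c
        linear_combination (norm := skip) a1 * pi c + pi c * a1 * pi c + pi b * a4 + D * a3 + pi c * D * a3 +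
          a3 * D * pi c + a4 * pi b
        simp only [sba two, mul_add, add_mul, mul_assoc, one_mul, mul_one]
        abel_nf
        try simp only [c2z two, c4z two, add_zero, zero_add]
      have hmY : Y b * pi c = pi c * Y b * pi c := by
        have a1 := H.hY b
        have a3 := H.pc b c
        have a4 := H.mY c
        linear_combination (norm := skip) a1 * pi c + pi c * a1 * pi c + pi b * a4 + Y0 * a3 + pi c * Y0 * a3 +
          a3 * Y0 * pi c + a4 * pi b
        simp only [sba two, mul_add, add_mul, mul_assoc, one_mul, mul_one]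
        abel_nf
        try simp only [c2z two, c4z two, add_zero, zero_add]
      exact ⟨cl1 two (H.pp c) hmL (mU H q c _) i1 (H.sL b c) (H.Ls b c) hs.1 hs.2,
        cl1 two (H.pp c) hmY (mU H q c _) i2 (H.sY b c) (H.Ys b c) hs.1 hs.2⟩
  have hB2 : B = insert b (B.erase b) := (Finset.insert_erase hB).symm
  have := key (B.erase b) (Finset.notMem_erase b B) (by rw [← hB2]; exact hq)
  rw [← hB2] at this
  exact this


theorem kpe (two : ∀ a : A, a + a = 0) (b : P) (X : A) :
    kp pi b X = X + (pi b * X + X * pi b) := by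
  unfold kp
  linear_combination (norm := skip) two (pi b * X * pi b)
  simp only [sba two, mul_add, add_mul, mul_assoc, one_mul, mul_one, mul_zero, zero_mul, add_zero, zero_add]
  abel_nf
  try simp only [c2z two, c4z two, c6z two, add_zero, zero_add]

/-- the changing part as a commutator -/
theorem mve (two : ∀ a : A, a + a = 0) (b : P) (X : A) (h : pi b * X = pi b * X * pi b) :
    mv pi b X = pi b * X + X * pi b := by
  unfold mv
  linear_combination (norm := skip) h
  simp only [sba two, mul_add, add_mul, mul_assoc, one_mul, mul_one, mul_zero, zero_mul, add_zero, zero_add]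
  abel_nf
  try simp only [c2z two, c4z two, c6z two, add_zero, zero_add]

theorem brz (two : ∀ a : A, a + a = 0) {r x y : A} (hx : x * r = x) (hy : r * y = r * y * r) :
    x * br r y = 0 := by
  unfold br
  linear_combination (norm := skip) x * hy + hx * y * r
  simp only [sba two, mul_add, add_mul, mul_assoc, one_mul, mul_one, mul_zero, zero_mul, add_zero, zero_add]
  abel_nf
  try simp only [c2z two, c4z two, c6z two, add_zero, zero_add]

theorem brpi {r p x : A} (hrp : p * r = r * p) (hx : p * x = x * p) :
    p * br r x = br r x * p := by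
  unfold br
  rw [mul_add, add_mul, ← mul_assoc, hrp, mul_assoc, hx, ← mul_assoc, ← mul_assoc, hx, mul_assoc x p r, hrp,
    ← mul_assoc]

theorem brpi0 {r p x : A} (hrp : p * r = r * p) (hx : p * x = 0) :
    p * br r x = 0 := by
  unfold br
  rw [mul_add, ← mul_assoc, hrp, mul_assoc, hx, ← mul_assoc, hx, zero_mul, mul_zero, add_zero]

theorem brpi1 {r f e x : A} (hrf : f * r = r * f) (hre : e * r = r * e) (hx : f * x = x * e) :
    f * br r x = br r x * e := by
  unfold br
  rw [mul_add, add_mul, ← mul_assoc, hrf, mul_assoc, hx, ← mul_assoc, ← mul_assoc, hx, mul_assoc x e r, hre,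
    ← mul_assoc]

theorem claim2 (H : AlgH pi L Y T sig d D Y0 U) 
    (h1 : ∀ p q, T p * T q = T q * T p)
    (h2 : ∀ p q, p ≠ q → br (br d (T q)) (T p) =
      br (pi p) (T q) + br (pi q) (T p) + T q * d * br (pi q) (T p) + T p * d * br (pi p) (T q))
    (h3 : ∀ b q, b ≠ q → br (L b) (U {b} q) = 0 ∧ br (Y b) (U {b} q) = 0)
    (p q : P) (hpq : p ≠ q) (B : Finset P) (hp : p ∉ B) (hq : q ∉ B) :
    br (br d (U B q)) (U B p) =
      br (pi p) (U B q) + br (pi q) (U B p) + U B q * d * br (pi q) (U B p) +
        U B p * d * br (pi p) (U B q) := by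
  have two := H.two
  revert hp hq
  induction B using Finset.induction_on with
  | empty =>
    intro _ _
    rw [H.U0, H.U0]
    exact h2 p q hpq
  | insert b B hb ih =>
    intro hp hq
    have hp' : p ∉ B := fun h => hp (Finset.mem_insert_of_mem h)
    have hq' : q ∉ B := fun h => hq (Finset.mem_insert_of_mem h)
    have hpb : p ≠ b := fun h => hp (by rw [h]; exact Finset.mem_insert_self b _)
    have hqb : q ≠ b := fun h => hq (by rw [h]; exact Finset.mem_insert_self b _)
    have hih := ih hp' hq'
    have c1 := claim1 H h3 b q (insert b B) (Finset.mem_insert_self b B) hq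
    have c2 := claim1 H h3 b p (insert b B) (Finset.mem_insert_self b B) hp
    have c3 := claim1 H h3 b q (insert p (insert b B)) (Finset.mem_insert_of_mem (Finset.mem_insert_self b B)) (by
      intro h
      rcases Finset.mem_insert.mp h with h | h
      · exact hpq h.symm
      · exact hq h)
    have c4 := claim1 H h3 b p (insert q (insert b B)) (Finset.mem_insert_of_mem (Finset.mem_insert_self b B)) (by
      intro h
      rcases Finset.mem_insert.mp h with h | h
      · exact hpq h
      · exact hp h)
    rw [H.U1 _ p q hp, kpe two] at c3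
    rw [H.U1 _ q p hq, kpe two] at c4
    have k1 := H.cl h1 B b p q hb
    have k2 := H.cl h1 B b q p hb
    have uq : U (insert b B) q = kp pi b (U B q) := H.U1 B b q hb
    have up : U (insert b B) p = kp pi b (U B p) := H.U1 B b p hb
    have mq := mU H q b B
    have mp := mU H p b B
    have sq := H.pp b
    have cq := Upi H q B
    have cq' := piU H q B
    have cp := Upi H p B
    have cp' := piU H p B
    have cq0 := Upi H q (insert b B)
    have cq0' := piU H q (insert b B)
    have cp0 := Upi H p (insert b B)
    have cp0' := piU H p (insert b B)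
    have n1 := mU H q p B
    have n2 := mU H p q B
    have n3 := mU H q p (insert b B)
    have n4 := mU H p q (insert b B)
    have hbp := H.pc b p
    have hbq := H.pc b q
    have com1 := Ucomm H q b (insert b B) (Finset.mem_insert_self b B)
    have com2 := Ucomm H p b (insert b B) (Finset.mem_insert_self b B)
    have hd := H.hd b
    have md := H.md b
    have pL := A1.piL H b
    have Lp := A1.Lpi H b
    have pY := A1.piY H b
    have Yp := A1.Ypi H b
    have uq' : mv pi b (U B q) = pi b * U B q + U B q * pi b := mve two b _ mq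
    have up' : mv pi b (U B p) = pi b * U B p + U B p * pi b := mve two b _ mp
    rw [kpe two] at uq up
    have fr : ∀ r, pi b * r = r * pi b → (1 + pi b) * r = r * (1 + pi b) := by
      intro r hr
      rw [add_mul, mul_add, one_mul, mul_one, hr]
    have ff : (1 + pi b) * (1 + pi b) = 1 + pi b := by
      linear_combination (norm := skip) sq
      simp only [sba two, mul_add, add_mul, mul_assoc, one_mul, mul_one, add_zero, zero_add]
      abel_nf
      try simp only [c2z two, c4z two, add_zero, zero_add]
    have ef : pi b * (1 + pi b) = 0 := by rw [mul_add, mul_one, sq, two]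
    have fe : (1 + pi b) * pi b = 0 := by rw [add_mul, one_mul, sq, two]
    have eu : ∀ X, pi b * mv pi b X = 0 := by
      intro X
      unfold mv
      rw [← mul_assoc, ← mul_assoc, ef, zero_mul, zero_mul]
    have fu : ∀ X, (1 + pi b) * mv pi b X = mv pi b X * pi b := by
      intro X
      unfold mv
      rw [← mul_assoc, ← mul_assoc, ff, mul_assoc _ (pi b) (pi b), sq]
    have ed : pi b * (d + (L b + Y b)) = (d + (L b + Y b)) * pi b := by
      linear_combination (norm := skip) hd + pL + Lp + pY + Yp
      simp only [sba two, mul_add, add_mul, mul_assoc, one_mul, mul_one, add_zero, zero_add]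
      abel_nf
      try simp only [c2z two, c4z two, add_zero, zero_add]
    have e1 : d + (L b + Y b) + (L b + Y b) = d := by rw [add_assoc, two, add_zero]
    rw [← e1]
    refine cl2 two (e := pi b) (f := 1 + pi b) (d0 := d + (L b + Y b)) (l := L b + Y b)
      (u0 := U (insert b B) q) (u' := mv pi b (U B q)) (v0 := U (insert b B) p) (v' := mv pi b (U B p))
      (a0 := br (pi p) (U (insert b B) q)) (a' := br (pi p) (mv pi b (U B q)))
      (b0 := br (pi q) (U (insert b B) p)) (b' := br (pi q) (mv pi b (U B p)))
      (by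
        have := two (pi b)
        linear_combination (norm := skip) this
        simp only [sba two, mul_add, add_mul, mul_assoc, one_mul, mul_one, add_zero, zero_add]
        abel_nf
        try simp only [c2z two, c4z two, add_zero, zero_add]) sq ff ef fe ed (fr _ ed)
      (by rw [mul_add, pL, pY, mul_add, mul_one, add_mul, Lp, Yp, add_zero, add_zero])
      (by rw [add_mul, one_mul, mul_add, pL, pY, two]) com1.symm (fr _ com1.symm) com2.symm
      (fr _ com2.symm) (brpi hbp com1.symm) (brpi (fr _ hbp) (fr _ com1.symm)) (brpi hbq com2.symm)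
      (brpi (fr _ hbq) (fr _ com2.symm)) (eu _) (fu _) (eu _) (fu _) (brpi0 hbp (eu _))
      (brpi1 (fr _ hbp) hbp (fu _)) (brpi0 hbq (eu _)) (brpi1 (fr _ hbq) hbq (fu _)) ?_ ?_ ?_ ?_ ?_ ?_ ?_
      ?_ ?_ ?_ ?_ ?_
    · have e2 : ∀ c X : A, X + c + c = X := by
        intro c X
        rw [add_assoc, two, add_zero]
      have e3 : U (insert b B) q + mv pi b (U B q) = U B q := by rw [uq', uq, e2]
      have e4 : U (insert b B) p + mv pi b (U B p) = U B p := by rw [up', up, e2]
      have e5 : br (pi p) (U (insert b B) q) + br (pi p) (mv pi b (U B q)) = br (pi p) (U B q) := by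
        conv_rhs => rw [← e3]
        unfold br
        rw [mul_add, add_mul]
        abel
      have e6 : br (pi q) (U (insert b B) p) + br (pi q) (mv pi b (U B p)) = br (pi q) (U B p) := by
        conv_rhs => rw [← e4]
        unfold br
        rw [mul_add, add_mul]
        abel
      rw [e1, e3, e4, e5, e6]
      exact hih
    · rw [add_mul, mul_add, c1.1, c1.2]
    · rw [add_mul, mul_add, c2.1, c2.2]
    · obtain ⟨x1, x2⟩ := c3
      obtain ⟨y1, y2⟩ := c1
      unfold br
      linear_combination (norm := skip) x1 + x2 + y1 + y2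
      simp only [sba two, mul_add, add_mul, mul_assoc, one_mul, mul_one, add_zero, zero_add]
      abel_nf
      try simp only [c2z two, c4z two, add_zero, zero_add]
    · obtain ⟨x1, x2⟩ := c4
      obtain ⟨y1, y2⟩ := c2
      unfold br
      linear_combination (norm := skip) x1 + x2 + y1 + y2
      simp only [sba two, mul_add, add_mul, mul_assoc, one_mul, mul_one, add_zero, zero_add]
      abel_nf
      try simp only [c2z two, c4z two, add_zero, zero_add]
    · exact k1
    · exact brz two cq0 n4
    · exact brz two cp0 n3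
    · refine brz two ?_ n4
      unfold mv
      rw [mul_assoc, hbq, ← mul_assoc, mul_assoc _ (U B q), cq]
    · refine brz two cq0 ?_
      unfold mv
      linear_combination (norm := skip) (1 + pi b) * n2 * pi b + hbq * U B p * pi b + hbq * U B p * pi b * pi q +
        (1 + pi b) * pi q * U B p * hbq
      simp only [sba two, mul_add, add_mul, mul_assoc, one_mul, mul_one, add_zero, zero_add]
      abel_nf
      try simp only [c2z two, c4z two, add_zero, zero_add]
    · refine brz two ?_ n3
      unfold mv
      rw [mul_assoc, hbp, ← mul_assoc, mul_assoc _ (U B p), cp]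
    · refine brz two cp0 ?_
      unfold mv
      linear_combination (norm := skip) (1 + pi b) * n1 * pi b + hbp * U B q * pi b + hbp * U B q * pi b * pi p +
        (1 + pi b) * pi p * U B q * hbp
      simp only [sba two, mul_add, add_mul, mul_assoc, one_mul, mul_one, add_zero, zero_add]
      abel_nf
      try simp only [c2z two, c4z two, add_zero, zero_add]

theorem alg2 : S_ALG2 := by
  intro A _ P _ pi L Y T sig d D Y0 U H h1 h2 h3
  refine ⟨fun B b q hb hq => ?_, fun B p q hp hq hpq => claim2 H h1 h2 h3 p q hpq B hp hq⟩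
  obtain ⟨a1, a2⟩ := claim1 H h3 b q B hb hq
  exact ⟨zeq H.two a1, zeq H.two a2⟩

end two

end Pool.Agent.Y465.SZ.A2
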