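import Pool.Agent.Y465.SZ.Alg2

set_option linter.unusedSimpArgs false
set_option linter.unusedVariables false
set_option linter.unusedSectionVars false

namespace Pool.Agent.Y465.SZ.A3

open A1 (c4z c2z c6z sba eqz zeq prP piL Lpi)
open A2 (Uind Upi piU mU kp_left kp_right kpe brz Ucomm)

variable {A : Type} [Ring A] {P : Type} [DecidableEq P] {pi L Y T : P → A} {sig : P → P → A} {d D Y0 : A}
  {U : Finset P → P → A}

/-- the product of the `1 + [d, U B p]` -/
def RR (d : A) (U : Finset P → P → A) : Finset P → List P → A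
  | _, [] => 1
  | B, p :: l => (1 + (d * U B p + U B p * d)) * RR d U (insert p B) l

theorem ddpi (H : AlgH pi L Y T sig d D Y0 U) (j : P) : (d * d) * pi j = pi j * (d * d) := by
  have two := H.two
  have h1 := H.hd j
  have h2 := H.cdL j
  have h3 := H.cdY j
  linear_combination (norm := skip) d * h1 + h1 * d + h2 + h3
  simp only [sba two, mul_add, add_mul, mul_assoc, one_mul, mul_one, mul_zero, zero_mul, add_zero, zero_add]
  abel_nf
  try simp only [c2z two, c4z two, c6z two, add_zero, zero_add]

theorem ddL (H : AlgH pi L Y T sig d D Y0 U) (j : P) : (d * d) * L j = L j * (d * d) := by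
  rw [mul_assoc, H.cdL j, ← mul_assoc, H.cdL j, mul_assoc]

theorem ddT (H : AlgH pi L Y T sig d D Y0 U) (j : P) : (d * d) * T j = T j * (d * d) :=
  (prP (H.LT j) (H.TL j) (H.Tp j) (H.pT j) (ddpi H j) (ddL H j)).symm

theorem ddU (H : AlgH pi L Y T sig d D Y0 U) (q : P) (B : Finset P) : (d * d) * U B q = U B q * (d * d) := by
  apply Uind H q (fun X => (d * d) * X = X * (d * d)) (ddT H q)
  intro b X hX
  show (d * d) * kp pi b X = kp pi b X * (d * d)
  rw [← kp_left (ddpi H b), ← kp_right (ddpi H b), hX]

theorem RR_eq (H : AlgH pi L Y T sig d D Y0 U) (l : List P) : ∀ B, RR d U B l = 1 + br d (NN d U B l) := by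
  have two := H.two
  induction l with
  | nil =>
    intro B
    simp [RR, NN, br]
  | cons p l ih =>
    intro B
    rw [RR, NN, ih]
    have h := ddU H p B
    unfold br
    linear_combination (norm := skip) h * NN d U (insert p B) l
    simp only [sba two, mul_add, add_mul, mul_assoc, one_mul, mul_one, mul_zero, zero_mul, add_zero, zero_add]
    abel_nf
    try simp only [c2z two, c4z two, c6z two, add_zero, zero_add]

theorem swap (H : AlgH pi L Y T sig d D Y0 U)
    (h2 : ∀ B p q, p ∉ B → q ∉ B → p ≠ q → br (br d (U B q)) (U B p) =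
      br (pi p) (U B q) + br (pi q) (U B p) + U B q * d * br (pi q) (U B p) +
        U B p * d * br (pi p) (U B q)) (B : Finset P) (p q : P) (hp : p ∉ B) (hq : q ∉ B) (hpq : p ≠ q) :
    (1 + (d * U B p + U B p * d)) * (1 + (d * U (insert p B) q + U (insert p B) q * d)) =
      (1 + (d * U B q + U B q * d)) * (1 + (d * U (insert q B) p + U (insert q B) p * d)) := by
  have two := H.two
  have h := h2 B p q hp hq hpq
  rw [H.U1 B p q hp, H.U1 B q p hq, kpe two, kpe two]
  have f1 : U B q * br (pi q) (U B p) = 0 := brz two (Upi H q B) (mU H p q B)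
  have f2 : U B p * br (pi p) (U B q) = 0 := brz two (Upi H p B) (mU H q p B)
  have g1 := ddU H q B
  have g2 := ddU H p B
  have k1 : d * br (pi p) (U B q) = d * (pi p * U B q + U B q * pi p) := rfl
  obtain ⟨u1, hu1⟩ : ∃ x, x = br (pi p) (U B q) := ⟨_, rfl⟩
  obtain ⟨v1, hv1⟩ : ∃ x, x = br (pi q) (U B p) := ⟨_, rfl⟩
  have hu : pi p * U B q + U B q * pi p = u1 := by rw [hu1]; rfl
  have hv : pi q * U B p + U B p * pi q = v1 := by rw [hv1]; rfl
  rw [← hu1, ← hv1] at h
  rw [← hv1] at f1
  rw [← hu1] at f2
  rw [hu, hv]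
  unfold br at h
  generalize U B q = u at *
  generalize U B p = v at *
  -- `u * d * d * v1 = 0`
  have z1 : u * (d * d) * v1 = 0 := by rw [← g1, mul_assoc, f1, mul_zero]
  have z2 : v * (d * d) * u1 = 0 := by rw [← g2, mul_assoc, f2, mul_zero]
  linear_combination (norm := skip) d * h + h * d + d * f1 * d + d * f2 * d + z1 + z2 + v * g1 + g1 * v
  simp only [sba two, mul_add, add_mul, mul_assoc, one_mul, mul_one, mul_zero, zero_mul, add_zero, zero_add]
  abel_nf
  try simp only [c2z two, c4z two, c6z two, add_zero, zero_add]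


theorem RR_move (H : AlgH pi L Y T sig d D Y0 U)
    (h2 : ∀ B p q, p ∉ B → q ∉ B → p ≠ q → br (br d (U B q)) (U B p) =
      br (pi p) (U B q) + br (pi q) (U B p) + U B q * d * br (pi q) (U B p) +
        U B p * d * br (pi p) (U B q)) (j : P) (l2 : List P) (l1 : List P) :
    ∀ B : Finset P, (j :: l1).Nodup → (∀ x ∈ j :: l1, x ∉ B) →
      RR d U B (l1 ++ j :: l2) = RR d U B (j :: (l1 ++ l2)) := by
  induction l1 with
  | nil => intro B _ _; rfl
  | cons p l1 ih =>
    intro B hn hB
    have hn' := List.nodup_cons.mp hn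
    have hn'' := List.nodup_cons.mp hn'.2
    have hjp : p ≠ j := fun h => hn'.1 (by rw [h]; exact List.mem_cons_self)
    have hj : j ∉ B := hB j List.mem_cons_self
    have hp : p ∉ B := hB p (List.mem_cons_of_mem _ List.mem_cons_self)
    have e1 : (p :: l1) ++ j :: l2 = p :: (l1 ++ j :: l2) := rfl
    have e2 : j :: ((p :: l1) ++ l2) = j :: p :: (l1 ++ l2) := rfl
    have e3 : RR d U (insert p B) (l1 ++ j :: l2) = RR d U (insert p B) (j :: (l1 ++ l2)) := by
      apply ih
      · rw [List.nodup_cons]
        exact ⟨fun h => hn'.1 (List.mem_cons_of_mem _ h), hn''.2⟩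
      · intro x hx hxB
        rcases Finset.mem_insert.mp hxB with h | h
        · subst h
          rcases List.mem_cons.mp hx with h | h
          · exact hjp h
          · exact hn''.1 h
        · rcases List.mem_cons.mp hx with h' | h'
          · exact hj (h' ▸ h)
          · exact hB x (List.mem_cons_of_mem _ (List.mem_cons_of_mem _ h')) h
    rw [e1, e2, RR, RR, RR, e3, RR, ← mul_assoc, ← mul_assoc, swap H h2 B p j hp hj hjp,
      Finset.insert_comm]

theorem comm_RR (H : AlgH pi L Y T sig d D Y0 U)
    (h1 : ∀ B b q, b ∈ B → q ∉ B → br (L b) (U B q) = 0 ∧ br (Y b) (U B q) = 0) (b : P) (l : List P) :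
    ∀ B : Finset P, b ∈ B → l.Nodup → (∀ x ∈ l, x ∉ B) →
      L b * RR d U B l = RR d U B l * L b ∧ L b * NN d U B l = NN d U B l * L b := by
  have two := H.two
  induction l with
  | nil =>
    intro B _ _ _
    simp [RR, NN]
  | cons p l ih =>
    intro B hb hn hB
    have hn' := List.nodup_cons.mp hn
    obtain ⟨i1, i2⟩ := ih (insert p B) (Finset.mem_insert_of_mem hb) hn'.2 (by
      intro x hx hxB
      rcases Finset.mem_insert.mp hxB with h | h
      · subst h
        exact hn'.1 hx
      · exact hB x (List.mem_cons_of_mem _ hx) h)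
    have a1 := (h1 B b p hb (hB p List.mem_cons_self)).1
    have a2 := H.cdL b
    rw [RR, NN]
    unfold br at a1
    have a3 : L b * (1 + (d * U B p + U B p * d)) = (1 + (d * U B p + U B p * d)) * L b := by
      linear_combination (norm := skip) a1 * d + d * a1 + a2 * U B p + U B p * a2
      simp only [sba two, mul_add, add_mul, mul_assoc, one_mul, mul_one, mul_zero, zero_mul, add_zero, zero_add]
      abel_nf
      try simp only [c2z two, c4z two, c6z two, add_zero, zero_add]
    constructor
    · rw [← mul_assoc, a3, mul_assoc, i1, ← mul_assoc]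
    · rw [mul_add, ← mul_assoc, a3, mul_assoc, i2, ← mul_assoc, eqz two a1, ← add_mul]

theorem alg3 : S_ALG3 := by
  intro A _ P _ pi L Y T sig d D Y0 U H h1 h2 p l hn
  have two := H.two
  have hLT : ∀ j, L j * T j + T j * L j = 1 := by
    intro j
    rw [H.LT, H.TL]
    have := two (pi j)
    linear_combination (norm := skip) this
    simp only [sba two, mul_add, add_mul, mul_assoc, one_mul, mul_one, mul_zero, zero_mul, add_zero, zero_add]
    abel_nf
    try simp only [c2z two, c4z two, c6z two, add_zero, zero_add]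
  have hr : ∀ j, L j * (1 + (d * U ∅ j + U ∅ j * d)) = (1 + (d * U ∅ j + U ∅ j * d)) * L j := by
    intro j
    rw [H.U0]
    have a1 := hLT j
    have a2 := H.cdL j
    linear_combination (norm := skip) a1 * d + d * a1 + a2 * T j + T j * a2
    simp only [sba two, mul_add, add_mul, mul_assoc, one_mul, mul_one, mul_zero, zero_mul, add_zero, zero_add]
    abel_nf
    try simp only [c2z two, c4z two, c6z two, add_zero, zero_add]
  have hn' := List.nodup_cons.mp hn
  have hins : ∀ j : P, insert j (∅ : Finset P) = {j} := fun j => rfl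
  constructor
  · -- (g)
    have hc := (comm_RR H h1 p l {p} (Finset.mem_singleton_self p) hn'.2 (by
      intro x hx hxp
      rw [Finset.mem_singleton] at hxp
      subst hxp
      exact hn'.1 hx)).2
    rw [NN, hins]
    have a1 := hr p
    have a2 := hLT p
    rw [← H.U0 p] at a2
    unfold br
    generalize NN d U {p} l = n at *
    linear_combination (norm := skip) a2 + a1 * n + (1 + (d * U ∅ p + U ∅ p * d)) * hc
    simp only [sba two, mul_add, add_mul, mul_assoc, one_mul, mul_one, mul_zero, zero_mul, add_zero, zero_add]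
    abel_nf
    try simp only [c2z two, c4z two, c6z two, add_zero, zero_add]
  · intro j hj
    have hR : L j * RR d U ∅ (p :: l) = RR d U ∅ (p :: l) * L j := by
      obtain ⟨l1, l2, hl⟩ := List.append_of_mem hj
      rw [hl] at hn ⊢
      have hn2 := (List.perm_middle (a := j) (l₁ := l1) (l₂ := l2)).nodup_iff.mp hn
      have hn3 := List.nodup_cons.mp hn2
      rw [RR_move H h2 j l2 l1 ∅ (by
        rw [List.nodup_cons]
        exact ⟨fun h => hn3.1 (List.mem_append_left _ h), (List.nodup_append.mp hn3.2).1⟩) (by simp)]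
      rw [RR, hins]
      have hc := (comm_RR H h1 j (l1 ++ l2) {j} (Finset.mem_singleton_self j) hn3.2 (by
        intro x hx hxp
        rw [Finset.mem_singleton] at hxp
        subst hxp
        exact hn3.1 hx)).1
      rw [← mul_assoc, hr j, mul_assoc, hc, ← mul_assoc]
    rw [RR_eq H] at hR
    unfold br at hR ⊢
    linear_combination (norm := skip) hR
    simp only [sba two, mul_add, add_mul, mul_assoc, one_mul, mul_one, mul_zero, zero_mul, add_zero, zero_add]
    abel_nf
    try simp only [c2z two, c4z two, c6z two, add_zero, zero_add]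

end Pool.Agent.Y465.SZ.A3
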