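import Pool.Agent.Y465.SZ.Asm4
import Pool.Agent.Y465.SZ.Alg1
import Pool.Agent.Y465.SZ.Alg2
import Pool.Agent.Y465.SZ.Alg3
import Pool.Agent.Y43.SZ.Top
import Pool.Agent.Y43.SZ.Ori
import Pool.Agent.Y43.SZ.Deg
import Pool.Agent.Y43.SZ.Lcj
import Pool.Agent.Y43.SZ.Lyc
import Pool.Agent.Y43.SZ.Bal
import Pool.Agent.Y282.SZ.WTF
import Pool.Agent.Y282.SZ.TQ
import Pool.Agent.Y282.SZ.P2A
import Pool.Agent.Y282.SZ.ETY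
import Pool.Agent.Y282.SZ.CL
import Pool.Agent.Y284.SZ.GAM
import Pool.Agent.Y284.SZ.P2B
import Pool.Agent.Y284.SZ.JOR
import Pool.Agent.Y71.SZ.DCJ
import Pool.Agent.Y71.SZ.RIG
import Pool.Agent.Y71.SZ.CTY
import Pool.Agent.Y658.SZ.PAG
import Pool.Agent.Y970.SZ.Eul

/-!
Project Y465-SZ: all jobs together.
-/

namespace Pool.Agent.Y465.SZ

theorem all : S_FINAL :=
  final Pool.Agent.Y43.SZ.ori Pool.Agent.Y43.SZ.osg Pool.Agent.Y43.SZ.joi Pool.Agent.Y43.SZ.cnt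
    Pool.Agent.Y282.SZ.wtf Pool.Agent.Y43.SZ.degt Pool.Agent.Y43.SZ.lcj Pool.Agent.Y43.SZ.lyc
    Pool.Agent.Y284.SZ.gam Pool.Agent.Y71.SZ.dcj Pool.Agent.Y43.SZ.bal Pool.Agent.Y282.SZ.P2A.p2a
    Pool.Agent.Y284.SZ.P2B.p2b Pool.Agent.Y282.SZ.TQ.tq Pool.Agent.Y282.SZ.CL.cl Pool.Agent.Y71.SZ.Rig.rig
    A1.alg1 A2.alg2 A3.alg3 Pool.Agent.Y658.SZ.pag Pool.Agent.Y282.SZ.ETY.ety Pool.Agent.Y71.SZ.Cty.cty
    Pool.Agent.Y284.SZ.JOR.jor Pool.Agent.Y970.SZ.eul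

end Pool.Agent.Y465.SZ
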