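import Pool.Agent.Y465.SZ.Stm

/-!
Project Y465-SZ, assembly 1: `D = L_0 + delta` commutes with all `L_j`.
-/

set_option linter.unusedSectionVars false

namespace Pool.Agent.Y465.SZ

variable {E : Type} [Fintype E] [DecidableEq E] {mate : E × Fin 4 → E × Fin 4}

/-- `D = L_0 + delta` -/
noncomputable def DD (mate : E × Fin 4 → E × Fin 4) (col : E × Fin 4 → Bool) (s : Bool)
    (t : E → Bool) : Op mate := L0 t + dl col s t

theorem op_add_self (M : Op mate) : M + M = 0 := by
  ext y x
  simp only [Matrix.add_apply, Matrix.zero_apply]
  exact CharTwo.add_self_eq_zero _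

theorem ue_ne_zero {e : E} {x y : Cfg mate} (h : (ue e : Op mate) y x ≠ 0) :
    e ∉ x.K ∧ y.K = insert e x.K ∧ y.f = x.f ∧ y.w = x.w := ind_ne_zero h

theorem ue_sq (e : E) : (ue e : Op mate) * ue e = 0 := by
  ext y x
  rw [Matrix.mul_apply, Matrix.zero_apply]
  apply Finset.sum_eq_zero
  intro z _
  by_cases h1 : (ue e : Op mate) y z = 0
  · rw [h1, zero_mul]
  · by_cases h2 : (ue e : Op mate) z x = 0
    · rw [h2, mul_zero]
    · obtain ⟨a, b, _, _⟩ := ue_ne_zero h1
      obtain ⟨_, c, _, _⟩ := ue_ne_zero h2
      exfalso
      apply a
      rw [c]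
      exact Finset.mem_insert_self _ _

theorem one_add_ue_sq (e : E) : (1 + (ue e : Op mate)) * (1 + ue e) = 1 := by
  have h := ue_sq (mate := mate) e
  have h2 := op_add_self (ue e : Op mate)
  calc (1 + (ue e : Op mate)) * (1 + ue e) = 1 + (ue e + ue e) + ue e * ue e := by noncomm_ring
    _ = 1 := by rw [h, h2]; simp

/-- the square of `D` after a decoration change -/
theorem dd_conj {col : E × Fin 4 → Bool} {s : Bool}
    (hL : ∀ (t : E → Bool) (e : E), (L0 (ft t e) : Op mate) = (1 + ue e) * L0 t * (1 + ue e))
    (hd : ∀ (t : E → Bool) (e : E),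
      (dl col s (ft t e) : Op mate) = (1 + ue e) * dl col s t * (1 + ue e))
    (t : E → Bool) (e : E) :
    DD mate col s (ft t e) * DD mate col s (ft t e) =
      DD mate col s t * DD mate col s t + ue e * (DD mate col s t * DD mate col s t) +
      (DD mate col s t * DD mate col s t) * ue e +
      ue e * (DD mate col s t * DD mate col s t) * ue e := by
  have h1 : DD mate col s (ft t e) = (1 + ue e) * DD mate col s t * (1 + ue e) := by
    unfold DD
    rw [hL, hd]
    noncomm_ring
  rw [h1]
  have h2 := one_add_ue_sq (mate := mate) e
  calc (1 + ue e) * DD mate col s t * (1 + ue e) * ((1 + ue e) * DD mate col s t * (1 + ue e))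
      = (1 + ue e) * DD mate col s t * ((1 + (ue e : Op mate)) * (1 + ue e)) *
          DD mate col s t * (1 + ue e) := by noncomm_ring
    _ = (1 + ue e) * (DD mate col s t * DD mate col s t) * (1 + ue e) := by
        rw [h2]; noncomm_ring
    _ = _ := by noncomm_ring

theorem mul_ue_zero {M : Op mate} {e : E} {x y : Cfg mate}
    (h : ∀ z : Cfg mate, e ∉ x.K → z.K = insert e x.K → z.f = x.f → M y z = 0) :
    (M * ue e : Op mate) y x = 0 := by
  rw [Matrix.mul_apply]
  apply Finset.sum_eq_zero
  intro z _
  by_cases h2 : (ue e : Op mate) z x = 0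
  · rw [h2, mul_zero]
  · obtain ⟨a, b, c, _⟩ := ue_ne_zero h2
    rw [h z a b c, zero_mul]

theorem ue_mul_zero {M : Op mate} {e : E} {x y : Cfg mate}
    (h : ∀ z : Cfg mate, e ∉ z.K → y.K = insert e z.K → y.f = z.f → M z x = 0) :
    (ue e * M : Op mate) y x = 0 := by
  rw [Matrix.mul_apply]
  apply Finset.sum_eq_zero
  intro z _
  by_cases h2 : (ue e : Op mate) y z = 0
  · rw [h2, zero_mul]
  · obtain ⟨a, b, c, _⟩ := ue_ne_zero h2
    rw [h z a b c, mul_zero]

/-- the square of `D` preserves all labels -/
theorem dd_sq_zero {col : E × Fin 4 → Bool} {s : Bool}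
    (hL : ∀ (t : E → Bool) (e : E), (L0 (ft t e) : Op mate) = (1 + ue e) * L0 t * (1 + ue e))
    (hd' : ∀ (t : E → Bool) (e : E),
      (dl col s (ft t e) : Op mate) = (1 + ue e) * dl col s t * (1 + ue e))
    (hA : ∀ (t : E → Bool) (x y : Cfg mate), x.f ≠ y.f →
      (∀ e ∈ y.K \ x.K, ¬ (x.f (hd t e) = false ∧ y.f (hd t e) = true ∧
        x.f (tl t e) = y.f (tl t e))) →
      (∃ e ∈ y.K \ x.K, ¬ (x.f (e, 0) = false ∧ y.f (e, 0) = true ∧ x.f (e, 2) = false ∧
        y.f (e, 2) = true)) →
      (DD mate col s t * DD mate col s t) y x = 0)
    (hB : ∀ (t : E → Bool) (x y : Cfg mate), x.f ≠ y.f →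
      (∀ e ∈ y.K \ x.K, x.f (e, 0) = false ∧ y.f (e, 0) = true ∧ x.f (e, 2) = false ∧
        y.f (e, 2) = true) →
      (DD mate col s t * DD mate col s t) y x = 0) :
    ∀ (n : ℕ) (t : E → Bool) (x y : Cfg mate), (y.K \ x.K).card = n → x.f ≠ y.f →
      (DD mate col s t * DD mate col s t) y x = 0 := by
  intro n
  induction n using Nat.strong_induction_on with
  | _ n IH =>
    intro t x y hn hxy
    -- invariance under flips in `S`
    have inv1 : ∀ (t : E → Bool) (e : E), e ∈ y.K \ x.K →
        (DD mate col s (ft t e) * DD mate col s (ft t e)) y x =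
          (DD mate col s t * DD mate col s t) y x := by
      intro t e he
      have he' := Finset.mem_sdiff.1 he
      rw [dd_conj hL hd' t e]
      simp only [Matrix.add_apply]
      have hcard1 : ∀ z : Cfg mate, e ∉ z.K → y.K = insert e z.K → (z.K \ x.K).card < n := by
        intro z hz hy
        rw [← hn]
        apply Finset.card_lt_card
        rw [Finset.ssubset_iff_of_subset]
        · refine ⟨e, he, ?_⟩
          simp [hz]
        · rw [hy]
          exact Finset.sdiff_subset_sdiff (Finset.subset_insert _ _) (le_refl _)
      have hcard2 : ∀ z : Cfg mate, z.K = insert e x.K → (y.K \ z.K).card < n := by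
        intro z hz
        rw [← hn]
        apply Finset.card_lt_card
        rw [Finset.ssubset_iff_of_subset]
        · refine ⟨e, he, ?_⟩
          simp [hz]
        · rw [hz]
          exact Finset.sdiff_subset_sdiff (le_refl _) (Finset.subset_insert _ _)
      have h1 : (ue e * (DD mate col s t * DD mate col s t) : Op mate) y x = 0 := by
        apply ue_mul_zero
        intro z hz hy hf
        exact IH _ (hcard1 z hz hy) t x z rfl (by rw [← hf]; exact hxy)
      have h2 : ((DD mate col s t * DD mate col s t) * ue e : Op mate) y x = 0 := by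
        apply mul_ue_zero
        intro z _ hz hf
        exact IH _ (hcard2 z hz) t z y rfl (by rw [hf]; exact hxy)
      have h3 : (ue e * (DD mate col s t * DD mate col s t) * ue e : Op mate) y x = 0 := by
        apply mul_ue_zero
        intro z _ hz hf
        apply ue_mul_zero
        intro z' hz' hy hf'
        refine IH _ ?_ t z z' rfl (by rw [hf, ← hf']; exact hxy)
        refine lt_of_le_of_lt ?_ (hcard1 z' hz' hy)
        apply Finset.card_le_card
        rw [hz]
        exact Finset.sdiff_subset_sdiff (le_refl _) (Finset.subset_insert _ _)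
      rw [h1, h2, h3]
      simp
    have inv2 : ∀ (F : Finset E), F ⊆ y.K \ x.K → ∀ t t' : E → Bool, (∀ e, e ∉ F → t e = t' e) →
        (DD mate col s t' * DD mate col s t') y x = (DD mate col s t * DD mate col s t) y x := by
      intro F
      induction F using Finset.induction_on with
      | empty =>
        intro _ t t' h
        have : t = t' := funext fun e => h e (Finset.notMem_empty _)
        rw [this]
      | insert e F he ih =>
        intro hF t t' h
        by_cases htt : t e = t' e
        · apply ih (fun a ha => hF (Finset.mem_insert_of_mem ha))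
          intro a ha
          by_cases hae : a = e
          · rw [hae]; exact htt
          · exact h a (by simp [hae, ha])
        · rw [← inv1 t e (hF (Finset.mem_insert_self _ _))]
          apply ih (fun a ha => hF (Finset.mem_insert_of_mem ha))
          intro a ha
          by_cases hae : a = e
          · subst hae
            unfold ft
            rw [Function.update_self]
            clear inv1 ih IH
            revert htt
            generalize t a = u
            generalize t' a = v
            revert u v
            decide
          · unfold ft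
            rw [Function.update_of_ne hae]
            exact h a (by simp [hae, ha])
    -- the convenient decoration
    let z : E × Fin 4 → Bool := fun h => y.f h && !x.f h
    let t' : E → Bool := fun e => if e ∈ y.K \ x.K then
      (if z (e, 2) = true ∧ z (e, 0) = false then false
        else if z (e, 0) = true ∧ z (e, 2) = false then true else t e) else t e
    rw [← inv2 (y.K \ x.K) (le_refl _) t t' (by
      intro e he
      simp only [t']
      rw [if_neg he])]
    by_cases hfull : ∀ e ∈ y.K \ x.K, x.f (e, 0) = false ∧ y.f (e, 0) = true ∧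
        x.f (e, 2) = false ∧ y.f (e, 2) = true
    · exact hB t' x y hxy hfull
    · apply hA t' x y hxy
      · rintro e he ⟨h1, h2, h3⟩
        have ht' : t' e = (if z (e, 2) = true ∧ z (e, 0) = false then false
            else if z (e, 0) = true ∧ z (e, 2) = false then true else t e) := by
          simp only [t']
          rw [if_pos he]
        clear inv1 inv2 IH hA hB hL hd'
        have key : ∀ b : Bool, t' e = b →
            x.f (e, if b then 2 else 0) = false ∧ y.f (e, if b then 2 else 0) = true ∧
              x.f (e, if !b then 2 else 0) = y.f (e, if !b then 2 else 0) := by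
          intro b hb
          rw [← hb]
          exact ⟨h1, h2, h3⟩
        by_cases c1 : z (e, 2) = true ∧ z (e, 0) = false
        · rw [if_pos c1] at ht'
          obtain ⟨k1, k2, _⟩ := key false ht'
          have : z (e, 0) = true := by
            simp only [z]
            simp only [Bool.false_eq_true, if_false] at k1 k2
            rw [k1, k2]
            rfl
          rw [c1.2] at this
          exact Bool.noConfusion this
        · rw [if_neg c1] at ht'
          by_cases c2 : z (e, 0) = true ∧ z (e, 2) = false
          · rw [if_pos c2] at ht'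
            obtain ⟨k1, k2, _⟩ := key true ht'
            have : z (e, 2) = true := by
              simp only [z]
              simp only [if_true] at k1 k2
              rw [k1, k2]
              rfl
            rw [c2.2] at this
            exact Bool.noConfusion this
          · cases hb : t' e
            · obtain ⟨k1, k2, k3⟩ := key false hb
              simp only [Bool.false_eq_true, if_false, Bool.not_false, if_true] at k1 k2 k3
              apply c2
              constructor
              · simp only [z]
                rw [k1, k2]
                rfl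
              · simp only [z]
                rw [k3]
                cases y.f (e, 2) <;> rfl
            · obtain ⟨k1, k2, k3⟩ := key true hb
              simp only [if_true, Bool.not_true, Bool.false_eq_true, if_false] at k1 k2 k3
              apply c1
              constructor
              · simp only [z]
                rw [k1, k2]
                rfl
              · simp only [z]
                rw [k3]
                cases y.f (e, 0) <;> rfl
      · by_contra hcon
        apply hfull
        intro e he
        by_contra h
        exact hcon ⟨e, he, h⟩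

/-- bracket with a projection -/
theorem pr_mul_apply (j : E × Fin 4) (M : Op mate) (x y : Cfg mate) :
    (pr j * M : Op mate) y x = if y.f j = true then M y x else 0 := by
  rw [Matrix.mul_apply, Finset.sum_eq_single y]
  · by_cases h : y.f j = true
    · rw [if_pos h]
      have : (pr j : Op mate) y y = 1 := ind_eq_one ⟨rfl, h⟩
      rw [this, one_mul]
    · rw [if_neg h]
      have : (pr j : Op mate) y y = 0 := ind_eq_zero fun hh => h hh.2
      rw [this, zero_mul]
  · intro z _ hz
    have : (pr j : Op mate) y z = 0 := ind_eq_zero fun hh => hz hh.1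
    rw [this, zero_mul]
  · intro h
    exact absurd (Finset.mem_univ _) h

theorem mul_pr_apply (j : E × Fin 4) (M : Op mate) (x y : Cfg mate) :
    (M * pr j : Op mate) y x = if x.f j = true then M y x else 0 := by
  rw [Matrix.mul_apply, Finset.sum_eq_single x]
  · by_cases h : x.f j = true
    · rw [if_pos h]
      have : (pr j : Op mate) x x = 1 := ind_eq_one ⟨rfl, h⟩
      rw [this, mul_one]
    · rw [if_neg h]
      have : (pr j : Op mate) x x = 0 := ind_eq_zero fun hh => h hh.2
      rw [this, mul_zero]
  · intro z _ hz
    have : (pr j : Op mate) z x = 0 := ind_eq_zero fun hh => hz hh.1.symm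
    rw [this, mul_zero]
  · intro h
    exact absurd (Finset.mem_univ _) h

theorem br_pr_apply (j : E × Fin 4) (M : Op mate) (x y : Cfg mate) :
    (M * pr j + pr j * M : Op mate) y x = if x.f j = y.f j then 0 else M y x := by
  rw [Matrix.add_apply, pr_mul_apply, mul_pr_apply]
  cases x.f j <;> cases y.f j <;> simp [CharTwo.add_self_eq_zero]

theorem L0_ne_zero {t : E → Bool} {x y : Cfg mate} (h : (L0 t : Op mate) y x ≠ 0) :
    LP t x y ∧ y.w = x.w + 2 := ind_ne_zero h

theorem LL_ne_zero {t : E → Bool} {j : E × Fin 4} {x y : Cfg mate}
    (h : (LL t j : Op mate) y x ≠ 0) :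
    (LP t x y ∧ y.w = x.w + 2) ∧ x.f j = false ∧ y.f j = true := ind_ne_zero h

theorem dl_label {col : E × Fin 4 → Bool} {s : Bool} {t : E → Bool} {x y : Cfg mate}
    (h : (dl col s t : Op mate) y x ≠ 0) :
    x.f = y.f ∧ x.K ⊆ y.K ∧ (y.K \ x.K).Nonempty ∧ y.w = x.w + 2 := (ind_ne_zero h).1

/-- `L_j` is the commutator of `L_0` with the projection -/
theorem LL_eq (t : E → Bool) (j : E × Fin 4) :
    (LL t j : Op mate) = L0 t * pr j + pr j * L0 t := by
  ext y x
  rw [br_pr_apply]
  by_cases h : x.f j = y.f j
  · rw [if_pos h]
    apply ind_eq_zero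
    rintro ⟨_, h1, h2⟩
    rw [h, h2] at h1
    exact Bool.noConfusion h1
  · rw [if_neg h]
    by_cases hL : LP t x y ∧ y.w = x.w + 2
    · have h1 : (L0 t : Op mate) y x = 1 := ind_eq_one hL
      rw [h1]
      apply ind_eq_one
      refine ⟨hL, ?_⟩
      have hm := hL.1.2.1 j
      cases hx : x.f j <;> cases hy : y.f j <;> simp_all
    · have h1 : (L0 t : Op mate) y x = 0 := ind_eq_zero hL
      rw [h1]
      apply ind_eq_zero
      exact fun hh => hL hh.1

theorem dl_comm_pr (col : E × Fin 4 → Bool) (s : Bool) (t : E → Bool) (j : E × Fin 4) :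
    (dl col s t : Op mate) * pr j + pr j * dl col s t = 0 := by
  ext y x
  rw [br_pr_apply, Matrix.zero_apply]
  by_cases h : x.f j = y.f j
  · rw [if_pos h]
  · rw [if_neg h]
    by_contra hn
    exact h (by rw [(dl_label hn).1])

theorem LL_eq' (col : E × Fin 4 → Bool) (s : Bool) (t : E → Bool) (j : E × Fin 4) :
    (LL t j : Op mate) = DD mate col s t * pr j + pr j * DD mate col s t := by
  have h1 := LL_eq (mate := mate) t j
  have h2 := dl_comm_pr (mate := mate) col s t j
  unfold DD
  calc (LL t j : Op mate) = (L0 t * pr j + pr j * L0 t) + 0 := by rw [h1, add_zero]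
    _ = (L0 t * pr j + pr j * L0 t) + (dl col s t * pr j + pr j * dl col s t) := by rw [h2]
    _ = _ := by noncomm_ring

/-- if the square preserves labels then `D` commutes with `L_j` -/
theorem dd_comm_LL {col : E × Fin 4 → Bool} {s : Bool} {t : E → Bool}
    (h : ∀ x y : Cfg mate, x.f ≠ y.f → (DD mate col s t * DD mate col s t) y x = 0)
    (j : E × Fin 4) : DD mate col s t * LL t j = LL t j * DD mate col s t := by
  set D := DD mate col s t with hD
  have h1 : D * D * pr j + pr j * (D * D) = 0 := by
    ext y x
    rw [br_pr_apply, Matrix.zero_apply]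
    by_cases hj : x.f j = y.f j
    · rw [if_pos hj]
    · rw [if_neg hj]
      exact h x y fun hh => hj (by rw [hh])
  have h2 := LL_eq' (mate := mate) col s t j
  rw [← hD] at h2
  have h3 := op_add_self (D * pr j * D)
  have h4 : D * LL t j + LL t j * D = 0 := by
    rw [h2]
    calc D * (D * pr j + pr j * D) + (D * pr j + pr j * D) * D
        = (D * D * pr j + pr j * (D * D)) + (D * pr j * D + D * pr j * D) := by noncomm_ring
      _ = 0 := by rw [h1, h3, add_zero]
  have h5 := op_add_self (LL t j * D)
  calc D * LL t j = D * LL t j + (LL t j * D + LL t j * D) := by rw [h5, add_zero]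
    _ = (D * LL t j + LL t j * D) + LL t j * D := by abel
    _ = LL t j * D := by rw [h4, zero_add]

end Pool.Agent.Y465.SZ
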