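import Pool.Agent.Y465.SZ.Asm1
import Pool.Agent.Y465.SZ.Alg

/-!
Project Y465-SZ, assembly 2: the structure `AlgH` for the operators of a planar diagram.
-/

set_option linter.unusedSectionVars false

namespace Pool.Agent.Y465.SZ

variable {E : Type} [Fintype E] [DecidableEq E] {mate : E × Fin 4 → E × Fin 4}

/-- the opposite decoration -/
abbrev op (t : E → Bool) : E → Bool := fun e => !t e

theorem op_op (t : E → Bool) : op (op t) = t := by
  funext e
  simp [op]

/-- the full differential, `d = L_0 + Y_0 + delta` -/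
noncomputable def dS (mate : E × Fin 4 → E × Fin 4) (col : E × Fin 4 → Bool) (s : Bool)
    (t : E → Bool) : Op mate := L0 t + L0 (op t) + dl col s t

theorem TA_op {A : Type} (R : A × Bool → A × Bool → Prop) (hR : ∀ p q, R p q → R q p)
    (t : A → Bool) (S : Finset A) : TA R (fun e => !t e) S ↔ TA R t S := by
  unfold TA
  simp only [Bool.not_not]
  constructor
  · rintro ⟨h1, h2⟩
    exact ⟨fun e he f hf => ⟨(h1 e he f hf).2, (h1 e he f hf).1⟩, fun e he h => h2 e he (hR _ _ h)⟩
  · rintro ⟨h1, h2⟩
    exact ⟨fun e he f hf => ⟨(h1 e he f hf).2, (h1 e he f hf).1⟩, fun e he h => h2 e he (hR _ _ h)⟩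

theorem TC_op_imp {A : Type} (s : Bool) (kind : A → Bool) (R : A × Bool → A × Bool → Prop)
    (hR : ∀ p q, R p q → R q p) (hT : ∀ p q r, R p q → R q r → R p r)
    (R1 : A → A × Bool → A × Bool → Prop) (t : A → Bool) (S : Finset A)
    (h : TC s kind R R1 t S) : TC s kind R R1 (fun e => !t e) S := by
  obtain ⟨h1, h2, h3, h4⟩ := h
  refine ⟨fun e he f hf => ?_, h2, h3, fun e he f hf hk => ?_⟩
  · simp only [Bool.not_not]
    have a := (h1 e he f hf).1
    have b := (h1 e he f hf).2
    have c := (h1 e he e he).2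
    exact ⟨hT _ _ _ (hR _ _ c) b, hT _ _ _ (hR _ _ c) a⟩
  · simp only [Bool.not_not]
    exact ⟨(h4 e he f hf hk).2, (h4 e he f hf hk).1⟩

theorem TC_op {A : Type} (s : Bool) (kind : A → Bool) (R : A × Bool → A × Bool → Prop)
    (hR : ∀ p q, R p q → R q p) (hT : ∀ p q r, R p q → R q r → R p r)
    (R1 : A → A × Bool → A × Bool → Prop) (t : A → Bool) (S : Finset A) :
    TC s kind R R1 (fun e => !t e) S ↔ TC s kind R R1 t S := by
  constructor
  · intro h
    have := TC_op_imp s kind R hR hT R1 _ S h
    simpa using this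
  · exact TC_op_imp s kind R hR hT R1 t S

theorem dl_op (col : E × Fin 4 → Bool) (s : Bool) (t : E → Bool) :
    (dl col s (op t) : Op mate) = dl col s t := by
  unfold dl
  congr 1
  funext x y
  have hs : ∀ K : Finset E, ∀ p q : E × Bool, Same mate K (pt p) (pt q) → Same mate K (pt q) (pt p) :=
    fun K p q h => h.symm
  have ht : ∀ K : Finset E, ∀ p q r : E × Bool, Same mate K (pt p) (pt q) →
      Same mate K (pt q) (pt r) → Same mate K (pt p) (pt r) := fun K p q r h h' => h.trans h'
  rw [TA_op _ (hs _), TA_op _ (hs _), TC_op _ _ _ (hs _) (ht _), TC_op _ _ _ (hs _) (ht _)]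

theorem Same_symm_iff {K : Finset E} {h h' : E × Fin 4} : Same mate K h h' ↔ Same mate K h' h :=
  ⟨Same.symm, Same.symm⟩

theorem pr_pp (i : E × Fin 4) : (pr i : Op mate) * pr i = pr i := by
  ext y x
  rw [pr_mul_apply]
  by_cases h : (pr i : Op mate) y x = 0
  · rw [h]; simp
  · have := ind_ne_zero h
    rw [if_pos]
    rw [← this.1]
    exact this.2

theorem pr_pc (i j : E × Fin 4) : (pr i : Op mate) * pr j = pr j * pr i := by
  ext y x
  rw [pr_mul_apply, mul_pr_apply]
  by_cases h : (pr j : Op mate) y x = 0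
  · rw [h]
    have : (pr j : Op mate) y x = 0 := h
    simp
  · have := ind_ne_zero h
    rw [this.1]

theorem mono_of {M : Op mate} (h : ∀ x y, M y x ≠ 0 → ∀ p, x.f p = true → y.f p = true)
    (i : E × Fin 4) : M * pr i = pr i * M * pr i := by
  ext y x
  rw [mul_pr_apply, mul_pr_apply, pr_mul_apply]
  by_cases hx : x.f i = true
  · rw [if_pos hx, if_pos hx]
    by_cases hM : M y x = 0
    · rw [hM]; simp
    · rw [if_pos (h x y hM i hx)]
  · rw [if_neg hx, if_neg hx]

theorem mono_of' {M : Op mate} (h : ∀ x y, M y x ≠ 0 → ∀ p, y.f p = true → x.f p = true)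
    (i : E × Fin 4) : pr i * M = pr i * M * pr i := by
  ext y x
  rw [mul_pr_apply, pr_mul_apply]
  by_cases hx : x.f i = true
  · rw [if_pos hx]
  · rw [if_neg hx]
    by_cases hM : M y x = 0
    · rw [hM]; simp
    · rw [if_neg]
      exact fun hy => hx (h x y hM i hy)

theorem L0_mono {t : E → Bool} : ∀ x y, (L0 t : Op mate) y x ≠ 0 →
    ∀ p, x.f p = true → y.f p = true := fun x y h p => (L0_ne_zero h).1.2.1 p

theorem dl_mono {col : E × Fin 4 → Bool} {s : Bool} {t : E → Bool} :
    ∀ x y, (dl col s t : Op mate) y x ≠ 0 → ∀ p, x.f p = true → y.f p = true := by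
  intro x y h p hp
  rw [← (dl_label h).1]
  exact hp

theorem add_ne {M N : Op mate} {x y : Cfg mate} (h : (M + N) y x ≠ 0) :
    M y x ≠ 0 ∨ N y x ≠ 0 := by
  by_contra hc
  push Not at hc
  apply h
  rw [Matrix.add_apply, hc.1, hc.2, add_zero]

theorem mul_ne {M N : Op mate} {x y : Cfg mate} (h : (M * N) y x ≠ 0) :
    ∃ z, M y z ≠ 0 ∧ N z x ≠ 0 := by
  by_contra hc
  push Not at hc
  apply h
  rw [Matrix.mul_apply]
  apply Finset.sum_eq_zero
  intro z _
  by_cases h1 : M y z = 0
  · rw [h1, zero_mul]
  · rw [hc z h1, mul_zero]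

theorem sg_mul_apply (b c : E × Fin 4) (M : Op mate) (x y : Cfg mate)
    [Decidable (Same mate y.K b c)] :
    (sg b c * M : Op mate) y x = if Same mate y.K b c then M y x else 0 := by
  rw [Matrix.mul_apply, Finset.sum_eq_single y]
  · by_cases h : Same mate y.K b c
    · rw [if_pos h]
      have : (sg b c : Op mate) y y = 1 := ind_eq_one ⟨rfl, h⟩
      rw [this, one_mul]
    · rw [if_neg h]
      have : (sg b c : Op mate) y y = 0 := ind_eq_zero fun hh => h hh.2
      rw [this, zero_mul]
  · intro z _ hz
    have : (sg b c : Op mate) y z = 0 := ind_eq_zero fun hh => hz hh.1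
    rw [this, zero_mul]
  · intro h
    exact absurd (Finset.mem_univ _) h

theorem mul_sg_apply (b c : E × Fin 4) (M : Op mate) (x y : Cfg mate)
    [Decidable (Same mate x.K b c)] :
    (M * sg b c : Op mate) y x = if Same mate x.K b c then M y x else 0 := by
  rw [Matrix.mul_apply, Finset.sum_eq_single x]
  · by_cases h : Same mate x.K b c
    · rw [if_pos h]
      have : (sg b c : Op mate) x x = 1 := ind_eq_one ⟨rfl, h⟩
      rw [this, mul_one]
    · rw [if_neg h]
      have : (sg b c : Op mate) x x = 0 := ind_eq_zero fun hh => h hh.2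
      rw [this, mul_zero]
  · intro z _ hz
    have : (sg b c : Op mate) z x = 0 := ind_eq_zero fun hh => hz hh.1.symm
    rw [this, mul_zero]
  · intro h
    exact absurd (Finset.mem_univ _) h

theorem LL_br_same (hD : DEG mate) {t : E → Bool} {b c : E × Fin 4} {x y : Cfg mate}
    (h : (pr c * LL t b + LL t b * pr c : Op mate) y x ≠ 0) :
    Same mate x.K b c ∧ Same mate y.K b c := by
  rw [add_comm, br_pr_apply] at h
  by_cases hc : x.f c = y.f c
  · rw [if_pos hc] at h
    exact absurd rfl h
  · rw [if_neg hc] at h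
    obtain ⟨⟨hL, hw⟩, h1, h2⟩ := LL_ne_zero h
    have hm := hL.2.1 c
    have h3 : x.f c = false ∧ y.f c = true := by
      cases hx : x.f c <;> cases hy : y.f c <;> simp_all
    exact hD.star t x y hL hw b c h1 h2 h3.1 h3.2

theorem LL_sL (hD : DEG mate) (t : E → Bool) (b c : E × Fin 4) :
    sg b c * (pr c * LL t b + LL t b * pr c : Op mate) = pr c * LL t b + LL t b * pr c := by
  classical
  ext y x
  rw [sg_mul_apply]
  by_cases h : (pr c * LL t b + LL t b * pr c : Op mate) y x = 0
  · rw [h]; simp
  · rw [if_pos (LL_br_same hD h).2]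

theorem LL_Ls (hD : DEG mate) (t : E → Bool) (b c : E × Fin 4) :
    (pr c * LL t b + LL t b * pr c : Op mate) * sg b c = pr c * LL t b + LL t b * pr c := by
  classical
  ext y x
  rw [mul_sg_apply]
  by_cases h : (pr c * LL t b + LL t b * pr c : Op mate) y x = 0
  · rw [h]; simp
  · rw [if_pos (LL_br_same hD h).1]

theorem sg_pr (b c j : E × Fin 4) : (sg b c : Op mate) * pr j = pr j * sg b c := by
  ext y x
  rw [mul_pr_apply, pr_mul_apply]
  by_cases h : (sg b c : Op mate) y x = 0
  · rw [h]; simp
  · have := ind_ne_zero h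
    rw [this.1]

theorem msk_apply (B : Finset (E × Fin 4)) (M : Op mate) (x y : Cfg mate)
    [Decidable (∀ b ∈ B, x.f b = y.f b)] :
    (msk B M) y x = if ∀ b ∈ B, x.f b = y.f b then M y x else 0 := by
  unfold msk
  simp only [Matrix.of_apply]
  congr

theorem chg_apply (b : E × Fin 4) (M : Op mate) (x y : Cfg mate) [Decidable (x.f b ≠ y.f b)] :
    (chg b M) y x = if x.f b ≠ y.f b then M y x else 0 := by
  unfold chg
  simp only [Matrix.of_apply]
  congr

theorem kp_apply (b : E × Fin 4) (M : Op mate) (x y : Cfg mate) :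
    (kp pr b M) y x = if x.f b = y.f b then M y x else 0 := by
  have h : kp pr b M = M + (M * pr b + pr b * M) := by
    unfold kp
    have := op_add_self (pr b * M * pr b)
    calc (1 + pr b) * M * (1 + pr b) + pr b * M * pr b
        = M + (M * pr b + pr b * M) + (pr b * M * pr b + pr b * M * pr b) := by noncomm_ring
      _ = _ := by rw [this, add_zero]
  rw [h, Matrix.add_apply, br_pr_apply]
  by_cases hb : x.f b = y.f b
  · rw [if_pos hb, if_pos hb, add_zero]
  · rw [if_neg hb, if_neg hb]
    exact CharTwo.add_self_eq_zero _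

theorem one_add_pr_mul_apply (j : E × Fin 4) (M : Op mate) (x y : Cfg mate) :
    ((1 + pr j) * M : Op mate) y x = if y.f j = true then 0 else M y x := by
  rw [add_mul, one_mul, Matrix.add_apply, pr_mul_apply]
  by_cases h : y.f j = true
  · rw [if_pos h, if_pos h]
    exact CharTwo.add_self_eq_zero _
  · rw [if_neg h, if_neg h, add_zero]

theorem mv_apply {M : Op mate} (h : ∀ x y, M y x ≠ 0 → ∀ p, y.f p = true → x.f p = true)
    (b : E × Fin 4) : mv pr b M = chg b M := by
  ext y x
  rw [chg_apply]
  unfold mv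
  rw [mul_pr_apply, one_add_pr_mul_apply]
  by_cases hM : M y x = 0
  · rw [hM]; simp
  · have hm := h x y hM b
    cases hx : x.f b <;> cases hy : y.f b <;> simp_all

theorem msk_insert (b : E × Fin 4) (B : Finset (E × Fin 4)) (M : Op mate) :
    msk (insert b B) M = kp pr b (msk B M) := by
  ext y x
  rw [kp_apply, msk_apply, msk_apply]
  by_cases hb : x.f b = y.f b
  · rw [if_pos hb]
    by_cases hB : ∀ c ∈ B, x.f c = y.f c
    · rw [if_pos hB, if_pos]
      intro c hc
      rcases Finset.mem_insert.1 hc with rfl | hc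
      · exact hb
      · exact hB c hc
    · rw [if_neg hB, if_neg]
      exact fun hh => hB fun c hc => hh c (Finset.mem_insert_of_mem hc)
  · rw [if_neg hb, if_neg]
    exact fun hh => hb (hh b (Finset.mem_insert_self _ _))

theorem msk_empty (M : Op mate) : msk ∅ M = M := by
  ext y x
  rw [msk_apply, if_pos]
  intro b hb
  exact absurd hb (Finset.notMem_empty b)

theorem msk_ne {B : Finset (E × Fin 4)} {M : Op mate} {x y : Cfg mate} (h : (msk B M) y x ≠ 0) :
    M y x ≠ 0 := by
  rw [msk_apply] at h
  intro h0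
  rw [h0] at h
  simp at h

/-- the structure `AlgH` for the operators of a planar diagram -/
theorem algH_of {col : E × Fin 4 → Bool} {s : Bool} {t : E → Bool} (hDEG : DEG mate)
    (hLYC : ∀ (t : E → Bool) (j : E × Fin 4),
      (L0 t : Op mate) * LL (fun e => !t e) j = LL (fun e => !t e) j * L0 t ∧
      ∀ i, (LL t i : Op mate) * LL (fun e => !t e) j = LL (fun e => !t e) j * LL t i)
    (hcomm : ∀ (t : E → Bool) (j : E × Fin 4),
      DD mate col s t * LL t j = LL t j * DD mate col s t)
    (T : E × Fin 4 → Op mate) (hLT : ∀ q, LL t q * T q = pr q) (hTL : ∀ q, T q * LL t q = 1 + pr q)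
    (hTp : ∀ q, T q * pr q = T q) (hpT : ∀ q, pr q * T q = 0)
    (hCS : ∀ q x y, T q y x ≠ 0 → CS q x y)
    (hCL : (∀ p q, T p * T q = T q * T p) →
      (∀ (B : Finset (E × Fin 4)) (b p q : E × Fin 4), b ∉ B →
      chg b (msk B (T q)) * msk (insert b B) (T p) =
        msk (insert b B) (T p) * chg b (msk B (T q))))
    (hCL1 : ∀ (b c q : E × Fin 4), sg b c * msk {b} (chg c (T q)) = 0 ∧
      msk {b} (chg c (T q)) * sg b c = 0) :
    AlgH (pr : E × Fin 4 → Op mate) (LL t) (LL (op t)) T sg (dS mate col s t) (DD mate col s t)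
      (L0 (op t)) (fun B q => msk B (T q)) := by
  have hTm : ∀ q x y, T q y x ≠ 0 → ∀ p, y.f p = true → x.f p = true :=
    fun q x y h => (hCS q x y h).2.2.1
  have hdS : dS mate col s t = DD mate col s t + L0 (op t) := by
    unfold dS DD
    abel
  have hdS' : dS mate col s t = DD mate col s (op t) + L0 t := by
    unfold dS DD
    rw [dl_op]
    abel
  have hY : ∀ j, (LL (op t) j : Op mate) = L0 (op t) * pr j + pr j * L0 (op t) := LL_eq (op t)
  have hLYC' : ∀ j, (L0 (op t) : Op mate) * LL t j = LL t j * L0 (op t) := by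
    intro j
    have := (hLYC (op t) j).1
    have h2 : (fun e => !(op t) e) = t := op_op t
    rw [h2] at this
    exact this
  have hVb : ∀ (b c q : E × Fin 4), kp pr b (mv pr c (T q)) = msk {b} (chg c (T q)) := by
    intro b c q
    rw [mv_apply (hTm q)]
    have := msk_insert b ∅ (chg c (T q))
    rw [msk_empty] at this
    rw [← this]
    rfl
  refine
    { two := op_add_self
      pp := pr_pp
      pc := pr_pc
      hL := fun j => LL_eq' col s t j
      hY := hY
      hd := ?_
      mD := fun i => mono_of (fun x y h p hp => ?_) i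
      mY := fun i => mono_of L0_mono i
      md := fun i => mono_of (fun x y h p hp => ?_) i
      cDL := hcomm t
      cdL := ?_
      cdY := ?_
      cLY := fun i j => (hLYC t j).2 i
      LT := hLT
      TL := hTL
      Tp := hTp
      pT := hpT
      mT := fun i j => mono_of' (hTm j) i
      sp := sg_pr
      ss := ?_
      sL := fun b c => LL_sL hDEG t b c
      Ls := fun b c => LL_Ls hDEG t b c
      sY := fun b c => LL_sL hDEG (op t) b c
      Ys := fun b c => LL_Ls hDEG (op t) b c
      sV := ?_
      Vs := ?_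
      U0 := fun q => msk_empty _
      U1 := fun B b q _ => msk_insert b B (T q)
      cl := ?_ }
  · intro j
    rw [hdS, LL_eq' (mate := mate) col s t j, hY j]
    noncomm_ring
  · rcases add_ne h with h | h
    · exact L0_mono x y h p hp
    · exact dl_mono x y h p hp
  · rcases add_ne h with h | h
    · rcases add_ne h with h | h
      · exact L0_mono x y h p hp
      · exact L0_mono x y h p hp
    · exact dl_mono x y h p hp
  · intro j
    rw [hdS, add_mul, mul_add, hcomm t j, hLYC' j]
  · intro j
    rw [hdS', add_mul, mul_add, hcomm (op t) j, (hLYC t j).1]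
  · intro b c
    unfold sg
    congr 1
    funext x y
    rw [Same_symm_iff]
  · intro b c q
    rw [hVb]
    exact (hCL1 b c q).1
  · intro b c q
    rw [hVb]
    exact (hCL1 b c q).2
  · intro hT B b p q hb
    have h1 : mv pr b (msk B (T q)) = chg b (msk B (T q)) :=
      mv_apply (fun x y h => hTm q x y (msk_ne h)) b
    simp only [h1]
    exact hCL hT B b p q hb

/-! ### graded operators -/

/-- operators which enlarge the state and change the weight by `c` -/
def Gr (c : ℤ) (M : Op mate) : Prop := ∀ x y, M y x ≠ 0 → x.K ⊆ y.K ∧ y.w = x.w + c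

theorem Gr.add {c : ℤ} {M N : Op mate} (hM : Gr c M) (hN : Gr c N) : Gr c (M + N) := by
  intro x y h
  rcases add_ne h with h | h
  · exact hM x y h
  · exact hN x y h

theorem Gr.mul {a b : ℤ} {M N : Op mate} (hM : Gr a M) (hN : Gr b N) : Gr (a + b) (M * N) := by
  intro x y h
  obtain ⟨z, h1, h2⟩ := mul_ne h
  obtain ⟨k1, w1⟩ := hM z y h1
  obtain ⟨k2, w2⟩ := hN x z h2
  exact ⟨k2.trans k1, by rw [w1, w2]; ring⟩

theorem Gr.one : Gr 0 (1 : Op mate) := by
  intro x y h
  by_cases hxy : y = x
  · rw [hxy]; exact ⟨le_refl _, by ring⟩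
  · rw [Matrix.one_apply_ne hxy] at h
    exact absurd rfl h

theorem Gr.zero {c : ℤ} : Gr c (0 : Op mate) := by
  intro x y h
  exact absurd rfl h

theorem Gr.dS {col : E × Fin 4 → Bool} {s : Bool} {t : E → Bool} : Gr 2 (dS mate col s t) := by
  intro x y h
  rcases add_ne h with h | h
  · rcases add_ne h with h | h
    · exact ⟨(L0_ne_zero h).1.1, (L0_ne_zero h).2⟩
    · exact ⟨(L0_ne_zero h).1.1, (L0_ne_zero h).2⟩
  · exact ⟨(dl_label h).2.1, (dl_label h).2.2.2⟩

theorem LP_same_K {t : E → Bool} {x y : Cfg mate} (h : x.K = y.K) :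
    LP t x y ↔ ∀ p, x.f p = true → y.f p = true := by
  constructor
  · exact fun hh => hh.2.1
  · intro hh
    refine ⟨h.subset, hh, fun e he he' => ?_⟩
    rw [h] at he'
    exact absurd he he'

theorem dS_strict {col : E × Fin 4 → Bool} {s : Bool} {t : E → Bool} {x y : Cfg mate}
    (h : (dS mate col s t) y x ≠ 0) : x.K ≠ y.K := by
  intro hK
  apply h
  unfold dS
  rw [Matrix.add_apply, Matrix.add_apply]
  have h1 : (dl col s t : Op mate) y x = 0 := by
    by_contra hn
    have := (dl_label hn).2.2.1
    rw [hK] at this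
    simp at this
  have h2 : (L0 t : Op mate) y x = (L0 (op t) : Op mate) y x := by
    unfold L0
    by_cases hc : (∀ p, x.f p = true → y.f p = true) ∧ y.w = x.w + 2
    · rw [ind_eq_one, ind_eq_one]
      · exact ⟨(LP_same_K hK).2 hc.1, hc.2⟩
      · exact ⟨(LP_same_K hK).2 hc.1, hc.2⟩
    · rw [ind_eq_zero, ind_eq_zero]
      · exact fun hh => hc ⟨(LP_same_K hK).1 hh.1, hh.2⟩
      · exact fun hh => hc ⟨(LP_same_K hK).1 hh.1, hh.2⟩
  rw [h1, h2, add_zero]
  exact CharTwo.add_self_eq_zero _

theorem Gr.NN {d : Op mate} (hd : Gr 2 d) {U : Finset (E × Fin 4) → E × Fin 4 → Op mate}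
    (hU : ∀ B q, Gr (-2) (U B q)) (l : List (E × Fin 4)) :
    ∀ B, Gr (-2) (NN d U B l) := by
  induction l with
  | nil => intro B; exact Gr.zero
  | cons p l ih =>
    intro B
    unfold SZ.NN
    apply Gr.add (hU B p)
    have h1 : Gr 0 (1 + (d * U B p + U B p * d)) := by
      apply Gr.add Gr.one
      apply Gr.add
      · have := hd.mul (hU B p)
        norm_num at this
        exact this
      · have := (hU B p).mul hd
        norm_num at this
        exact this
    have := h1.mul (ih (insert p B))
    norm_num at this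
    exact this

/-- the chain homotopy data for the base point `P` -/
theorem main_ops (hA1 : S_ALG1) (hA2 : S_ALG2) (hA3 : S_ALG3)
    {col : E × Fin 4 → Bool} {s : Bool} {t : E → Bool} {T : E × Fin 4 → Op mate}
    (hH : AlgH (pr : E × Fin 4 → Op mate) (LL t) (LL (op t)) T sg (dS mate col s t)
      (DD mate col s t) (L0 (op t)) (fun B q => msk B (T q)))
    (hCS : ∀ q x y, T q y x ≠ 0 → CS q x y)
    (hRIG : ∀ W : Op mate, (∀ x y, W y x ≠ 0 → x.K ⊆ y.K ∧ x.K ≠ y.K ∧ y.w = x.w) →
      (∀ j, W * LL t j = LL t j * W) → W = 0) (P : E × Fin 4) :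
    ∃ nu : Op mate, Gr (-2) nu ∧ dS mate col s t * nu = nu * dS mate col s t ∧
      LL t P * nu + nu * LL t P = 1 := by
  obtain ⟨a1, a2, a3⟩ := hA1 _ _ _ _ _ _ _ _ _ _ _ hH
  obtain ⟨b1, b2⟩ := hA2 _ _ _ _ _ _ _ _ _ _ _ hH a1 a2 a3
  have hnodup : (P :: (Finset.univ.erase P).toList).Nodup := by
    rw [List.nodup_cons]
    refine ⟨?_, Finset.nodup_toList _⟩
    simp
  obtain ⟨c1, c2⟩ := hA3 _ _ _ _ _ _ _ _ _ _ _ hH b1 b2 P _ hnodup
  refine ⟨NN (dS mate col s t) (fun B q => msk B (T q)) ∅ (P :: (Finset.univ.erase P).toList),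
    ?_, ?_, c1⟩
  · apply Gr.NN Gr.dS
    intro B q x y h
    have := hCS q x y (msk_ne h)
    exact ⟨this.1, by rw [this.2.1]; ring⟩
  · set nu := NN (dS mate col s t) (fun B q => msk B (T q)) ∅ (P :: (Finset.univ.erase P).toList)
      with hnu
    have hG : Gr (-2) nu := by
      apply Gr.NN Gr.dS
      intro B q x y h
      have := hCS q x y (msk_ne h)
      exact ⟨this.1, by rw [this.2.1]; ring⟩
    have hW : br (dS mate col s t) nu = 0 := by
      apply hRIG
      · intro x y h
        rcases add_ne h with h | h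
        · obtain ⟨z, h1, h2⟩ := mul_ne h
          obtain ⟨k1, w1⟩ := Gr.dS z y h1
          obtain ⟨k2, w2⟩ := hG x z h2
          refine ⟨k2.trans k1, ?_, by rw [w1, w2]; ring⟩
          intro hK
          apply dS_strict h1
          apply le_antisymm k1
          rw [← hK]
          exact k2
        · obtain ⟨z, h1, h2⟩ := mul_ne h
          obtain ⟨k1, w1⟩ := hG z y h1
          obtain ⟨k2, w2⟩ := Gr.dS x z h2
          refine ⟨k2.trans k1, ?_, by rw [w1, w2]; ring⟩
          intro hK
          apply dS_strict h2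
          apply le_antisymm k2
          rw [hK]
          exact k1
      · intro j
        have := c2 j (by
          by_cases hj : j = P
          · rw [hj]; exact List.mem_cons_self
          · apply List.mem_cons_of_mem
            simp [hj])
        unfold br at this ⊢
        have h2 := op_add_self ((dS mate col s t * nu + nu * dS mate col s t) * LL t j)
        calc (dS mate col s t * nu + nu * dS mate col s t) * LL t j
            = (dS mate col s t * nu + nu * dS mate col s t) * LL t j + 0 := by rw [add_zero]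
          _ = (dS mate col s t * nu + nu * dS mate col s t) * LL t j +
              (LL t j * (dS mate col s t * nu + nu * dS mate col s t) +
                (dS mate col s t * nu + nu * dS mate col s t) * LL t j) := by rw [← this]
          _ = LL t j * (dS mate col s t * nu + nu * dS mate col s t) +
              ((dS mate col s t * nu + nu * dS mate col s t) * LL t j +
                (dS mate col s t * nu + nu * dS mate col s t) * LL t j) := by abel
          _ = _ := by rw [h2, add_zero]
    unfold br at hW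
    have h2 := op_add_self (nu * dS mate col s t)
    calc dS mate col s t * nu = dS mate col s t * nu +
          (nu * dS mate col s t + nu * dS mate col s t) := by rw [h2, add_zero]
      _ = (dS mate col s t * nu + nu * dS mate col s t) + nu * dS mate col s t := by abel
      _ = nu * dS mate col s t := by rw [hW, zero_add]

end Pool.Agent.Y465.SZ
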