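import Pool.Agent.Y465.SZ.Stm
import Pool.Agent.Y465.SZ.Alg

/-!
Project Y465-SZ: statements of the jobs ETY, CTY, JOR, EUL (comparison with the definitions of the
final statement).
-/

set_option linter.unusedSectionVars false

namespace Pool.Agent.Y465.SZ

variable {E : Type} [Fintype E] [DecidableEq E] {mate : E × Fin 4 → E × Fin 4}

/-- job ETY -/
def S_ETY : Prop := ∀ (E : Type) [Fintype E] [DecidableEq E] (mate : E × Fin 4 → E × Fin 4),
    Ori mate → JOI mate → WTF mate → CHN mate → DEG mate → ∀ (t : E → Bool) (x y : Cfg mate),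
    y.w = x.w + 2 → (Star t x y ↔ LP t x y ∧ (y.K \ x.K).Nonempty)

/-- job CTY -/
def S_CTY : Prop := ∀ (E : Type) [Fintype E] [DecidableEq E] (mate : E × Fin 4 → E × Fin 4)
    (col : E × Fin 4 → Bool), Dia mate col → Ori mate →
    ∀ (s : Bool) (t : E → Bool) (K S : Finset E), (∀ e ∈ S, e ∉ K) ∨ (∀ e ∈ S, e ∈ K) →
    (TD s (fun p q => Same mate K (pt p) (pt q)) (fun e p q => Same mate (tog K e) (pt p) (pt q)) t S ↔
      TC s (fun e => col (e, 0)) (fun p q => Same mate K (pt p) (pt q))
        (fun e p q => Same mate (tog K e) (pt p) (pt q)) t S)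

/-- every cycle mod 2 of the diagram bounds: a set of edges which is even at every crossing is the
set of edges between the two colours of a colouring of the faces; the corner between the ends `i`
and `i + 1` of `e` is denoted `(e, i)` -/
def Jor (mate : E × Fin 4 → E × Fin 4) : Prop :=
  ∀ Z : E × Fin 4 → Bool, (∀ h, Z (mate h) = Z h) →
    (∀ e, ((Z (e, 0) ^^ Z (e, 1)) ^^ (Z (e, 2) ^^ Z (e, 3))) = false) →
    ∃ c : E × Fin 4 → Bool, (∀ h, c ((mate h).1, (mate h).2 - 1) = c h) ∧
      ∀ e i, Z (e, i) = (c (e, i) ^^ c (e, i - 1))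

/-- job JOR -/
def S_JOR : Prop := S_ORI → S_OSG → ∀ (E : Type) [Fintype E] [DecidableEq E]
    (mate : E × Fin 4 → E × Fin 4), (∀ h, mate (mate h) = h) → Jor mate → ∃ col, Dia mate col

/-- job EUL: Euler's formula implies that all cycles bound -/
def S_EUL : Prop := ∀ (E : Type) [Fintype E] [DecidableEq E] (mate : E × Fin 4 → E × Fin 4),
    (∀ h, mate (mate h) = h) → (∀ h, mate h ≠ h) →
    nFaces mate = Fintype.card E + 2 * nComps mate → Jor mate

end Pool.Agent.Y465.SZ
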