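import Pool.Agent.Y465.SZ.Asm2
import Pool.Agent.Y465.SZ.Stm2

/-!
Project Y465-SZ, assembly 3: Szabo's complex, its pages, and the splitting.
-/

set_option linter.unusedSectionVars false

namespace Pool.Agent.Y465.SZ

variable {E : Type} [Fintype E] [DecidableEq E] {mate : E × Fin 4 → E × Fin 4}

/-- the page `E^k` in bigrading `(a, b)` of the complex with basis `X`, gradings `hh`, `qq` and
differential `M` -/
abbrev SPage {X : Type} [Fintype X] (hh qq : X → ℤ) (M : Matrix X X (ZMod 2)) (k : ℕ)
    (a b : ℤ) : Type := Page (Fil hh qq) M.mulVecLin k a (b - 2 * a)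

/-- basis of the reduced complex: the label at the base point is x -/
abbrev Red (mate : E × Fin 4 → E × Fin 4) (P : E × Fin 4) : Type := {x : Cfg mate // x.f P = true}

/-- the splitting of the pages for all planar diagrams -/
def S_FINAL : Prop := ∀ (E : Type) [Fintype E] [DecidableEq E] (mate : E × Fin 4 → E × Fin 4),
    (∀ h, mate (mate h) = h) → (∀ h, mate h ≠ h) →
    nFaces mate = Fintype.card E + 2 * nComps mate →
    ∀ (s : Bool) (t : E → Bool) (np nm : ℤ) (P : E × Fin 4) (k : ℕ), 2 ≤ k → ∀ a b : ℤ,
    Nonempty (SPage (X := Cfg mate) (hdeg nm) (qdeg np nm) (szD mate s t) k a b ≃ₗ[ZMod 2]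
      (SPage (X := Red mate P) (fun x => hdeg nm x.1) (fun x => qdeg np nm x.1 + 1)
          ((szD mate s t).submatrix Subtype.val Subtype.val) k a (b + 1) ×
        SPage (X := Red mate P) (fun x => hdeg nm x.1) (fun x => qdeg np nm x.1 + 1)
          ((szD mate s t).submatrix Subtype.val Subtype.val) k a (b - 1)))

/-! ### comparison of the differentials -/

theorem w_eq (x : Cfg mate) : x.w = x.K.card - gr x := rfl

theorem bid_iff (x y : Cfg mate) : Bid x y ↔ y.w = x.w + 2 := by
  unfold Bid
  rw [w_eq, w_eq]
  constructor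
  · intro h; rw [h]; ring
  · intro h; linarith

theorem szD_eq (hE : S_ETY) (hC : S_CTY) {col : E × Fin 4 → Bool} (hdia : Dia mate col)
    (hO : Ori mate) (hJ : JOI mate) (hW : WTF mate) (hCH : CHN mate) (hD : DEG mate) (s : Bool)
    (t : E → Bool) : szD mate s t = dS mate col s t := by
  have hL : ∀ t : E → Bool, ∀ x y : Cfg mate,
      (ind (fun x y => Bid x y ∧ Star t x y) : Op mate) y x =
        if (y.K \ x.K).Nonempty then (L0 t : Op mate) y x else 0 := by
    intro t x y
    by_cases hn : (y.K \ x.K).Nonempty
    · rw [if_pos hn]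
      by_cases h : y.w = x.w + 2
      · have := hE E mate hO hJ hW hCH hD t x y h
        by_cases hs : Star t x y
        · rw [ind_eq_one (p := fun x y => Bid x y ∧ Star t x y) ⟨(bid_iff x y).2 h, hs⟩]
          symm
          exact ind_eq_one ⟨(this.1 hs).1, h⟩
        · rw [ind_eq_zero (p := fun x y => Bid x y ∧ Star t x y) fun hh => hs hh.2]
          symm
          exact ind_eq_zero fun hh => hs (this.2 ⟨hh.1, hn⟩)
      · rw [ind_eq_zero (p := fun x y => Bid x y ∧ Star t x y) fun hh => h ((bid_iff x y).1 hh.1)]
        symm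
        exact ind_eq_zero fun hh => h hh.2
    · rw [if_neg hn]
      exact ind_eq_zero fun hh => hn hh.2.2.1
  have hTy : (ind (fun x y => Bid x y ∧ TypeABCD s t x y) : Op mate) = dl col s t := by
    unfold dl
    congr 1
    funext x y
    apply propext
    have c1 := hC E mate col hdia hO s t x.K (y.K \ x.K)
      (Or.inl fun e he => (Finset.mem_sdiff.1 he).2)
    have c2 := hC E mate col hdia hO s t y.K (y.K \ x.K)
      (Or.inr fun e he => (Finset.mem_sdiff.1 he).1)
    have e1 : ∀ (kind : E → Bool), TC s kind (fun p q => Same mate x.K (pt p) (pt q))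
        (fun e p q => Same mate (tog x.K e) (pt p) (pt q)) t (y.K \ x.K) ↔
        TC s kind (fun p q => Same mate x.K (pt p) (pt q))
        (fun e p q => Same mate (insert e x.K) (pt p) (pt q)) t (y.K \ x.K) := by
      intro kind
      unfold TC
      apply and_congr Iff.rfl
      apply and_congr Iff.rfl
      apply and_congr Iff.rfl
      apply forall_congr'
      intro e
      apply forall_congr'
      intro he
      have : tog x.K e = insert e x.K := by
        unfold tog
        rw [if_neg (Finset.mem_sdiff.1 he).2]
      beta_reduce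
      rw [this]
    have e2 : ∀ (kind : E → Bool), TC s kind (fun p q => Same mate y.K (pt p) (pt q))
        (fun e p q => Same mate (tog y.K e) (pt p) (pt q)) t (y.K \ x.K) ↔
        TC s kind (fun p q => Same mate y.K (pt p) (pt q))
        (fun e p q => Same mate (y.K.erase e) (pt p) (pt q)) t (y.K \ x.K) := by
      intro kind
      unfold TC
      apply and_congr Iff.rfl
      apply and_congr Iff.rfl
      apply and_congr Iff.rfl
      apply forall_congr'
      intro e
      apply forall_congr'
      intro he
      have : tog y.K e = y.K.erase e := by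
        unfold tog
        rw [if_pos (Finset.mem_sdiff.1 he).1]
      beta_reduce
      rw [this]
    have d1 : TD s (fun p q => Same mate x.K (pt p) (pt q))
        (fun e p q => Same mate (tog x.K e) (pt p) (pt q)) t (y.K \ x.K) ↔
        TD s (fun p q => Same mate x.K (pt p) (pt q))
        (fun e p q => Same mate (insert e x.K) (pt p) (pt q)) t (y.K \ x.K) := by
      unfold TD
      apply exists_congr
      intro side
      rw [e1 side]
      apply and_congr Iff.rfl
      apply forall_congr'
      intro e
      apply forall_congr'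
      intro he
      have : tog x.K e = insert e x.K := by
        unfold tog
        rw [if_neg (Finset.mem_sdiff.1 he).2]
      beta_reduce
      rw [this]
    have d2 : TD s (fun p q => Same mate y.K (pt p) (pt q))
        (fun e p q => Same mate (tog y.K e) (pt p) (pt q)) t (y.K \ x.K) ↔
        TD s (fun p q => Same mate y.K (pt p) (pt q))
        (fun e p q => Same mate (y.K.erase e) (pt p) (pt q)) t (y.K \ x.K) := by
      unfold TD
      apply exists_congr
      intro side
      rw [e2 side]
      apply and_congr Iff.rfl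
      apply forall_congr'
      intro e
      apply forall_congr'
      intro he
      have : tog y.K e = y.K.erase e := by
        unfold tog
        rw [if_pos (Finset.mem_sdiff.1 he).1]
      beta_reduce
      rw [this]
    rw [d1, e1] at c1
    rw [d2, e2] at c2
    unfold TypeABCD
    rw [bid_iff, c1, c2]
    tauto
  unfold szD dS
  rw [hTy]
  congr 1
  ext y x
  rw [Matrix.add_apply, Matrix.add_apply, hL t x y, hL (fun e => !t e) x y]
  by_cases hn : (y.K \ x.K).Nonempty
  · rw [if_pos hn, if_pos hn]
  · rw [if_neg hn, if_neg hn]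
    have hK : y.K ⊆ x.K := by
      intro e he
      by_contra h
      exact hn ⟨e, Finset.mem_sdiff.2 ⟨he, h⟩⟩
    by_cases hxy : x.K ⊆ y.K
    · have hKK : x.K = y.K := le_antisymm hxy hK
      have h2 : (L0 t : Op mate) y x = (L0 (op t) : Op mate) y x := by
        unfold L0
        by_cases hc : (∀ p, x.f p = true → y.f p = true) ∧ y.w = x.w + 2
        · rw [ind_eq_one, ind_eq_one]
          · exact ⟨(LP_same_K hKK).2 hc.1, hc.2⟩
          · exact ⟨(LP_same_K hKK).2 hc.1, hc.2⟩
        · rw [ind_eq_zero, ind_eq_zero]
          · exact fun hh => hc ⟨(LP_same_K hKK).1 hh.1, hh.2⟩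
          · exact fun hh => hc ⟨(LP_same_K hKK).1 hh.1, hh.2⟩
      rw [h2, add_zero]
      exact (CharTwo.add_self_eq_zero _).symm
    · have h1 : (L0 t : Op mate) y x = 0 := ind_eq_zero fun hh => hxy hh.1.1
      have h2 : (L0 (op t) : Op mate) y x = 0 := ind_eq_zero fun hh => hxy hh.1.1
      rw [h1, h2]

/-! ### pages -/

theorem quot_congr {V : Type} [AddCommGroup V] [Module (ZMod 2) V] :
    ∀ (Z Z' B B' : Submodule (ZMod 2) V), Z = Z' → B = B' →
      Nonempty ((Z ⧸ Submodule.comap Z.subtype B) ≃ₗ[ZMod 2] (Z' ⧸ Submodule.comap Z'.subtype B')) := by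
  rintro Z _ B _ rfl rfl
  exact ⟨LinearEquiv.refl _ _⟩

theorem page_shift {V : Type} [AddCommGroup V] [Module (ZMod 2) V]
    (F : ℤ → ℤ → Submodule (ZMod 2) V) (d : V →ₗ[ZMod 2] V) (c : ℤ) (k : ℕ) (a s s' : ℤ)
    (hs : s' = s + c) :
    Nonempty (Page (fun a s => F a (s + c)) d k a s ≃ₗ[ZMod 2] Page F d k a s') := by
  subst hs
  apply quot_congr
  · unfold Zp
    beta_reduce
    rw [show s - 2 + c = s + c - 2 by ring]
  · unfold Zp
    beta_reduce
    rw [show s - 2 + c = s + c - 2 by ring, show s + 2 + c = s + c + 2 by ring,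
      show s + 2 - 2 + c = s + c + 2 - 2 by ring]

/-- the splitting of the pages from the homotopy data -/
theorem pages_of_ops (hP : S_PAG) (M : Op mate) (P : E × Fin 4) (nu L : Op mate)
    (hM : Gr 2 M) (hMm : M * pr P = pr P * M * pr P)
    (hnu : Gr (-2) nu) (hL : Gr 2 L) (hLp : pr P * L = L) (hpL : L * pr P = 0)
    (hMnu : M * nu = nu * M) (hML : M * L = L * M) (hLnu : L * nu + nu * L = 1)
    (np nm : ℤ) (k : ℕ) (a b : ℤ) :
    Nonempty (SPage (X := Cfg mate) (hdeg nm) (qdeg np nm) M k a b ≃ₗ[ZMod 2]
      (SPage (X := Red mate P) (fun x => hdeg nm x.1) (fun x => qdeg np nm x.1 + 1)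
          (M.submatrix Subtype.val Subtype.val) k a (b + 1) ×
        SPage (X := Red mate P) (fun x => hdeg nm x.1) (fun x => qdeg np nm x.1 + 1)
          (M.submatrix Subtype.val Subtype.val) k a (b - 1))) := by
  classical
  -- inclusion and restriction
  let io : (Red mate P → ZMod 2) →ₗ[ZMod 2] (Cfg mate → ZMod 2) :=
    { toFun := fun v x => if h : x.f P = true then v ⟨x, h⟩ else 0
      map_add' := by
        intro u v
        funext x
        by_cases h : x.f P = true
        · simp [h]
        · simp [h]
      map_smul' := by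
        intro r v
        funext x
        by_cases h : x.f P = true
        · simp [h]
        · simp [h] }
  let re : (Cfg mate → ZMod 2) →ₗ[ZMod 2] (Red mate P → ZMod 2) :=
    { toFun := fun v x => v x.1
      map_add' := fun u v => rfl
      map_smul' := fun r v => rfl }
  have hre : ∀ v, re (io v) = v := by
    intro v
    funext x
    simp only [re, io, LinearMap.coe_mk, AddHom.coe_mk]
    rw [dif_pos x.2]
  have hpr : ∀ v : Cfg mate → ZMod 2, io (re v) = (pr P : Op mate).mulVec v := by
    intro v
    funext x
    simp only [re, io, LinearMap.coe_mk, AddHom.coe_mk]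
    rw [Matrix.mulVec, dotProduct, Finset.sum_eq_single x]
    · by_cases h : x.f P = true
      · rw [dif_pos h]
        have : (pr P : Op mate) x x = 1 := ind_eq_one ⟨rfl, h⟩
        rw [this, one_mul]
      · rw [dif_neg h]
        have : (pr P : Op mate) x x = 0 := ind_eq_zero fun hh => h hh.2
        rw [this, zero_mul]
    · intro z _ hz
      have : (pr P : Op mate) x z = 0 := ind_eq_zero fun hh => hz hh.1
      rw [this, zero_mul]
    · intro h
      exact absurd (Finset.mem_univ _) h
  have hpio : ∀ v, (pr P : Op mate).mulVec (io v) = io v := by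
    intro v
    rw [← hpr, hre]
  have hLio : ∀ v, L.mulVec (io v) = 0 := by
    intro v
    rw [← hpio v, Matrix.mulVec_mulVec, hpL, Matrix.zero_mulVec]
  have hioL : ∀ v, io (re (L.mulVec v)) = L.mulVec v := by
    intro v
    rw [hpr, Matrix.mulVec_mulVec, hLp]
  have hioM : ∀ v, io (re (M.mulVec (io v))) = M.mulVec (io v) := by
    intro v
    rw [hpr, ← hpio v, Matrix.mulVec_mulVec, Matrix.mulVec_mulVec, ← hMm, Matrix.mulVec_mulVec]
  have hMsub : ∀ v, (M.submatrix Subtype.val Subtype.val : Matrix (Red mate P) (Red mate P)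
      (ZMod 2)).mulVec v = re (M.mulVec (io v)) := by
    intro v
    funext x
    simp only [re, io, LinearMap.coe_mk, AddHom.coe_mk, Matrix.mulVec, dotProduct,
      Matrix.submatrix_apply]
    have h1 : ∑ z : Cfg mate, M x.1 z * (if h : z.f P = true then v ⟨z, h⟩ else 0) =
        ∑ z ∈ Finset.univ.filter (fun z : Cfg mate => z.f P = true),
          M x.1 z * (if h : z.f P = true then v ⟨z, h⟩ else 0) := by
      symm
      apply Finset.sum_subset (Finset.filter_subset _ _)
      intro z _ hz
      have : ¬ z.f P = true := fun h => hz (by simp [h])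
      rw [dif_neg this, mul_zero]
    rw [h1]
    rw [Finset.sum_subtype (Finset.univ.filter (fun z : Cfg mate => z.f P = true))
      (p := fun z => z.f P = true) (by simp)
      (fun z => M x.1 z * (if h : z.f P = true then v ⟨z, h⟩ else 0))]
    apply Finset.sum_congr rfl
    intro z _
    rw [dif_pos z.2]
  -- the equivalence
  let e : ((Red mate P → ZMod 2) × (Red mate P → ZMod 2)) ≃ₗ[ZMod 2] (Cfg mate → ZMod 2) :=
    { toFun := fun u => io u.1 + nu.mulVec (io u.2)
      map_add' := by
        intro u v
        simp only [Prod.fst_add, Prod.snd_add, map_add, Matrix.mulVec_add]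
        abel
      map_smul' := by
        intro r v
        simp only [Prod.smul_fst, Prod.smul_snd, map_smul, Matrix.mulVec_smul, smul_add,
          RingHom.id_apply]
      invFun := fun v => (re (v + nu.mulVec (L.mulVec v)), re (L.mulVec v))
      left_inv := by
        rintro ⟨u1, u2⟩
        have h0 : ∀ w : Cfg mate → ZMod 2, w + w = 0 := by
          intro w
          funext x
          exact CharTwo.add_self_eq_zero _
        have h1 : L.mulVec (io u1 + nu.mulVec (io u2)) = io u2 := by
          rw [Matrix.mulVec_add, hLio, zero_add, Matrix.mulVec_mulVec]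
          have : L * nu = 1 + nu * L := by
            have h2 := op_add_self (nu * L)
            calc L * nu = L * nu + (nu * L + nu * L) := by rw [h2, add_zero]
              _ = (L * nu + nu * L) + nu * L := by abel
              _ = 1 + nu * L := by rw [hLnu]
          rw [this, Matrix.add_mulVec, Matrix.one_mulVec, ← Matrix.mulVec_mulVec, hLio,
            Matrix.mulVec_zero, add_zero]
        simp only [h1]
        rw [add_assoc, h0, add_zero, hre, hre]
      right_inv := by
        intro v
        have h0 : ∀ w : Cfg mate → ZMod 2, w + w = 0 := by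
          intro w
          funext x
          exact CharTwo.add_self_eq_zero _
        simp only
        have h1 : v + nu.mulVec (L.mulVec v) = L.mulVec (nu.mulVec v) := by
          have h3 : v = (L * nu + nu * L).mulVec v := by rw [hLnu, Matrix.one_mulVec]
          have h4 : (L * nu + nu * L).mulVec v =
              L.mulVec (nu.mulVec v) + nu.mulVec (L.mulVec v) := by
            rw [Matrix.add_mulVec, Matrix.mulVec_mulVec, Matrix.mulVec_mulVec]
          calc v + nu.mulVec (L.mulVec v)
              = (L.mulVec (nu.mulVec v) + nu.mulVec (L.mulVec v)) + nu.mulVec (L.mulVec v) := by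
                rw [← h4, ← h3]
            _ = L.mulVec (nu.mulVec v) := by rw [add_assoc, h0, add_zero]
        rw [h1, hioL, hioL, ← h1, add_assoc, h0, add_zero] }
  have he : ∀ u, e u = io u.1 + nu.mulVec (io u.2) := fun u => rfl
  have hei : ∀ v, e.symm v = (re (v + nu.mulVec (L.mulVec v)), re (L.mulVec v)) := fun v => rfl
  -- gradings
  have hgr : ∀ (c : ℤ) (N : Op mate), Gr c N → ∀ (a s : ℤ) (v : Cfg mate → ZMod 2),
      v ∈ Fil (hdeg nm) (qdeg np nm) a s → N.mulVec v ∈ Fil (hdeg nm) (qdeg np nm) a (s - c) := by
    intro c N hN a s v hv y hy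
    rw [Matrix.mulVec, dotProduct] at hy
    obtain ⟨x, _, hx⟩ := Finset.exists_ne_zero_of_sum_ne_zero hy
    have h1 : N y x ≠ 0 := left_ne_zero_of_mul hx
    have h2 : v x ≠ 0 := right_ne_zero_of_mul hx
    obtain ⟨hK, hw⟩ := hN x y h1
    obtain ⟨h3, h4⟩ := hv x h2
    have hc : (x.K.card : ℤ) ≤ y.K.card := by exact_mod_cast Finset.card_le_card hK
    rw [w_eq, w_eq] at hw
    unfold hdeg qdeg at *
    constructor
    · linarith
    · linarith
  have hio_mem : ∀ (a s : ℤ) (v : Red mate P → ZMod 2),
      io v ∈ Fil (hdeg nm) (qdeg np nm) a s ↔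
        v ∈ Fil (X := Red mate P) (fun x => hdeg nm x.1) (fun x => qdeg np nm x.1 + 1) a (s + 1) := by
    intro a s v
    constructor
    · intro h x hx
      have h1 : io v x.1 ≠ 0 := by
        simp only [io, LinearMap.coe_mk, AddHom.coe_mk]
        rw [dif_pos x.2]
        exact hx
      obtain ⟨h2, h3⟩ := h x.1 h1
      exact ⟨h2, by linarith⟩
    · intro h x hx
      have hP' : x.f P = true := by
        by_contra hn
        apply hx
        simp only [io, LinearMap.coe_mk, AddHom.coe_mk]
        rw [dif_neg hn]
      have h1 : v ⟨x, hP'⟩ ≠ 0 := by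
        intro h0
        apply hx
        simp only [io, LinearMap.coe_mk, AddHom.coe_mk]
        rw [dif_pos hP', h0]
      obtain ⟨h2, h3⟩ := h ⟨x, hP'⟩ h1
      exact ⟨h2, by simp only at h3; linarith⟩
  have hmem : ∀ (a s : ℤ) (u : (Red mate P → ZMod 2) × (Red mate P → ZMod 2)),
      e u ∈ Fil (hdeg nm) (qdeg np nm) a s ↔
      u.1 ∈ Fil (X := Red mate P) (fun x => hdeg nm x.1) (fun x => qdeg np nm x.1 + 1) a (s + 1) ∧
      u.2 ∈ Fil (X := Red mate P) (fun x => hdeg nm x.1) (fun x => qdeg np nm x.1 + 1) a
        (s + (-1)) := by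
    intro a s u
    constructor
    · intro h
      have h1 := e.symm_apply_apply u
      rw [hei] at h1
      have hL1 := hgr 2 L hL a s _ h
      have hL2 := hgr (-2) nu hnu a (s - 2) _ hL1
      have h2 : e u + nu.mulVec (L.mulVec (e u)) ∈ Fil (hdeg nm) (qdeg np nm) a s := by
        apply Submodule.add_mem _ h
        rw [show s - 2 - -2 = s by ring] at hL2
        exact hL2
      constructor
      · rw [← h1]
        rw [← hio_mem]
        simp only
        rw [hpr]
        have h3 := hgr 0 (pr P) (by
          intro x y hxy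
          have := ind_ne_zero hxy
          rw [this.1]
          exact ⟨le_refl _, by ring⟩) a s _ h2
        rw [sub_zero] at h3
        exact h3
      · rw [← h1]
        have : re (L.mulVec (e u)) ∈ Fil (X := Red mate P) (fun x => hdeg nm x.1)
            (fun x => qdeg np nm x.1 + 1) a ((s - 2) + 1) := by
          rw [← hio_mem, hioL]
          exact hL1
        rw [show s + (-1) = (s - 2) + 1 by ring]
        exact this
    · rintro ⟨h1, h2⟩
      rw [he]
      apply Submodule.add_mem
      · rw [hio_mem]
        exact h1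
      · have h3 : io u.2 ∈ Fil (hdeg nm) (qdeg np nm) a (s - 2) := by
          rw [hio_mem, show s - 2 + 1 = s + (-1) by ring]
          exact h2
        have h4 := hgr (-2) nu hnu a (s - 2) _ h3
        rw [show s - 2 - -2 = s by ring] at h4
        exact h4
  have hd : ∀ u, M.mulVecLin (e u) =
      e ((M.submatrix Subtype.val Subtype.val : Matrix (Red mate P) (Red mate P)
        (ZMod 2)).mulVecLin u.1,
        (M.submatrix Subtype.val Subtype.val : Matrix (Red mate P) (Red mate P)
        (ZMod 2)).mulVecLin u.2) := by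
    intro u
    rw [he, he, Matrix.mulVecLin_apply, Matrix.mulVecLin_apply, Matrix.mulVecLin_apply,
      Matrix.mulVec_add, hMsub, hMsub, hioM, hioM, Matrix.mulVec_mulVec, hMnu,
      ← Matrix.mulVec_mulVec]
  obtain ⟨f0⟩ := hP (Cfg mate → ZMod 2) (Red mate P → ZMod 2) (Red mate P → ZMod 2)
    (Fil (hdeg nm) (qdeg np nm))
    (fun a s => Fil (X := Red mate P) (fun x => hdeg nm x.1) (fun x => qdeg np nm x.1 + 1) a (s + 1))
    (fun a s => Fil (X := Red mate P) (fun x => hdeg nm x.1) (fun x => qdeg np nm x.1 + 1) a
      (s + (-1)))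
    M.mulVecLin
    (M.submatrix Subtype.val Subtype.val : Matrix (Red mate P) (Red mate P) (ZMod 2)).mulVecLin
    (M.submatrix Subtype.val Subtype.val : Matrix (Red mate P) (Red mate P) (ZMod 2)).mulVecLin
    e hmem hd k a (b - 2 * a)
  obtain ⟨f1⟩ := page_shift (Fil (X := Red mate P) (fun x => hdeg nm x.1)
    (fun x => qdeg np nm x.1 + 1))
    (M.submatrix Subtype.val Subtype.val : Matrix (Red mate P) (Red mate P) (ZMod 2)).mulVecLin
    1 k a (b - 2 * a) (b + 1 - 2 * a) (by ring)
  obtain ⟨f2⟩ := page_shift (Fil (X := Red mate P) (fun x => hdeg nm x.1)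
    (fun x => qdeg np nm x.1 + 1))
    (M.submatrix Subtype.val Subtype.val : Matrix (Red mate P) (Red mate P) (ZMod 2)).mulVecLin
    (-1) k a (b - 2 * a) (b - 1 - 2 * a) (by ring)
  exact ⟨f0.trans (LinearEquiv.prodCongr f1 f2)⟩

end Pool.Agent.Y465.SZ
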