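import Pool.Agent.Y465.SZ.Asm3

/-!
Project Y465-SZ, assembly 4: the final theorem from the statements of the jobs.
-/

set_option linter.unusedSectionVars false

namespace Pool.Agent.Y465.SZ

variable {E : Type} [Fintype E] [DecidableEq E] {mate : E × Fin 4 → E × Fin 4}

theorem cl_part1 {T : E × Fin 4 → Op mate} (hCS : ∀ q x y, T q y x ≠ 0 → CS q x y)
    (b c q : E × Fin 4) : sg b c * msk {b} (chg c (T q)) = 0 ∧
      msk {b} (chg c (T q)) * sg b c = 0 := by
  classical
  have key : ∀ x y : Cfg mate, (msk {b} (chg c (T q))) y x ≠ 0 →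
      ¬ Same mate x.K b c ∧ ¬ Same mate y.K b c := by
    intro x y h
    rw [msk_apply] at h
    by_cases hb : ∀ b' ∈ ({b} : Finset (E × Fin 4)), x.f b' = y.f b'
    · rw [if_pos hb, chg_apply] at h
      have hb' := hb b (Finset.mem_singleton_self b)
      by_cases hc : x.f c ≠ y.f c
      · rw [if_pos hc] at h
        obtain ⟨_, _, hm, _, _, i1, i2, _⟩ := hCS q x y h
        have hmc := hm c
        have hxc : x.f c = true ∧ y.f c = false := by
          cases h1 : x.f c <;> cases h2 : y.f c <;> simp_all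
        constructor
        · intro hs
          have := hs _ i1
          simp only [hxc.1, hxc.2, hb'] at this
          cases h3 : y.f b <;> rw [h3] at this <;> simp at this
        · intro hs
          have := hs _ i2
          simp only [hxc.1, hxc.2, hb'] at this
          cases h3 : y.f b <;> rw [h3] at this <;> simp at this
      · rw [if_neg hc] at h
        exact absurd rfl h
    · rw [if_neg hb] at h
      exact absurd rfl h
  constructor
  · ext y x
    rw [sg_mul_apply, Matrix.zero_apply]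
    by_cases h : (msk {b} (chg c (T q))) y x = 0
    · rw [h]; simp
    · rw [if_neg (key x y h).2]
  · ext y x
    rw [mul_sg_apply, Matrix.zero_apply]
    by_cases h : (msk {b} (chg c (T q))) y x = 0
    · rw [h]; simp
    · rw [if_neg (key x y h).1]

theorem pr_mul_LL (t : E → Bool) (j : E × Fin 4) : (pr j * LL t j : Op mate) = LL t j := by
  ext y x
  rw [pr_mul_apply]
  by_cases h : (LL t j : Op mate) y x = 0
  · rw [h]; simp
  · rw [if_pos (LL_ne_zero h).2.2]

theorem LL_mul_pr (t : E → Bool) (j : E × Fin 4) : (LL t j * pr j : Op mate) = 0 := by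
  ext y x
  rw [mul_pr_apply, Matrix.zero_apply]
  by_cases h : (LL t j : Op mate) y x = 0
  · rw [h]; simp
  · rw [if_neg]
    rw [(LL_ne_zero h).2.1]
    exact Bool.false_ne_true

theorem Gr.LL {t : E → Bool} {j : E × Fin 4} : Gr 2 (LL t j : Op mate) := by
  intro x y h
  exact ⟨(LL_ne_zero h).1.1.1, (LL_ne_zero h).1.2⟩

/-- the splitting for diagrams with a checkerboard colouring satisfying `Dia` -/
theorem final_dia (hORI : S_ORI) (hOSG : S_OSG) (hJOI : S_JOI) (hCN : S_CN) (hWTF : S_WTF)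
    (hDEG : S_DEG) (hLCJ : S_LCJ) (hLYC : S_LYC) (hGAM : S_GAM) (hDCJ : S_DCJ) (hBAL : S_BAL)
    (hP2A : S_P2A) (hP2B : S_P2B) (hTQ : S_TQ) (hCL : S_CL) (hRIG : S_RIG) (hA1 : S_ALG1)
    (hA2 : S_ALG2) (hA3 : S_ALG3) (hPAG : S_PAG) (hETY : S_ETY) (hCTY : S_CTY)
    (mate : E × Fin 4 → E × Fin 4) (col : E × Fin 4 → Bool) (hdia : Dia mate col)
    (s : Bool) (t : E → Bool) (np nm : ℤ) (P : E × Fin 4) (k : ℕ) (a b : ℤ) :
    Nonempty (SPage (X := Cfg mate) (hdeg nm) (qdeg np nm) (szD mate s t) k a b ≃ₗ[ZMod 2]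
      (SPage (X := Red mate P) (fun x => hdeg nm x.1) (fun x => qdeg np nm x.1 + 1)
          ((szD mate s t).submatrix Subtype.val Subtype.val) k a (b + 1) ×
        SPage (X := Red mate P) (fun x => hdeg nm x.1) (fun x => qdeg np nm x.1 + 1)
          ((szD mate s t).submatrix Subtype.val Subtype.val) k a (b - 1))) := by
  have hO : Ori mate := hORI E mate col hdia.mm hdia.cm hdia.ca
  have hJ : JOI mate := hJOI E mate hO
  have hW : WTF mate := hWTF hCN E mate hO hJ
  obtain ⟨hCH, hD⟩ := hDEG E mate hO hJ hW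
  have hL := hLCJ E mate hO hW hD
  have hd' := hDCJ hOSG hGAM E mate col hdia hO hJ hW s
  have hB : BAL mate col := hBAL hOSG E mate col hdia hO
  have hcomm : ∀ (t : E → Bool) (j : E × Fin 4),
      DD mate col s t * LL t j = LL t j * DD mate col s t := by
    intro t j
    apply dd_comm_LL
    intro x y hxy
    exact dd_sq_zero hL hd'
      (fun t x y h1 h2 h3 => hP2A E mate col hdia hO hW hB s t x y h1 h2 h3)
      (fun t x y h1 h2 => hP2B hOSG E mate col hdia hO hJ hW s t x y h1 h2) _ t x y rfl hxy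
  choose T hLT hTL hTp hpT hCS using hTQ E mate hO hW hD t
  have hH := algH_of (col := col) (s := s) (t := t) hD (hLYC E mate hD) hcomm T hLT hTL hTp hpT hCS
    (fun h => (hCL E mate T hCS h).2) (cl_part1 hCS)
  obtain ⟨nu, hnu, hc, h1⟩ := main_ops hA1 hA2 hA3 hH hCS (hRIG E mate hO hW hCH hD t) P
  rw [szD_eq hETY hCTY hdia hO hJ hW hCH hD s t]
  exact pages_of_ops hPAG (dS mate col s t) P nu (LL t P) Gr.dS (hH.md P) hnu Gr.LL
    (pr_mul_LL t P) (LL_mul_pr t P) hc (hH.cdL P) h1 np nm k a b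

theorem final (hORI : S_ORI) (hOSG : S_OSG) (hJOI : S_JOI) (hCN : S_CN) (hWTF : S_WTF)
    (hDEG : S_DEG) (hLCJ : S_LCJ) (hLYC : S_LYC) (hGAM : S_GAM) (hDCJ : S_DCJ) (hBAL : S_BAL)
    (hP2A : S_P2A) (hP2B : S_P2B) (hTQ : S_TQ) (hCL : S_CL) (hRIG : S_RIG) (hA1 : S_ALG1)
    (hA2 : S_ALG2) (hA3 : S_ALG3) (hPAG : S_PAG) (hETY : S_ETY) (hCTY : S_CTY) (hJOR : S_JOR)
    (hEUL : S_EUL) : S_FINAL := by
  intro E _ _ mate h1 h2 h3 s t np nm P k _ a b
  obtain ⟨col, hdia⟩ := hJOR hORI hOSG E mate h1 (hEUL E mate h1 h2 h3)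
  exact final_dia hORI hOSG hJOI hCN hWTF hDEG hLCJ hLYC hGAM hDCJ hBAL hP2A hP2B hTQ hCL hRIG
    hA1 hA2 hA3 hPAG hETY hCTY mate col hdia s t np nm P k a b

end Pool.Agent.Y465.SZ
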