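import Mathlib

/-!
# Szabo's geometric spectral sequence of a link diagram: all definitions used in the final statement

All coefficients are in the field with two elements.

## Link diagrams
A link diagram (on the sphere) is given by the finite type `E` of its crossings, the finite type `C`
of its components without crossings (circles of the diagram which meet no crossing) and by the way
in which the ends of the strands at the crossings are joined.  At every crossing `e` the four ends
`(e, 0)`, `(e, 1)`, `(e, 2)`, `(e, 3)` of the two strands are numbered in their cyclic order around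
the crossing, in such a way that the 0-resolution of the crossing joins the end 0 to the end 3 and
the end 1 to the end 2, and the 1-resolution joins the end 0 to the end 1 and the end 2 to the end 3.
The involution `mate` exchanges the two ends of every edge of the diagram.  The faces of the diagram
are counted by `nFaces`; a diagram drawn on the sphere satisfies Euler's formula, faces minus edges
plus crossings equals 2, for every connected component with crossings.  There are twice as many edges
as crossings, so Euler's formula for all components says `nFaces mate = |E| + 2 * nComps mate`, and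
conversely this equation says that the cyclic orders at the crossings come from a drawing on the
sphere.  (How several connected components are placed on the sphere plays no role for the chain
complex.)  Over and under strands are encoded by the numbering of the ends; the orientation of the
link only enters through the numbers `np` and `nm` of positive and negative crossings.

## States, gradings
A state is given by the set `K` of the crossings with 1-resolution; its circles are the classes of
the relation `Same mate K` on the ends, and the elements of `C`.  The label of a circle is `true` for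
the generator x and `false` for the generator 1.
-/

namespace Pool.Agent.Y465.SZ

variable {E : Type} [Fintype E] [DecidableEq E]

/-! ### resolutions and their circles -/

/-- pairing of the four ends: resolution `false` pairs 0-3 and 1-2, resolution `true` pairs 0-1 and 2-3 -/
def par (s : Bool) (i : Fin 4) : Fin 4 := if s then ![1, 0, 3, 2] i else ![3, 2, 1, 0] i

/-- the pairing at the crossings for the state `K` -/
def tau (K : Finset E) (h : E × Fin 4) : E × Fin 4 := (h.1, par (decide (h.1 ∈ K)) h.2)

/-- labellings constant along the circles of the state `K` -/
def Inv (mate : E × Fin 4 → E × Fin 4) (K : Finset E) (f : E × Fin 4 → Bool) : Prop :=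
  (∀ h, f (mate h) = f h) ∧ ∀ h, f (tau K h) = f h

/-- two ends lie on the same circle of the state `K` -/
def Same (mate : E × Fin 4 → E × Fin 4) (K : Finset E) (h h' : E × Fin 4) : Prop :=
  ∀ f, Inv mate K f → f h = f h'

/-- number of circles of the state `K` contained in `g` -/
noncomputable def cn (mate : E × Fin 4 → E × Fin 4) (K : Finset E) (g : E × Fin 4 → Bool) : ℕ :=
  Set.ncard {c : Set (E × Fin 4) | ∃ h, g h = true ∧ c = {h' | Same mate K h h'}}

/-- number of faces of the diagram: the corner between the ends `i` and `i + 1` of the crossing `e`
is denoted `(e, i)`, and walking along the edge which starts at the end `i` one comes from the corner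
`(e, i)` to the corner `(mate (e, i)) - 1` of the same face -/
noncomputable def nFaces (mate : E × Fin 4 → E × Fin 4) : ℕ :=
  Nat.card (Quot fun a b : E × Fin 4 => b = ((mate a).1, (mate a).2 - 1))

/-- number of connected components of the diagram as a graph with the vertices `E` -/
noncomputable def nComps (mate : E × Fin 4 → E × Fin 4) : ℕ :=
  Nat.card (Quot fun a b : E => ∃ i j, mate (a, i) = (b, j))

/-- labelled states (monomials): a state `K` and a labelling `f` of its circles, where `true` is the
generator x and `false` the generator 1 -/
@[ext] structure Cfg (mate : E × Fin 4 → E × Fin 4) where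
  K : Finset E
  f : E × Fin 4 → Bool
  inv : Inv mate K f

noncomputable instance (mate : E × Fin 4 → E × Fin 4) : Fintype (Cfg mate) :=
  Fintype.ofInjective (fun x => (x.K, x.f)) (by
    intro a b h
    simp only [Prod.mk.injEq] at h
    exact Cfg.ext h.1 h.2)

noncomputable instance (mate : E × Fin 4 → E × Fin 4) : DecidableEq (Cfg mate) := Classical.decEq _

/-- linear operators on the span of the labelled states; the entry `M y x` is the coefficient of `y`
in `M x` -/
abbrev Op (mate : E × Fin 4 → E × Fin 4) := Matrix (Cfg mate) (Cfg mate) (ZMod 2)

/-- the operator with entries in {0,1} given by a relation (source first) -/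
noncomputable def ind {mate : E × Fin 4 → E × Fin 4} (p : Cfg mate → Cfg mate → Prop) : Op mate :=
  open Classical in Matrix.of fun y x => if p x y then 1 else 0

/-! ### gradings -/

variable {mate : E × Fin 4 → E × Fin 4}

/-- the grading `gr`: number of circles labelled 1 minus number of circles labelled x -/
noncomputable def gr (x : Cfg mate) : ℤ :=
  (cn mate x.K (fun h => !x.f h) : ℤ) - (cn mate x.K x.f : ℤ)

/-- homological grading, `nm` is the number of negative crossings -/
def hdeg (nm : ℤ) (x : Cfg mate) : ℤ := (x.K.card : ℤ) - nm

/-- quantum grading, `np` and `nm` are the numbers of positive and negative crossings -/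
noncomputable def qdeg (np nm : ℤ) (x : Cfg mate) : ℤ := gr x + x.K.card + np - 2 * nm

/-! ### the surgery arcs and their decoration

At the crossing `e` with 0-resolution the surgery arc joins the strand through the ends 0, 3 with the
strand through the ends 1, 2; it is oriented from the strand of `tl t e` to the strand of `hd t e`,
one of these is the end 0 and the other one the end 2.  After the change of the resolution the dual
arc, which is the arc turned by a quarter turn (in the same sense for all crossings), joins the strand
through 0, 1 with the strand through 2, 3, and goes again from the strand of `tl t e` to the strand of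
`hd t e`. -/

/-- the point `(e, true)` is the end 2 of the crossing, `(e, false)` the end 0 -/
def pt (p : E × Bool) : E × Fin 4 := (p.1, if p.2 then 2 else 0)

/-- head of the arc of the crossing `e` for the decoration `t` -/
def hd (t : E → Bool) (e : E) : E × Fin 4 := pt (e, t e)

/-- tail of the arc of the crossing `e` for the decoration `t` -/
def tl (t : E → Bool) (e : E) : E × Fin 4 := pt (e, !t e)

/-! ### Szabo's configurations

`A` is the set of arcs, the point `(e, true)` or `(e, false)` is the end 2 or 0 of the arc `e`, the
head of `e` is `(e, t e)`; `R` is the relation of lying on one circle before surgery (for the dual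
types: of the dual configuration) and `R1 e` the same relation after surgery along the single arc `e`,
`S` is the set of all arcs of the configuration. -/

/-- type A: the arcs of `S` run from one circle to another one -/
def TA {A : Type} (R : A × Bool → A × Bool → Prop) (t : A → Bool) (S : Finset A) : Prop :=
  (∀ e ∈ S, ∀ f ∈ S, R (e, t e) (f, t f) ∧ R (e, !t e) (f, !t f)) ∧
    ∀ e ∈ S, ¬ R (e, t e) (e, !t e)

/-- type C for arcs of two kinds (the two sides of the circle): all arcs of `S` have their ends on one
circle, both kinds occur, and any two arcs `e`, `f` of different kinds are interlaced with the sign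
`s`: after surgery along `e` the head of `f` is on the circle of the head (for `s = true`) or of the
tail (for `s = false`) of the dual arc of `e`, and the tail of `f` on the other one -/
def TC {A : Type} (s : Bool) (kind : A → Bool) (R : A × Bool → A × Bool → Prop)
    (R1 : A → A × Bool → A × Bool → Prop) (t : A → Bool) (S : Finset A) : Prop :=
  (∀ e ∈ S, ∀ f ∈ S, R (e, t e) (f, t f) ∧ R (e, t e) (f, !t f)) ∧
    (∃ e ∈ S, kind e = true) ∧ (∃ e ∈ S, kind e = false) ∧
    ∀ e ∈ S, ∀ f ∈ S, kind e ≠ kind f →
      R1 e (f, t f) (e, if s then t e else !t e) ∧ R1 e (f, !t f) (e, if s then !t e else t e)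

/-- type C: the arcs of `S` can be divided into those on the two sides of their circle such that `TC`
holds and two arcs on the same side are not interlaced -/
def TD {A : Type} (s : Bool) (R : A × Bool → A × Bool → Prop)
    (R1 : A → A × Bool → A × Bool → Prop) (t : A → Bool) (S : Finset A) : Prop :=
  ∃ side : A → Bool, TC s side R R1 t S ∧
    ∀ e ∈ S, ∀ f ∈ S, e ≠ f → side e = side f → R1 e (f, true) (f, false)

/-- the labelled states `x`, `y` form a configuration of type A or C with all active labels 1 (before
and after) or of the dual type B or D with all active labels x (before and after); passive circles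
keep their labels.  For the types B and D the dual configuration is considered: the circles of the
state of `y` with the dual arcs.  After surgery along the dual arc of `e` (back to `y.K.erase e`) the
circles of `(e, t e)` and `(e, !t e)` are those of the head and the tail of the arc `e` itself, that
is, of the dual arc turned back by a quarter turn, which is the mirror image of the rule for type C
(as in Szabo's duality rule) -/
def TypeABCD (s : Bool) (t : E → Bool) (x y : Cfg mate) : Prop :=
  x.K ⊆ y.K ∧ (y.K \ x.K).Nonempty ∧ x.f = y.f ∧
  (((∀ e ∈ y.K \ x.K, x.f (e, 0) = false ∧ x.f (e, 2) = false) ∧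
      (TA (fun p q => Same mate x.K (pt p) (pt q)) t (y.K \ x.K) ∨
       TD s (fun p q => Same mate x.K (pt p) (pt q))
         (fun e p q => Same mate (insert e x.K) (pt p) (pt q)) t (y.K \ x.K))) ∨
   ((∀ e ∈ y.K \ x.K, x.f (e, 0) = true ∧ x.f (e, 2) = true) ∧
      (TA (fun p q => Same mate y.K (pt p) (pt q)) t (y.K \ x.K) ∨
       TD s (fun p q => Same mate y.K (pt p) (pt q))
         (fun e p q => Same mate (y.K.erase e) (pt p) (pt q)) t (y.K \ x.K))))

/-- the labelled states `x`, `y` form a configuration of type E: all heads lie on one circle before
and on one circle after (the central circles); every arc joins its own leaf circle to the central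
circle or splits its own leaf circle off the central circle; labels: central circle 1 and leaves x
before, central circle x and leaves 1 after; the passive circles keep their labels -/
def Star (t : E → Bool) (x y : Cfg mate) : Prop :=
  x.K ⊆ y.K ∧ (y.K \ x.K).Nonempty ∧
  (∀ e ∈ y.K \ x.K, ∀ f ∈ y.K \ x.K,
    Same mate x.K (hd t e) (hd t f) ∧ Same mate y.K (hd t e) (hd t f)) ∧
  (∀ e ∈ y.K \ x.K, x.f (hd t e) = false ∧ y.f (hd t e) = true) ∧
  (∀ e ∈ y.K \ x.K,
    (¬ Same mate x.K (tl t e) (hd t e) ∧ Same mate y.K (tl t e) (hd t e) ∧ x.f (tl t e) = true ∧
      ∀ f ∈ y.K \ x.K, f ≠ e → ¬ Same mate x.K (tl t e) (tl t f)) ∨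
    (Same mate x.K (tl t e) (hd t e) ∧ ¬ Same mate y.K (tl t e) (hd t e) ∧ y.f (tl t e) = false ∧
      ∀ f ∈ y.K \ x.K, f ≠ e → ¬ Same mate y.K (tl t e) (tl t f))) ∧
  (∀ h, (∀ e ∈ y.K \ x.K, ¬ Same mate x.K h (hd t e) ∧ ¬ Same mate x.K h (tl t e)) →
    y.f h = x.f h)

/-- the pair has bidegree `(k, 2 k - 2)`, `k` the number of new crossings -/
def Bid (x y : Cfg mate) : Prop := gr y = gr x + ((y.K.card : ℤ) - x.K.card) - 2

/-- Szabo's differential for the decoration `t`: the sum over all configurations of the types A, B,
C, D, E (for type E the arcs may all run to the central circle or all away from it); `s` is the sign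
convention for the interlaced arcs in the types C and D -/
noncomputable def szD (mate : E × Fin 4 → E × Fin 4) (s : Bool) (t : E → Bool) : Op mate :=
  ind (fun x y => Bid x y ∧ Star t x y) + ind (fun x y => Bid x y ∧ Star (fun e => !t e) x y) +
    ind (fun x y => Bid x y ∧ TypeABCD s t x y)

/-! ### additional circles without crossings -/

/-- quantum grading on the monomials of a diagram with the additional circles `C` -/
noncomputable def qC (C : Type) [Fintype C] (np nm : ℤ) (x : Cfg mate × (C → Bool)) : ℤ :=
  qdeg np nm x.1 + ∑ c, if x.2 c then (-1 : ℤ) else 1

/-- label of the circle through the base point `P` -/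
def lab {C : Type} (P : (E × Fin 4) ⊕ C) (x : Cfg mate × (C → Bool)) : Bool := Sum.elim x.1.f x.2 P

/-- Szabo's differential on the chain group of the diagram with the additional circles `C`, whose
labels do not change: Kronecker product with the identity -/
noncomputable def szC (mate : E × Fin 4 → E × Fin 4) (C : Type) [Fintype C] [DecidableEq C]
    (s : Bool) (t : E → Bool) : Matrix (Cfg mate × (C → Bool)) (Cfg mate × (C → Bool)) (ZMod 2) :=
  Matrix.kroneckerMap (fun a b => a * b) (szD mate s t) 1

/-! ### pages of the spectral sequence of a filtered complex -/

section pages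

variable {V : Type} [AddCommGroup V] [Module (ZMod 2) V]

/-- elements of filtration `a` and degree `s` whose image has filtration `a + k` -/
def Zp (F : ℤ → ℤ → Submodule (ZMod 2) V) (d : V →ₗ[ZMod 2] V) (k : ℕ) (a s : ℤ) :
    Submodule (ZMod 2) V := F a s ⊓ (F (a + k) (s - 2)).comap d

/-- the boundaries in `Zp F d k a s`: the elements of higher filtration with image in `F (a + k)` and
the images of the elements of `F (a - k + 1)` whose image lies in `F a` -/
def Bp (F : ℤ → ℤ → Submodule (ZMod 2) V) (d : V →ₗ[ZMod 2] V) (k : ℕ) (a s : ℤ) :
    Submodule (ZMod 2) (Zp F d k a s) :=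
  Submodule.comap (Zp F d k a s).subtype
    (Zp F d (k - 1) (a + 1) s ⊔ (Zp F d (k - 1) (a - k + 1) (s + 2)).map d)

/-- the page `E^k` of a filtered graded module with operator `d`: the quotient of `Zp` by `Bp` -/
def EPage (F : ℤ → ℤ → Submodule (ZMod 2) V) (d : V →ₗ[ZMod 2] V) (k : ℕ) (a s : ℤ) : Type :=
  Zp F d k a s ⧸ Bp F d k a s

instance EPage.grp (F : ℤ → ℤ → Submodule (ZMod 2) V) (d : V →ₗ[ZMod 2] V) (k : ℕ) (a s : ℤ) :
    AddCommGroup (EPage F d k a s) :=
  Submodule.Quotient.addCommGroup (Bp F d k a s)

instance EPage.mod (F : ℤ → ℤ → Submodule (ZMod 2) V) (d : V →ₗ[ZMod 2] V) (k : ℕ) (a s : ℤ) :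
    Module (ZMod 2) (EPage F d k a s) :=
  Submodule.Quotient.module (Bp F d k a s)

end pages

/-- chains of homological grading at least `a` whose quantum grading minus twice the homological
grading is `c` -/
def Fil {X : Type} (hh qq : X → ℤ) (a c : ℤ) : Submodule (ZMod 2) (X → ZMod 2) where
  carrier := {v | ∀ x, v x ≠ 0 → a ≤ hh x ∧ qq x - 2 * hh x = c}
  add_mem' := by
    intro u v hu hv x hx
    by_cases h : u x = 0
    · apply hv
      intro h2
      apply hx
      rw [Pi.add_apply, h, h2, add_zero]
    · exact hu x h
  zero_mem' := by
    intro x hx
    exact absurd rfl hx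
  smul_mem' := by
    intro r v hv x hx
    apply hv
    intro h2
    apply hx
    rw [Pi.smul_apply, h2, smul_zero]

/-! ### the pages of Szabo's spectral sequence

The component of the differential which raises the homological grading by `k` raises the quantum
grading by `2 k - 2`, so that the quantum grading minus twice the homological grading drops by 2; it
is equal to `b - 2 * a` in bigrading `(a, b)`. -/

/-- the page `E^k(L)` in bigrading `(a, b)` -/
def UPage (mate : E × Fin 4 → E × Fin 4) (C : Type) [Fintype C] [DecidableEq C] (s : Bool)
    (t : E → Bool) (np nm : ℤ) (k : ℕ) (a b : ℤ) : Type :=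
  EPage (Fil (fun x : Cfg mate × (C → Bool) => hdeg nm x.1) (fun x => qC C np nm x))
    (szC mate C s t).mulVecLin k a (b - 2 * a)

noncomputable instance UPage.grp (mate : E × Fin 4 → E × Fin 4) (C : Type) [Fintype C]
    [DecidableEq C] (s : Bool) (t : E → Bool) (np nm : ℤ) (k : ℕ) (a b : ℤ) :
    AddCommGroup (UPage mate C s t np nm k a b) :=
  EPage.grp _ _ _ _ _

noncomputable instance UPage.mod (mate : E × Fin 4 → E × Fin 4) (C : Type) [Fintype C]
    [DecidableEq C] (s : Bool) (t : E → Bool) (np nm : ℤ) (k : ℕ) (a b : ℤ) :
    Module (ZMod 2) (UPage mate C s t np nm k a b) :=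
  EPage.mod _ _ _ _ _

/-- basis of the reduced complex: monomials divisible by `x(P)` -/
abbrev RedBasis (mate : E × Fin 4 → E × Fin 4) (C : Type) (P : (E × Fin 4) ⊕ C) : Type :=
  {x : Cfg mate × (C → Bool) // lab P x = true}

/-- the page of the reduced spectral sequence in bigrading `(a, b)`: the complex is the span of the
monomials divisible by `x(P)`, with the restricted differential and the quantum grading raised by 1 -/
def RPage (mate : E × Fin 4 → E × Fin 4) (C : Type) [Fintype C] [DecidableEq C] (s : Bool)
    (t : E → Bool) (np nm : ℤ) (P : (E × Fin 4) ⊕ C) (k : ℕ) (a b : ℤ) : Type :=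
  EPage (Fil (fun x : RedBasis mate C P => hdeg nm x.1.1) (fun x => qC C np nm x.1 + 1))
    ((szC mate C s t).submatrix Subtype.val Subtype.val).mulVecLin k a (b - 2 * a)

noncomputable instance RPage.grp (mate : E × Fin 4 → E × Fin 4) (C : Type) [Fintype C]
    [DecidableEq C] (s : Bool) (t : E → Bool) (np nm : ℤ) (P : (E × Fin 4) ⊕ C) (k : ℕ) (a b : ℤ) :
    AddCommGroup (RPage mate C s t np nm P k a b) :=
  EPage.grp _ _ _ _ _

noncomputable instance RPage.mod (mate : E × Fin 4 → E × Fin 4) (C : Type) [Fintype C]
    [DecidableEq C] (s : Bool) (t : E → Bool) (np nm : ℤ) (P : (E × Fin 4) ⊕ C) (k : ℕ) (a b : ℤ) :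
    Module (ZMod 2) (RPage mate C s t np nm P k a b) :=
  EPage.mod _ _ _ _ _

end Pool.Agent.Y465.SZ
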