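import Pool.Agent.Y465.SZ.Base

/-!
Project Y465-SZ: Szabo's complex over local transfer rules (definitions).
A diagram is given by a type `E` of crossings, half-edges `E × Fin 4` (four ends in cyclic order
at every crossing) and the fixed point free involution `mate` which joins the ends.
-/

set_option linter.unusedSectionVars false

namespace Pool.Agent.Y465.SZ

variable {E : Type} [Fintype E] [DecidableEq E]

/-- change of the state at one crossing -/
def tog (K : Finset E) (e : E) : Finset E := if e ∈ K then K.erase e else insert e K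

/-- weight `|K| - gr(K, f)` of a labelled state; `true` is the label `x`, `false` the label `1` -/
noncomputable def wt (mate : E × Fin 4 → E × Fin 4) (K : Finset E) (f : E × Fin 4 → Bool) : ℤ :=
  (K.card : ℤ) - ((cn mate K (fun h => !f h) : ℤ) - (cn mate K f : ℤ))

/-- weight of a labelled state -/
noncomputable def Cfg.w {mate : E × Fin 4 → E × Fin 4} (x : Cfg mate) : ℤ := wt mate x.K x.f

/-- local rule: the label changes from 1 to x at all heads and does not change at the tails of the
arcs of the crossings which change -/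
def LP {mate : E × Fin 4 → E × Fin 4} (t : E → Bool) (x y : Cfg mate) : Prop :=
  x.K ⊆ y.K ∧ (∀ h, x.f h = true → y.f h = true) ∧
    ∀ e ∈ y.K, e ∉ x.K → x.f (hd t e) = false ∧ y.f (hd t e) = true ∧ x.f (tl t e) = y.f (tl t e)

/-- the operator `L_0` of the decoration `t` -/
noncomputable def L0 {mate : E × Fin 4 → E × Fin 4} (t : E → Bool) : Op mate :=
  ind fun x y => LP t x y ∧ y.w = x.w + 2

/-- the operator `L_j` -/
noncomputable def LL {mate : E × Fin 4 → E × Fin 4} (t : E → Bool) (j : E × Fin 4) : Op mate :=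
  ind fun x y => (LP t x y ∧ y.w = x.w + 2) ∧ x.f j = false ∧ y.f j = true

/-- projection on the label x at `j` -/
noncomputable def pr {mate : E × Fin 4 → E × Fin 4} (j : E × Fin 4) : Op mate :=
  ind fun x y => x = y ∧ x.f j = true

/-- label preserving maps 1 -> 1·1 and x·x -> x at the crossing `e` -/
noncomputable def ue {mate : E × Fin 4 → E × Fin 4} (e : E) : Op mate :=
  ind fun x y => e ∉ x.K ∧ y.K = insert e x.K ∧ y.f = x.f ∧ y.w = x.w

/-- label preserving part of Szabo's differential: types A, C (labels 1), B, D (labels x) -/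
noncomputable def dl {mate : E × Fin 4 → E × Fin 4} (col : E × Fin 4 → Bool) (s : Bool)
    (t : E → Bool) : Op mate :=
  ind fun x y => (x.f = y.f ∧ x.K ⊆ y.K ∧ (y.K \ x.K).Nonempty ∧ y.w = x.w + 2) ∧
    (((∀ e ∈ y.K \ x.K, x.f (e, 0) = false ∧ x.f (e, 2) = false) ∧
        (TA (fun p q => Same mate x.K (pt p) (pt q)) t (y.K \ x.K) ∨
         TC s (fun e => col (e, 0)) (fun p q => Same mate x.K (pt p) (pt q))
           (fun e p q => Same mate (insert e x.K) (pt p) (pt q)) t (y.K \ x.K))) ∨
     ((∀ e ∈ y.K \ x.K, x.f (e, 0) = true ∧ x.f (e, 2) = true) ∧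
        (TA (fun p q => Same mate y.K (pt p) (pt q)) t (y.K \ x.K) ∨
         TC s (fun e => col (e, 0)) (fun p q => Same mate y.K (pt p) (pt q))
           (fun e p q => Same mate (y.K.erase e) (pt p) (pt q)) t (y.K \ x.K))))

/-- flipped decoration -/
def ft (t : E → Bool) (e : E) : E → Bool := Function.update t e (!t e)

/-- orientability: exactly one of the two resolutions of `e` joins the two ends -/
def Ori (mate : E × Fin 4 → E × Fin 4) : Prop :=
  ∀ (K : Finset E) (e : E), Same mate (tog K e) (e, 0) (e, 2) ↔ ¬ Same mate K (e, 0) (e, 2)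

/-- planar diagrams with a checkerboard colouring -/
structure Dia (mate : E × Fin 4 → E × Fin 4) (col : E × Fin 4 → Bool) : Prop where
  mm : ∀ h, mate (mate h) = h
  cm : ∀ h, col (mate h) = !col h
  ca : ∀ e i, col (e, i + 1) = !col (e, i)
  pl : ∀ (K : Finset E) (e f : E), e ≠ f → Same mate K (e, 0) (e, 2) → Same mate K (f, 0) (f, 2) →
    ¬ Same mate (tog K e) (f, 0) (f, 2) → (col (e, 0) ^^ decide (e ∈ K)) ≠ (col (f, 0) ^^ decide (f ∈ K))

/-! ### basic lemmas -/

variable {mate : E × Fin 4 → E × Fin 4}

theorem ind_apply (p : Cfg mate → Cfg mate → Prop) (x y : Cfg mate) [Decidable (p x y)] :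
    ind p y x = if p x y then 1 else 0 := by
  unfold ind
  simp only [Matrix.of_apply]
  congr

theorem ind_eq_one {p : Cfg mate → Cfg mate → Prop} {x y : Cfg mate} (h : p x y) :
    ind p y x = 1 := by
  classical
  rw [ind_apply, if_pos h]

theorem ind_eq_zero {p : Cfg mate → Cfg mate → Prop} {x y : Cfg mate} (h : ¬ p x y) :
    ind p y x = 0 := by
  classical
  rw [ind_apply, if_neg h]

theorem ind_ne_zero {p : Cfg mate → Cfg mate → Prop} {x y : Cfg mate} (h : ind p y x ≠ 0) :
    p x y := by
  by_contra hn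
  exact h (ind_eq_zero hn)

theorem ind_mul_apply (p q : Cfg mate → Cfg mate → Prop) (x y : Cfg mate)
    [DecidablePred fun z : Cfg mate => q x z ∧ p z y] :
    (ind p * ind q) y x = ((Finset.univ.filter fun z : Cfg mate => q x z ∧ p z y).card : ZMod 2) := by
  classical
  rw [Matrix.mul_apply, Finset.card_filter]
  push_cast
  apply Finset.sum_congr rfl
  intro z _
  rw [ind_apply, ind_apply]
  by_cases h1 : p z y <;> by_cases h2 : q x z <;> simp [h1, h2]

theorem par_false (i : Fin 4) : par false i = ![3, 2, 1, 0] i := rfl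
theorem par_true (i : Fin 4) : par true i = ![1, 0, 3, 2] i := rfl

theorem tau_mem {K : Finset E} {e : E} (h : e ∈ K) (i : Fin 4) : tau K (e, i) = (e, ![1, 0, 3, 2] i) := by
  unfold tau par
  simp [h]

theorem tau_not_mem {K : Finset E} {e : E} (h : e ∉ K) (i : Fin 4) :
    tau K (e, i) = (e, ![3, 2, 1, 0] i) := by
  unfold tau par
  simp [h]

/-- the invariance conditions at one crossing -/
theorem Inv.slots_mem {K : Finset E} {f : E × Fin 4 → Bool} (h : Inv mate K f) {e : E} (he : e ∈ K) :
    f (e, 1) = f (e, 0) ∧ f (e, 3) = f (e, 2) := by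
  have h0 := h.2 (e, 0)
  have h2 := h.2 (e, 2)
  rw [tau_mem he] at h0 h2
  exact ⟨h0, h2⟩

theorem Inv.slots_not_mem {K : Finset E} {f : E × Fin 4 → Bool} (h : Inv mate K f) {e : E}
    (he : e ∉ K) : f (e, 3) = f (e, 0) ∧ f (e, 1) = f (e, 2) := by
  have h0 := h.2 (e, 0)
  have h2 := h.2 (e, 2)
  rw [tau_not_mem he] at h0 h2
  exact ⟨h0, h2⟩

theorem inv_iff (K : Finset E) (f : E × Fin 4 → Bool) :
    Inv mate K f ↔ (∀ h, f (mate h) = f h) ∧
      ∀ e, (e ∈ K → f (e, 1) = f (e, 0) ∧ f (e, 3) = f (e, 2)) ∧
        (e ∉ K → f (e, 3) = f (e, 0) ∧ f (e, 1) = f (e, 2)) := by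
  constructor
  · intro h
    exact ⟨h.1, fun e => ⟨fun he => h.slots_mem he, fun he => h.slots_not_mem he⟩⟩
  · rintro ⟨h1, h2⟩
    refine ⟨h1, ?_⟩
    rintro ⟨e, i⟩
    by_cases he : e ∈ K
    · obtain ⟨a, b⟩ := (h2 e).1 he
      rw [tau_mem he]
      fin_cases i
      · exact a
      · exact a.symm
      · exact b
      · exact b.symm
    · obtain ⟨a, b⟩ := (h2 e).2 he
      rw [tau_not_mem he]
      fin_cases i
      · exact a
      · exact b.symm
      · exact b
      · exact a.symm

/-- a labelling which takes the same value at the ends 0 and 2 of every crossing where two states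
differ is invariant for both states or for none -/
theorem inv_congr {K K' : Finset E} {f : E × Fin 4 → Bool} (h : Inv mate K f)
    (hf : ∀ e, (e ∈ K ↔ ¬ e ∈ K') → f (e, 0) = f (e, 2)) : Inv mate K' f := by
  rw [inv_iff] at h ⊢
  refine ⟨h.1, fun e => ?_⟩
  by_cases he : e ∈ K <;> by_cases he' : e ∈ K'
  · exact ⟨fun _ => (h.2 e).1 he, fun hn => absurd he' hn⟩
  · have h0 := hf e (by simp [he, he'])
    obtain ⟨a, b⟩ := (h.2 e).1 he
    exact ⟨fun hn => absurd hn he', fun _ => ⟨by rw [b, h0], by rw [a, h0]⟩⟩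
  · have h0 := hf e (by simp [he, he'])
    obtain ⟨a, b⟩ := (h.2 e).2 he
    exact ⟨fun _ => ⟨by rw [b, h0], by rw [a, h0]⟩, fun hn => absurd he' hn⟩
  · exact ⟨fun hn => absurd hn he', fun _ => (h.2 e).2 he⟩

/-- a labelling invariant for two states takes the same value at all ends of a crossing where the
states differ -/
theorem inv_const {K K' : Finset E} {f : E × Fin 4 → Bool} (h : Inv mate K f) (h' : Inv mate K' f)
    {e : E} (he : e ∈ K) (he' : e ∉ K') (i : Fin 4) : f (e, i) = f (e, 0) := by
  obtain ⟨a, b⟩ := h.slots_mem he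
  obtain ⟨c, d⟩ := h'.slots_not_mem he'
  fin_cases i
  · rfl
  · exact a
  · exact d.symm.trans a
  · exact c

theorem Same.refl (K : Finset E) (h : E × Fin 4) : Same mate K h h := fun _ _ => rfl
theorem Same.symm {K : Finset E} {h h' : E × Fin 4} (a : Same mate K h h') : Same mate K h' h :=
  fun f hf => (a f hf).symm
theorem Same.trans {K : Finset E} {h h' h'' : E × Fin 4} (a : Same mate K h h')
    (b : Same mate K h' h'') : Same mate K h h'' :=
  fun f hf => (a f hf).trans (b f hf)

/-- the indicator of a circle is invariant -/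
theorem inv_class (K : Finset E) (h : E × Fin 4) [DecidablePred fun h' => Same mate K h h'] :
    Inv mate K (fun h' => decide (Same mate K h h')) := by
  constructor
  · intro h'
    have : Same mate K h (mate h') ↔ Same mate K h h' := by
      constructor
      · intro a f hf
        rw [a f hf, hf.1]
      · intro a f hf
        rw [a f hf, hf.1]
    simp [this]
  · intro h'
    have : Same mate K h (tau K h') ↔ Same mate K h h' := by
      constructor
      · intro a f hf
        rw [a f hf, hf.2]
      · intro a f hf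
        rw [a f hf, hf.2]
    simp [this]

theorem Inv.and {K : Finset E} {f g : E × Fin 4 → Bool} (hf : Inv mate K f) (hg : Inv mate K g) :
    Inv mate K (fun h => f h && g h) :=
  ⟨fun h => by simp [hf.1 h, hg.1 h], fun h => by simp [hf.2 h, hg.2 h]⟩

theorem Inv.or {K : Finset E} {f g : E × Fin 4 → Bool} (hf : Inv mate K f) (hg : Inv mate K g) :
    Inv mate K (fun h => f h || g h) :=
  ⟨fun h => by simp [hf.1 h, hg.1 h], fun h => by simp [hf.2 h, hg.2 h]⟩

theorem Inv.not {K : Finset E} {f : E × Fin 4 → Bool} (hf : Inv mate K f) :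
    Inv mate K (fun h => !f h) :=
  ⟨fun h => by simp [hf.1 h], fun h => by simp [hf.2 h]⟩

end Pool.Agent.Y465.SZ
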