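import Pool.Agent.Y465.SZ.Asm4

/-!
Project Y465-SZ: the splitting of the pages for an arbitrary basis `X`.
-/

set_option linter.unusedSectionVars false

namespace Pool.Agent.Y465.SZ

/-- projection on the part of the basis where `p` holds -/
def prX {X : Type} [DecidableEq X] (p : X → Bool) : Matrix X X (ZMod 2) :=
  Matrix.of fun y x => if y = x ∧ p x = true then 1 else 0

theorem prX_mul_apply {X : Type} [Fintype X] [DecidableEq X] (p : X → Bool)
    (M : Matrix X X (ZMod 2)) (x y : X) :
    (prX p * M) y x = if p y = true then M y x else 0 := by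
  rw [Matrix.mul_apply, Finset.sum_eq_single y]
  · unfold prX
    simp only [Matrix.of_apply, true_and]
    split_ifs <;> simp
  · intro z _ hz
    have : prX p y z = 0 := by
      unfold prX
      simp only [Matrix.of_apply]
      rw [if_neg]
      rintro ⟨h, _⟩
      exact hz h.symm
    rw [this, zero_mul]
  · intro h
    exact absurd (Finset.mem_univ _) h

theorem mul_prX_apply {X : Type} [Fintype X] [DecidableEq X] (p : X → Bool)
    (M : Matrix X X (ZMod 2)) (x y : X) :
    (M * prX p) y x = if p x = true then M y x else 0 := by
  rw [Matrix.mul_apply, Finset.sum_eq_single x]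
  · unfold prX
    simp only [Matrix.of_apply, true_and]
    split_ifs <;> simp
  · intro z _ hz
    have : prX p z x = 0 := by
      unfold prX
      simp only [Matrix.of_apply]
      rw [if_neg]
      rintro ⟨h, _⟩
      exact hz h
    rw [this, mul_zero]
  · intro h
    exact absurd (Finset.mem_univ _) h

/-- the splitting of the pages from the homotopy data -/
theorem pages_gen (hP : S_PAG) {X : Type} [Fintype X] [DecidableEq X] (hh qq : X → ℤ) (p : X → Bool)
    (M nu L : Matrix X X (ZMod 2)) (hMm : M * prX p = prX p * M * prX p)
    (hnu : ∀ x y, nu y x ≠ 0 → hh x ≤ hh y ∧ qq y - 2 * hh y = qq x - 2 * hh x + 2)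
    (hL : ∀ x y, L y x ≠ 0 → hh x ≤ hh y ∧ qq y - 2 * hh y = qq x - 2 * hh x - 2)
    (hLp : prX p * L = L) (hpL : L * prX p = 0)
    (hMnu : M * nu = nu * M) (hML : M * L = L * M) (hLnu : L * nu + nu * L = 1)
    (k : ℕ) (a b : ℤ) :
    Nonempty (SPage hh qq M k a b ≃ₗ[ZMod 2]
      (SPage (X := {x : X // p x = true}) (fun x => hh x.1) (fun x => qq x.1 + 1)
          (M.submatrix Subtype.val Subtype.val) k a (b + 1) ×
        SPage (X := {x : X // p x = true}) (fun x => hh x.1) (fun x => qq x.1 + 1)
          (M.submatrix Subtype.val Subtype.val) k a (b - 1))) := by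
  classical
  -- inclusion and restriction
  let io : ({x : X // p x = true} → ZMod 2) →ₗ[ZMod 2] (X → ZMod 2) :=
    { toFun := fun v x => if h : p x = true then v ⟨x, h⟩ else 0
      map_add' := by
        intro u v
        funext x
        by_cases h : p x = true
        · simp [h]
        · simp [h]
      map_smul' := by
        intro r v
        funext x
        by_cases h : p x = true
        · simp [h]
        · simp [h] }
  let re : (X → ZMod 2) →ₗ[ZMod 2] ({x : X // p x = true} → ZMod 2) :=
    { toFun := fun v x => v x.1
      map_add' := fun u v => rfl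
      map_smul' := fun r v => rfl }
  have hre : ∀ v, re (io v) = v := by
    intro v
    funext x
    simp only [re, io, LinearMap.coe_mk, AddHom.coe_mk]
    rw [dif_pos x.2]
  have hpr : ∀ v : X → ZMod 2, io (re v) = (prX p).mulVec v := by
    intro v
    funext x
    simp only [re, io, LinearMap.coe_mk, AddHom.coe_mk]
    rw [Matrix.mulVec, dotProduct, Finset.sum_eq_single x]
    · by_cases h : p x = true
      · rw [dif_pos h]
        have : prX p x x = 1 := by unfold prX; simp [h]
        rw [this, one_mul]
      · rw [dif_neg h]
        have : prX p x x = 0 := by unfold prX; simp [h]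
        rw [this, zero_mul]
    · intro z _ hz
      have : prX p x z = 0 := by
        unfold prX
        simp only [Matrix.of_apply]
        rw [if_neg]
        rintro ⟨h, _⟩
        exact hz h.symm
      rw [this, zero_mul]
    · intro h
      exact absurd (Finset.mem_univ _) h
  have hpio : ∀ v, (prX p).mulVec (io v) = io v := by
    intro v
    rw [← hpr, hre]
  have hLio : ∀ v, L.mulVec (io v) = 0 := by
    intro v
    rw [← hpio v, Matrix.mulVec_mulVec, hpL, Matrix.zero_mulVec]
  have hioL : ∀ v, io (re (L.mulVec v)) = L.mulVec v := by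
    intro v
    rw [hpr, Matrix.mulVec_mulVec, hLp]
  have hioM : ∀ v, io (re (M.mulVec (io v))) = M.mulVec (io v) := by
    intro v
    rw [hpr, ← hpio v, Matrix.mulVec_mulVec, Matrix.mulVec_mulVec, ← hMm, Matrix.mulVec_mulVec]
  have hMsub : ∀ v, (M.submatrix Subtype.val Subtype.val : Matrix {x : X // p x = true}
      {x : X // p x = true} (ZMod 2)).mulVec v = re (M.mulVec (io v)) := by
    intro v
    funext x
    simp only [re, io, LinearMap.coe_mk, AddHom.coe_mk, Matrix.mulVec, dotProduct,
      Matrix.submatrix_apply]
    have h1 : ∑ z : X, M x.1 z * (if h : p z = true then v ⟨z, h⟩ else 0) =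
        ∑ z ∈ Finset.univ.filter (fun z : X => p z = true),
          M x.1 z * (if h : p z = true then v ⟨z, h⟩ else 0) := by
      symm
      apply Finset.sum_subset (Finset.filter_subset _ _)
      intro z _ hz
      have : ¬ p z = true := fun h => hz (by simp [h])
      rw [dif_neg this, mul_zero]
    rw [h1]
    rw [Finset.sum_subtype (Finset.univ.filter (fun z : X => p z = true))
      (p := fun z => p z = true) (by simp)
      (fun z => M x.1 z * (if h : p z = true then v ⟨z, h⟩ else 0))]
    apply Finset.sum_congr rfl
    intro z _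
    rw [dif_pos z.2]
  have h0 : ∀ w : X → ZMod 2, w + w = 0 := by
    intro w
    funext x
    exact CharTwo.add_self_eq_zero _
  have h0M : ∀ N : Matrix X X (ZMod 2), N + N = 0 := by
    intro N
    ext y x
    exact CharTwo.add_self_eq_zero _
  -- the equivalence
  let e : (({x : X // p x = true} → ZMod 2) × ({x : X // p x = true} → ZMod 2)) ≃ₗ[ZMod 2]
      (X → ZMod 2) :=
    { toFun := fun u => io u.1 + nu.mulVec (io u.2)
      map_add' := by
        intro u v
        simp only [Prod.fst_add, Prod.snd_add, map_add, Matrix.mulVec_add]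
        abel
      map_smul' := by
        intro r v
        simp only [Prod.smul_fst, Prod.smul_snd, map_smul, Matrix.mulVec_smul, smul_add,
          RingHom.id_apply]
      invFun := fun v => (re (v + nu.mulVec (L.mulVec v)), re (L.mulVec v))
      left_inv := by
        rintro ⟨u1, u2⟩
        have h1 : L.mulVec (io u1 + nu.mulVec (io u2)) = io u2 := by
          rw [Matrix.mulVec_add, hLio, zero_add, Matrix.mulVec_mulVec]
          have : L * nu = 1 + nu * L := by
            have h2 := h0M (nu * L)
            calc L * nu = L * nu + (nu * L + nu * L) := by rw [h2, add_zero]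
              _ = (L * nu + nu * L) + nu * L := by abel
              _ = 1 + nu * L := by rw [hLnu]
          rw [this, Matrix.add_mulVec, Matrix.one_mulVec, ← Matrix.mulVec_mulVec, hLio,
            Matrix.mulVec_zero, add_zero]
        simp only [h1]
        rw [add_assoc, h0, add_zero, hre, hre]
      right_inv := by
        intro v
        simp only
        have h1 : v + nu.mulVec (L.mulVec v) = L.mulVec (nu.mulVec v) := by
          have h3 : v = (L * nu + nu * L).mulVec v := by rw [hLnu, Matrix.one_mulVec]
          have h4 : (L * nu + nu * L).mulVec v =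
              L.mulVec (nu.mulVec v) + nu.mulVec (L.mulVec v) := by
            rw [Matrix.add_mulVec, Matrix.mulVec_mulVec, Matrix.mulVec_mulVec]
          calc v + nu.mulVec (L.mulVec v)
              = (L.mulVec (nu.mulVec v) + nu.mulVec (L.mulVec v)) + nu.mulVec (L.mulVec v) := by
                rw [← h4, ← h3]
            _ = L.mulVec (nu.mulVec v) := by rw [add_assoc, h0, add_zero]
        rw [h1, hioL, hioL, ← h1, add_assoc, h0, add_zero] }
  have he : ∀ u, e u = io u.1 + nu.mulVec (io u.2) := fun u => rfl
  have hei : ∀ v, e.symm v = (re (v + nu.mulVec (L.mulVec v)), re (L.mulVec v)) := fun v => rfl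
  -- gradings
  have hgr : ∀ (c : ℤ) (N : Matrix X X (ZMod 2)),
      (∀ x y, N y x ≠ 0 → hh x ≤ hh y ∧ qq y - 2 * hh y = qq x - 2 * hh x - c) →
      ∀ (a s : ℤ) (v : X → ZMod 2),
      v ∈ Fil hh qq a s → N.mulVec v ∈ Fil hh qq a (s - c) := by
    intro c N hN a s v hv y hy
    rw [Matrix.mulVec, dotProduct] at hy
    obtain ⟨x, _, hx⟩ := Finset.exists_ne_zero_of_sum_ne_zero hy
    have h1 : N y x ≠ 0 := left_ne_zero_of_mul hx
    have h2 : v x ≠ 0 := right_ne_zero_of_mul hx
    obtain ⟨hK, hw⟩ := hN x y h1
    obtain ⟨h3, h4⟩ := hv x h2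
    constructor
    · linarith
    · linarith
  have hio_mem : ∀ (a s : ℤ) (v : {x : X // p x = true} → ZMod 2),
      io v ∈ Fil hh qq a s ↔
        v ∈ Fil (X := {x : X // p x = true}) (fun x => hh x.1) (fun x => qq x.1 + 1) a (s + 1) := by
    intro a s v
    constructor
    · intro h x hx
      have h1 : io v x.1 ≠ 0 := by
        simp only [io, LinearMap.coe_mk, AddHom.coe_mk]
        rw [dif_pos x.2]
        exact hx
      obtain ⟨h2, h3⟩ := h x.1 h1
      exact ⟨h2, by linarith⟩
    · intro h x hx
      have hP' : p x = true := by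
        by_contra hn
        apply hx
        simp only [io, LinearMap.coe_mk, AddHom.coe_mk]
        rw [dif_neg hn]
      have h1 : v ⟨x, hP'⟩ ≠ 0 := by
        intro h0
        apply hx
        simp only [io, LinearMap.coe_mk, AddHom.coe_mk]
        rw [dif_pos hP', h0]
      obtain ⟨h2, h3⟩ := h ⟨x, hP'⟩ h1
      exact ⟨h2, by simp only at h3; linarith⟩
  have hmem : ∀ (a s : ℤ) (u : ({x : X // p x = true} → ZMod 2) × ({x : X // p x = true} → ZMod 2)),
      e u ∈ Fil hh qq a s ↔
      u.1 ∈ Fil (X := {x : X // p x = true}) (fun x => hh x.1) (fun x => qq x.1 + 1) a (s + 1) ∧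
      u.2 ∈ Fil (X := {x : X // p x = true}) (fun x => hh x.1) (fun x => qq x.1 + 1) a
        (s + (-1)) := by
    intro a s u
    constructor
    · intro h
      have h1 := e.symm_apply_apply u
      rw [hei] at h1
      have hL1 := hgr 2 L hL a s _ h
      have hL2 := hgr (-2) nu (fun x y h => ⟨(hnu x y h).1, by rw [(hnu x y h).2]; ring⟩) a (s - 2) _ hL1
      have h2 : e u + nu.mulVec (L.mulVec (e u)) ∈ Fil hh qq a s := by
        apply Submodule.add_mem _ h
        rw [show s - 2 - -2 = s by ring] at hL2
        exact hL2
      constructor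
      · rw [← h1]
        rw [← hio_mem]
        simp only
        rw [hpr]
        have h3 := hgr 0 (prX p) (by
          intro x y hxy
          have : y = x := by
            by_contra hn
            apply hxy
            unfold prX
            simp only [Matrix.of_apply]
            rw [if_neg]
            rintro ⟨h, _⟩
            exact hn h
          rw [this]
          exact ⟨le_refl _, by ring⟩) a s _ h2
        rw [sub_zero] at h3
        exact h3
      · rw [← h1]
        have : re (L.mulVec (e u)) ∈ Fil (X := {x : X // p x = true}) (fun x => hh x.1)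
            (fun x => qq x.1 + 1) a ((s - 2) + 1) := by
          rw [← hio_mem, hioL]
          exact hL1
        rw [show s + (-1) = (s - 2) + 1 by ring]
        exact this
    · rintro ⟨h1, h2⟩
      rw [he]
      apply Submodule.add_mem
      · rw [hio_mem]
        exact h1
      · have h3 : io u.2 ∈ Fil hh qq a (s - 2) := by
          rw [hio_mem, show s - 2 + 1 = s + (-1) by ring]
          exact h2
        have h4 := hgr (-2) nu (fun x y h => ⟨(hnu x y h).1, by rw [(hnu x y h).2]; ring⟩) a (s - 2) _ h3
        rw [show s - 2 - -2 = s by ring] at h4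
        exact h4
  have hd : ∀ u, M.mulVecLin (e u) =
      e ((M.submatrix Subtype.val Subtype.val : Matrix {x : X // p x = true} {x : X // p x = true}
        (ZMod 2)).mulVecLin u.1,
        (M.submatrix Subtype.val Subtype.val : Matrix {x : X // p x = true} {x : X // p x = true}
        (ZMod 2)).mulVecLin u.2) := by
    intro u
    rw [he, he, Matrix.mulVecLin_apply, Matrix.mulVecLin_apply, Matrix.mulVecLin_apply,
      Matrix.mulVec_add, hMsub, hMsub, hioM, hioM, Matrix.mulVec_mulVec, hMnu,
      ← Matrix.mulVec_mulVec]
  obtain ⟨f0⟩ := hP (X → ZMod 2) ({x : X // p x = true} → ZMod 2) ({x : X // p x = true} → ZMod 2)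
    (Fil hh qq)
    (fun a s => Fil (X := {x : X // p x = true}) (fun x => hh x.1) (fun x => qq x.1 + 1) a (s + 1))
    (fun a s => Fil (X := {x : X // p x = true}) (fun x => hh x.1) (fun x => qq x.1 + 1) a
      (s + (-1)))
    M.mulVecLin
    (M.submatrix Subtype.val Subtype.val : Matrix {x : X // p x = true} {x : X // p x = true}
      (ZMod 2)).mulVecLin
    (M.submatrix Subtype.val Subtype.val : Matrix {x : X // p x = true} {x : X // p x = true}
      (ZMod 2)).mulVecLin
    e hmem hd k a (b - 2 * a)
  obtain ⟨f1⟩ := page_shift (Fil (X := {x : X // p x = true}) (fun x => hh x.1)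
    (fun x => qq x.1 + 1))
    (M.submatrix Subtype.val Subtype.val : Matrix {x : X // p x = true} {x : X // p x = true}
      (ZMod 2)).mulVecLin
    1 k a (b - 2 * a) (b + 1 - 2 * a) (by ring)
  obtain ⟨f2⟩ := page_shift (Fil (X := {x : X // p x = true}) (fun x => hh x.1)
    (fun x => qq x.1 + 1))
    (M.submatrix Subtype.val Subtype.val : Matrix {x : X // p x = true} {x : X // p x = true}
      (ZMod 2)).mulVecLin
    (-1) k a (b - 2 * a) (b - 1 - 2 * a) (by ring)
  exact ⟨f0.trans (LinearEquiv.prodCongr f1 f2)⟩

end Pool.Agent.Y465.SZ
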