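import Pool.Agent.Y465.SZ.Fin1

/-!
Project Y465-SZ: diagrams with additional circles without crossings.
-/

set_option linter.unusedSectionVars false

namespace Pool.Agent.Y465.SZ

open Kronecker

variable {E : Type} [Fintype E] [DecidableEq E] {mate : E × Fin 4 → E × Fin 4}
  {C : Type} [Fintype C] [DecidableEq C]

/-- change of the label of the circle `c` from 1 to x -/
def lamC (c : C) : Matrix (C → Bool) (C → Bool) (ZMod 2) :=
  Matrix.of fun y x => if x c = false ∧ y = Function.update x c true then 1 else 0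

/-- change of the label of the circle `c` from x to 1 -/
def muC (c : C) : Matrix (C → Bool) (C → Bool) (ZMod 2) :=
  Matrix.of fun y x => if x c = true ∧ y = Function.update x c false then 1 else 0

theorem lam_mu (c : C) : (lamC c * muC c + muC c * lamC c : Matrix (C → Bool) (C → Bool) (ZMod 2)) = 1 := by
  ext y x
  rw [Matrix.add_apply, Matrix.mul_apply, Matrix.mul_apply, Matrix.one_apply]
  unfold lamC muC
  simp only [Matrix.of_apply]
  cases hx : x c
  · -- first sum vanishes
    have h1 : ∑ z : C → Bool, (if z c = false ∧ y = Function.update z c true then (1 : ZMod 2) else 0) *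
        (if x c = true ∧ z = Function.update x c false then 1 else 0) = 0 := by
      apply Finset.sum_eq_zero
      intro z _
      rw [hx]
      simp
    have h2 : ∑ z : C → Bool, (if z c = true ∧ y = Function.update z c false then (1 : ZMod 2) else 0) *
        (if x c = false ∧ z = Function.update x c true then 1 else 0) = if y = x then 1 else 0 := by
      rw [Finset.sum_eq_single (Function.update x c true)]
      · rw [hx]
        have : Function.update (Function.update x c true) c false = x := by
          rw [Function.update_idem, ← hx, Function.update_eq_self]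
        simp [this]
      · intro z _ hz
        simp [hz]
      · intro h
        exact absurd (Finset.mem_univ _) h
    rw [hx] at h1 h2
    rw [h1, h2, zero_add]
  · have h1 : ∑ z : C → Bool, (if z c = false ∧ y = Function.update z c true then (1 : ZMod 2) else 0) *
        (if x c = true ∧ z = Function.update x c false then 1 else 0) = if y = x then 1 else 0 := by
      rw [Finset.sum_eq_single (Function.update x c false)]
      · rw [hx]
        have : Function.update (Function.update x c false) c true = x := by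
          rw [Function.update_idem, ← hx, Function.update_eq_self]
        simp [this]
      · intro z _ hz
        simp [hz]
      · intro h
        exact absurd (Finset.mem_univ _) h
    have h2 : ∑ z : C → Bool, (if z c = true ∧ y = Function.update z c false then (1 : ZMod 2) else 0) *
        (if x c = false ∧ z = Function.update x c true then 1 else 0) = 0 := by
      apply Finset.sum_eq_zero
      intro z _
      rw [hx]
      simp
    rw [hx] at h1 h2
    rw [h1, h2, add_zero]

/-- the grading of the labels of the additional circles -/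
theorem sum_update (x : C → Bool) (c : C) (b : Bool) :
    (∑ a, if Function.update x c b a then (-1 : ℤ) else 1) =
      (∑ a, if x a then (-1 : ℤ) else 1) + (if b then -1 else 1) - (if x c then -1 else 1) := by
  rw [← Finset.sum_erase_add _ _ (Finset.mem_univ c), ← Finset.sum_erase_add _ _ (Finset.mem_univ c)]
  have : ∑ a ∈ Finset.univ.erase c, (if Function.update x c b a then (-1 : ℤ) else 1) =
      ∑ a ∈ Finset.univ.erase c, (if x a then (-1 : ℤ) else 1) := by
    apply Finset.sum_congr rfl
    intro a ha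
    rw [Function.update_of_ne (Finset.ne_of_mem_erase ha)]
  rw [this, Function.update_self]
  ring

theorem kron_ne {N : Op mate} {R : Matrix (C → Bool) (C → Bool) (ZMod 2)}
    {x y : Cfg mate × (C → Bool)} (h : (N ⊗ₖ R) y x ≠ 0) : N y.1 x.1 ≠ 0 ∧ R y.2 x.2 ≠ 0 := by
  rw [Matrix.kroneckerMap_apply] at h
  exact ⟨left_ne_zero_of_mul h, right_ne_zero_of_mul h⟩

theorem one_ne {X : Type} [Fintype X] [DecidableEq X] {x y : X}
    (h : (1 : Matrix X X (ZMod 2)) y x ≠ 0) : y = x := by
  by_contra hn
  exact h (Matrix.one_apply_ne hn)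

theorem lamC_ne {c : C} {x y : C → Bool} (h : lamC c y x ≠ 0) :
    x c = false ∧ y = Function.update x c true := by
  unfold lamC at h
  simp only [Matrix.of_apply] at h
  by_contra hn
  rw [if_neg hn] at h
  exact h rfl

theorem muC_ne {c : C} {x y : C → Bool} (h : muC c y x ≠ 0) :
    x c = true ∧ y = Function.update x c false := by
  unfold muC at h
  simp only [Matrix.of_apply] at h
  by_contra hn
  rw [if_neg hn] at h
  exact h rfl

/-- from operators on the labelled states -/
theorem pages_diag (hP : S_PAG) (M nu L : Op mate) (p : E × Fin 4)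
    (hm : ∀ x y : Cfg mate, M y x ≠ 0 → x.f p = true → y.f p = true)
    (hnu : Gr (-2) nu) (hL : Gr 2 L) (hLp : pr p * L = L) (hpL : L * pr p = 0)
    (hMnu : M * nu = nu * M) (hML : M * L = L * M) (hLnu : L * nu + nu * L = 1)
    (np nm : ℤ) (k : ℕ) (a b : ℤ) :
    Nonempty (SPage (X := Cfg mate × (C → Bool)) (fun x => hdeg nm x.1) (fun x => qC C np nm x)
        (M ⊗ₖ (1 : Matrix (C → Bool) (C → Bool) (ZMod 2))) k a b ≃ₗ[ZMod 2]
      (SPage (X := {x : Cfg mate × (C → Bool) // lab (Sum.inl p) x = true}) (fun x => hdeg nm x.1.1)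
          (fun x => qC C np nm x.1 + 1)
          ((M ⊗ₖ (1 : Matrix (C → Bool) (C → Bool) (ZMod 2))).submatrix Subtype.val Subtype.val) k a
          (b + 1) ×
        SPage (X := {x : Cfg mate × (C → Bool) // lab (Sum.inl p) x = true})
          (fun x => hdeg nm x.1.1) (fun x => qC C np nm x.1 + 1)
          ((M ⊗ₖ (1 : Matrix (C → Bool) (C → Bool) (ZMod 2))).submatrix Subtype.val Subtype.val) k a
          (b - 1))) := by
  have hk : ∀ A B : Op mate, (A * B) ⊗ₖ (1 : Matrix (C → Bool) (C → Bool) (ZMod 2)) =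
      (A ⊗ₖ (1 : Matrix (C → Bool) (C → Bool) (ZMod 2))) * (B ⊗ₖ 1) := by
    intro A B
    conv_lhs => rw [← mul_one (1 : Matrix (C → Bool) (C → Bool) (ZMod 2))]
    exact Matrix.mul_kronecker_mul A B 1 1
  have hgr : ∀ (c : ℤ) (N : Op mate), Gr c N → ∀ x y : Cfg mate × (C → Bool),
      (N ⊗ₖ (1 : Matrix (C → Bool) (C → Bool) (ZMod 2))) y x ≠ 0 →
      hdeg nm x.1 ≤ hdeg nm y.1 ∧ qC C np nm y - 2 * hdeg nm y.1 =
        qC C np nm x - 2 * hdeg nm x.1 - c := by
    intro c N hN x y h
    obtain ⟨h1, h2⟩ := kron_ne h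
    obtain ⟨hK, hw⟩ := hN x.1 y.1 h1
    have h3 := one_ne h2
    have hc : (x.1.K.card : ℤ) ≤ y.1.K.card := by exact_mod_cast Finset.card_le_card hK
    rw [w_eq, w_eq] at hw
    unfold qC hdeg qdeg
    rw [h3]
    constructor
    · linarith
    · linarith
  apply pages_gen hP (fun x : Cfg mate × (C → Bool) => hdeg nm x.1) (fun x => qC C np nm x)
    (lab (Sum.inl p)) (M ⊗ₖ (1 : Matrix (C → Bool) (C → Bool) (ZMod 2)))
    (nu ⊗ₖ (1 : Matrix (C → Bool) (C → Bool) (ZMod 2)))
    (L ⊗ₖ (1 : Matrix (C → Bool) (C → Bool) (ZMod 2)))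
  · ext y x
    rw [mul_prX_apply, mul_prX_apply, prX_mul_apply]
    by_cases hx : lab (Sum.inl p) x = true
    · rw [if_pos hx, if_pos hx]
      by_cases h : (M ⊗ₖ (1 : Matrix (C → Bool) (C → Bool) (ZMod 2))) y x = 0
      · rw [h]; simp
      · rw [if_pos]
        exact hm x.1 y.1 (kron_ne h).1 hx
    · rw [if_neg hx, if_neg hx]
  · intro x y h
    obtain ⟨h1, h2⟩ := hgr (-2) nu hnu x y h
    exact ⟨h1, by rw [h2]; ring⟩
  · intro x y h
    exact hgr 2 L hL x y h
  · ext y x
    rw [prX_mul_apply]
    by_cases h : (L ⊗ₖ (1 : Matrix (C → Bool) (C → Bool) (ZMod 2))) y x = 0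
    · rw [h]; simp
    · rw [if_pos]
      have h1 := (kron_ne h).1
      rw [← hLp, pr_mul_apply] at h1
      by_contra hn
      rw [if_neg] at h1
      · exact h1 rfl
      · exact hn
  · ext y x
    rw [mul_prX_apply, Matrix.zero_apply]
    by_cases hx : lab (Sum.inl p) x = true
    · rw [if_pos hx, Matrix.kroneckerMap_apply]
      have h1 : (L * pr p : Op mate) y.1 x.1 = 0 := by rw [hpL, Matrix.zero_apply]
      rw [mul_pr_apply, if_pos (show x.1.f p = true from hx)] at h1
      rw [h1, zero_mul]
    · rw [if_neg hx]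
  · rw [← hk, hMnu, hk]
  · rw [← hk, hML, hk]
  · rw [← hk, ← hk, ← Matrix.add_kronecker, hLnu, Matrix.one_kronecker_one]

/-- base point on an additional circle -/
theorem pages_circ (hP : S_PAG) (M : Op mate) (c : C) (np nm : ℤ) (k : ℕ) (a b : ℤ) :
    Nonempty (SPage (X := Cfg mate × (C → Bool)) (fun x => hdeg nm x.1) (fun x => qC C np nm x)
        (M ⊗ₖ (1 : Matrix (C → Bool) (C → Bool) (ZMod 2))) k a b ≃ₗ[ZMod 2]
      (SPage (X := {x : Cfg mate × (C → Bool) // lab (Sum.inr c) x = true}) (fun x => hdeg nm x.1.1)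
          (fun x => qC C np nm x.1 + 1)
          ((M ⊗ₖ (1 : Matrix (C → Bool) (C → Bool) (ZMod 2))).submatrix Subtype.val Subtype.val) k a
          (b + 1) ×
        SPage (X := {x : Cfg mate × (C → Bool) // lab (Sum.inr c) x = true})
          (fun x => hdeg nm x.1.1) (fun x => qC C np nm x.1 + 1)
          ((M ⊗ₖ (1 : Matrix (C → Bool) (C → Bool) (ZMod 2))).submatrix Subtype.val Subtype.val) k a
          (b - 1))) := by
  have hk : ∀ (A B : Op mate) (R S : Matrix (C → Bool) (C → Bool) (ZMod 2)),
      (A ⊗ₖ R) * (B ⊗ₖ S) = (A * B) ⊗ₖ (R * S) := fun A B R S => (Matrix.mul_kronecker_mul A B R S).symm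
  have hM : ∀ x y : Cfg mate × (C → Bool),
      (M ⊗ₖ (1 : Matrix (C → Bool) (C → Bool) (ZMod 2))) y x ≠ 0 → y.2 = x.2 :=
    fun x y h => one_ne (kron_ne h).2
  apply pages_gen hP (fun x : Cfg mate × (C → Bool) => hdeg nm x.1) (fun x => qC C np nm x)
    (lab (Sum.inr c)) (M ⊗ₖ (1 : Matrix (C → Bool) (C → Bool) (ZMod 2)))
    ((1 : Op mate) ⊗ₖ (muC c)) ((1 : Op mate) ⊗ₖ (lamC c))
  · ext y x
    rw [mul_prX_apply, mul_prX_apply, prX_mul_apply]
    by_cases hx : lab (Sum.inr c) x = true
    · rw [if_pos hx, if_pos hx]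
      by_cases h : (M ⊗ₖ (1 : Matrix (C → Bool) (C → Bool) (ZMod 2))) y x = 0
      · rw [h]; simp
      · rw [if_pos]
        have h2 := hM x y h
        show y.2 c = true
        rw [h2]
        exact hx
    · rw [if_neg hx, if_neg hx]
  · intro x y h
    obtain ⟨h1, h2⟩ := kron_ne h
    have h3 := one_ne h1
    obtain ⟨h4, h5⟩ := muC_ne h2
    unfold qC
    rw [h3, h5, sum_update, h4]
    refine ⟨le_refl _, ?_⟩
    simp only [Bool.false_eq_true, if_false, if_true]
    ring
  · intro x y h
    obtain ⟨h1, h2⟩ := kron_ne h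
    have h3 := one_ne h1
    obtain ⟨h4, h5⟩ := lamC_ne h2
    unfold qC
    rw [h3, h5, sum_update, h4]
    refine ⟨le_refl _, ?_⟩
    simp only [Bool.false_eq_true, if_false, if_true]
    ring
  · ext y x
    rw [prX_mul_apply]
    by_cases h : ((1 : Op mate) ⊗ₖ (lamC c)) y x = 0
    · rw [h]; simp
    · rw [if_pos]
      obtain ⟨h4, h5⟩ := lamC_ne (kron_ne h).2
      show y.2 c = true
      rw [h5, Function.update_self]
  · ext y x
    rw [mul_prX_apply, Matrix.zero_apply]
    by_cases hx : lab (Sum.inr c) x = true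
    · rw [if_pos hx]
      by_contra h
      obtain ⟨h4, h5⟩ := lamC_ne (kron_ne h).2
      have hx' : x.2 c = true := hx
      rw [hx'] at h4
      exact Bool.noConfusion h4
    · rw [if_neg hx]
  · rw [hk, hk, mul_one, one_mul, one_mul, mul_one]
  · rw [hk, hk, mul_one, one_mul, one_mul, mul_one]
  · rw [hk, hk, mul_one, ← Matrix.kronecker_add, lam_mu, Matrix.one_kronecker_one]

end Pool.Agent.Y465.SZ
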