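import Pool.Agent.Y465.SZ.Stm

/-!
Project Y465-SZ: statements of the jobs SQA, SQB (the square of the label preserving part vanishes).
-/

set_option linter.unusedSectionVars false

namespace Pool.Agent.Y465.SZ

/-- job SQA: a decoration without configurations of types A, C -/
def S_SQA : Prop := ∀ (E : Type) [Fintype E] [DecidableEq E] (mate : E × Fin 4 → E × Fin 4)
    (col : E × Fin 4 → Bool), Dia mate col → Ori mate → JOI mate →
    ∀ (s : Bool) (K S : Finset E), ((∀ e ∈ S, e ∉ K) ∨ (∀ e ∈ S, e ∈ K)) → S.card ≤ 4 →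
    (∀ e ∈ S, Same mate K (e, 0) (e, 2)) →
    (S.card = 4 → ∀ e ∈ S, Same mate (symmDiff K S) (e, 0) (e, 2)) →
    ∀ t : E → Bool, ∃ t' : E → Bool, (∀ e, e ∉ S → t' e = t e) ∧
      ∀ S' : Finset E, S' ⊆ S → S'.Nonempty →
        ¬ (TA (fun p q => Same mate K (pt p) (pt q)) t' S' ∨
          TC s (fun e => col (e, 0)) (fun p q => Same mate K (pt p) (pt q))
            (fun e p q => Same mate (tog K e) (pt p) (pt q)) t' S')

/-- job SQB: the square of the label preserving part vanishes -/
def S_SQB : Prop := S_SQA → ∀ (E : Type) [Fintype E] [DecidableEq E]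
    (mate : E × Fin 4 → E × Fin 4) (col : E × Fin 4 → Bool),
    Dia mate col → Ori mate → JOI mate → WTF mate → ∀ (s : Bool),
    (∀ (t : E → Bool) (e : E),
      (dl col s (ft t e) : Op mate) = (1 + ue e) * dl col s t * (1 + ue e)) →
    (∀ (t : E → Bool) (j : E × Fin 4), (dl col s t * dl col s t : Op mate) * LL t j =
      LL t j * (dl col s t * dl col s t)) →
    ∀ t : E → Bool, (dl col s t * dl col s t : Op mate) = 0

end Pool.Agent.Y465.SZ
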