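import Pool.Agent.Y465.SZ.Asm4
import Pool.Agent.Y465.SZ.Sq

/-!
Project Y465-SZ: the square of Szabo's differential vanishes (from S_SQB).
-/

set_option linter.unusedSectionVars false

namespace Pool.Agent.Y465.SZ

variable {E : Type} [Fintype E] [DecidableEq E] {mate : E × Fin 4 → E × Fin 4}

/-- a nonzero entry of `L_0` changes the labels -/
theorem L0_change {t : E → Bool} {x y : Cfg mate} (h : (L0 t : Op mate) y x ≠ 0) : x.f ≠ y.f := by
  intro hf
  obtain ⟨⟨hK, hm, hl⟩, hw⟩ := L0_ne_zero h
  have hKK : x.K = y.K := by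
    apply le_antisymm hK
    intro e he
    by_contra hn
    obtain ⟨h1, h2, _⟩ := hl e he hn
    rw [hf, h2] at h1
    exact Bool.noConfusion h1
  have hxy : x = y := Cfg.ext hKK hf
  rw [hxy] at hw
  linarith

theorem L0_le {t : E → Bool} {x y : Cfg mate} (h : (L0 t : Op mate) y x ≠ 0) :
    ∀ p, x.f p = true → y.f p = true := (L0_ne_zero h).1.2.1

theorem le_antisymm_lab {x y z : Cfg mate} (h1 : ∀ p, x.f p = true → z.f p = true)
    (h2 : ∀ p, z.f p = true → y.f p = true) (h : x.f = y.f) : x.f = z.f := by
  funext p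
  have a := h1 p
  have b := h2 p
  rw [← h] at b
  cases hx : x.f p <;> cases hz : z.f p <;> simp_all

theorem L0_L0_diag {t t' : E → Bool} {x y : Cfg mate} (h : x.f = y.f) :
    (L0 t * L0 t' : Op mate) y x = 0 := by
  by_contra hn
  obtain ⟨z, h1, h2⟩ := mul_ne hn
  exact L0_change h2 (le_antisymm_lab (L0_le h2) (L0_le h1) h)

theorem L0_dl_diag {col : E × Fin 4 → Bool} {s : Bool} {t t' : E → Bool} {x y : Cfg mate}
    (h : x.f = y.f) : (L0 t * dl col s t' : Op mate) y x = 0 := by
  by_contra hn
  obtain ⟨z, h1, h2⟩ := mul_ne hn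
  apply L0_change h1
  rw [← h, (dl_label h2).1]

theorem dl_L0_diag {col : E × Fin 4 → Bool} {s : Bool} {t t' : E → Bool} {x y : Cfg mate}
    (h : x.f = y.f) : (dl col s t' * L0 t : Op mate) y x = 0 := by
  by_contra hn
  obtain ⟨z, h1, h2⟩ := mul_ne hn
  apply L0_change h2
  rw [h, (dl_label h1).1]

/-- `L_0` and `Y_0` commute -/
theorem LY_comm (hLYC : ∀ (t : E → Bool) (j : E × Fin 4),
      (L0 t : Op mate) * LL (fun e => !t e) j = LL (fun e => !t e) j * L0 t) (t : E → Bool) :
    (L0 t * L0 (op t) + L0 (op t) * L0 t : Op mate) = 0 := by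
  have h1 : ∀ j, (L0 t * L0 (op t) + L0 (op t) * L0 t : Op mate) * pr j +
      pr j * (L0 t * L0 (op t) + L0 (op t) * L0 t) = 0 := by
    intro j
    have a := hLYC t j
    have b := hLYC (op t) j
    have hop : (fun e => !(op t) e) = t := op_op t
    rw [hop] at b
    have a' : (fun e => !t e) = op t := rfl
    rw [a', LL_eq] at a
    rw [LL_eq] at b
    have c1 := op_add_self (L0 t * pr j * L0 (op t) : Op mate)
    have c2 := op_add_self (L0 (op t) * pr j * L0 t : Op mate)
    have a2 : (L0 t * (L0 (op t) * pr j + pr j * L0 (op t)) +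
      (L0 (op t) * pr j + pr j * L0 (op t)) * L0 t : Op mate) = 0 := by
      rw [a]
      exact op_add_self _
    have b2 : (L0 (op t) * (L0 t * pr j + pr j * L0 t) +
      (L0 t * pr j + pr j * L0 t) * L0 (op t) : Op mate) = 0 := by
      rw [b]
      exact op_add_self _
    calc (L0 t * L0 (op t) + L0 (op t) * L0 t : Op mate) * pr j +
        pr j * (L0 t * L0 (op t) + L0 (op t) * L0 t)
        = ((L0 t * L0 (op t) + L0 (op t) * L0 t : Op mate) * pr j +
        pr j * (L0 t * L0 (op t) + L0 (op t) * L0 t)) +
        (L0 t * pr j * L0 (op t) + L0 t * pr j * L0 (op t)) +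
        (L0 (op t) * pr j * L0 t + L0 (op t) * pr j * L0 t) := by rw [c1, c2]; simp
      _ = (L0 t * (L0 (op t) * pr j + pr j * L0 (op t)) +
      (L0 (op t) * pr j + pr j * L0 (op t)) * L0 t : Op mate) +
      (L0 (op t) * (L0 t * pr j + pr j * L0 t) +
      (L0 t * pr j + pr j * L0 t) * L0 (op t) : Op mate) := by noncomm_ring
      _ = 0 := by rw [a2, b2, add_zero]
  ext y x
  rw [Matrix.zero_apply]
  by_cases hf : x.f = y.f
  · rw [Matrix.add_apply, L0_L0_diag hf, L0_L0_diag hf, add_zero]
  · have : ∃ j, x.f j ≠ y.f j := by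
      by_contra hn
      push Not at hn
      exact hf (funext hn)
    obtain ⟨j, hj⟩ := this
    have h2 : ((L0 t * L0 (op t) + L0 (op t) * L0 t) * pr j +
      pr j * (L0 t * L0 (op t) + L0 (op t) * L0 t) : Op mate) y x = 0 := by
      rw [h1 j, Matrix.zero_apply]
    rw [br_pr_apply, if_neg hj] at h2
    exact h2

/-- the square of the differential is the square of its label preserving part -/
theorem dS_sq {col : E × Fin 4 → Bool} {s : Bool}
    (hLYC : ∀ (t : E → Bool) (j : E × Fin 4),
      (L0 t : Op mate) * LL (fun e => !t e) j = LL (fun e => !t e) j * L0 t)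
    (hsq : ∀ (t : E → Bool) (x y : Cfg mate), x.f ≠ y.f →
      (DD mate col s t * DD mate col s t) y x = 0) (t : E → Bool) :
    dS mate col s t * dS mate col s t = dl col s t * dl col s t := by
  have h1 := LY_comm hLYC t
  have h2 : dS mate col s t * dS mate col s t = DD mate col s t * DD mate col s t +
      DD mate col s (op t) * DD mate col s (op t) + dl col s t * dl col s t := by
    have c := op_add_self (dl col s t * dl col s t : Op mate)
    calc dS mate col s t * dS mate col s t
        = dS mate col s t * dS mate col s t + (dl col s t * dl col s t + dl col s t * dl col s t) := by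
          rw [c, add_zero]
      _ = (DD mate col s t * DD mate col s t +
      DD mate col s (op t) * DD mate col s (op t) + dl col s t * dl col s t) +
      (L0 t * L0 (op t) + L0 (op t) * L0 t) := by
        unfold dS DD
        rw [dl_op]
        noncomm_ring
      _ = _ := by rw [h1, add_zero]
  have h3 : ∀ (t : E → Bool) (x y : Cfg mate), x.f = y.f →
      (DD mate col s t * DD mate col s t) y x = (dl col s t * dl col s t : Op mate) y x := by
    intro t x y hf
    have : DD mate col s t * DD mate col s t = L0 t * L0 t + L0 t * dl col s t + dl col s t * L0 t +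
        dl col s t * dl col s t := by
      unfold DD
      noncomm_ring
    rw [this, Matrix.add_apply, Matrix.add_apply, Matrix.add_apply, L0_L0_diag hf, L0_dl_diag hf,
      dl_L0_diag hf]
    simp
  rw [h2]
  ext y x
  rw [Matrix.add_apply, Matrix.add_apply]
  by_cases hf : x.f = y.f
  · rw [h3 t x y hf, h3 (op t) x y hf, dl_op]
    rw [CharTwo.add_self_eq_zero, zero_add]
  · rw [hsq t x y hf, hsq (op t) x y hf, zero_add, zero_add]

end Pool.Agent.Y465.SZ
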