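import Pool.Agent.Y465.SZ.All
import Pool.Agent.Y465.SZ.Fin2
import Pool.Agent.Y465.SZ.Sq2
import Pool.Agent.Y657.SZ.SQA
import Pool.Agent.Y71.SZ.SQB

/-!
Project Y465-SZ: the differential and the splitting of the pages for all link diagrams.
-/

set_option linter.unusedSectionVars false

namespace Pool.Agent.Y465.SZ

open Kronecker

/-- the facts used for a diagram on the sphere -/
theorem data (E : Type) [Fintype E] [DecidableEq E]
    (mate : E × Fin 4 → E × Fin 4) (h1 : ∀ h, mate (mate h) = h) (h2 : ∀ h, mate h ≠ h)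
    (h3 : nFaces mate = Fintype.card E + 2 * nComps mate) : ∃ col, Dia mate col ∧
    Ori mate ∧ JOI mate ∧ WTF mate ∧ CHN mate ∧ DEG mate ∧
    (∀ (t : E → Bool) (j : E × Fin 4),
      (L0 t : Op mate) * LL (fun e => !t e) j = LL (fun e => !t e) j * L0 t ∧
      ∀ i, (LL t i : Op mate) * LL (fun e => !t e) j = LL (fun e => !t e) j * LL t i) ∧
    (∀ (s : Bool) (t : E → Bool) (e : E),
      (dl col s (ft t e) : Op mate) = (1 + ue e) * dl col s t * (1 + ue e)) ∧
    ∀ (s : Bool) (t : E → Bool) (x y : Cfg mate), x.f ≠ y.f →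
      (DD mate col s t * DD mate col s t) y x = 0 := by
  obtain ⟨col, hdia⟩ := Pool.Agent.Y284.SZ.JOR.jor Pool.Agent.Y43.SZ.ori Pool.Agent.Y43.SZ.osg E mate h1
    (Pool.Agent.Y970.SZ.eul E mate h1 h2 h3)
  have hO : Ori mate := Pool.Agent.Y43.SZ.ori E mate col hdia.mm hdia.cm hdia.ca
  have hJ : JOI mate := Pool.Agent.Y43.SZ.joi E mate hO
  have hW : WTF mate := Pool.Agent.Y282.SZ.wtf Pool.Agent.Y43.SZ.cnt E mate hO hJ
  obtain ⟨hCH, hD⟩ := Pool.Agent.Y43.SZ.degt E mate hO hJ hW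
  have hL := Pool.Agent.Y43.SZ.lcj E mate hO hW hD
  have hd' := Pool.Agent.Y71.SZ.dcj Pool.Agent.Y43.SZ.osg Pool.Agent.Y284.SZ.gam E mate col hdia hO
    hJ hW
  have hB : BAL mate col := Pool.Agent.Y43.SZ.bal Pool.Agent.Y43.SZ.osg E mate col hdia hO
  refine ⟨col, hdia, hO, hJ, hW, hCH, hD, Pool.Agent.Y43.SZ.lyc E mate hD, hd', ?_⟩
  intro s t x y hxy
  exact dd_sq_zero hL (hd' s)
    (fun t x y h1 h2 h3 => Pool.Agent.Y282.SZ.P2A.p2a E mate col hdia hO hW hB s t x y h1 h2 h3)
    (fun t x y h1 h2 => Pool.Agent.Y284.SZ.P2B.p2b Pool.Agent.Y43.SZ.osg E mate col hdia hO hJ hW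
      s t x y h1 h2) _ t x y rfl hxy

/-- Szabo's theorem: the square of the differential vanishes -/
theorem szD_sq (E : Type) [Fintype E] [DecidableEq E]
    (mate : E × Fin 4 → E × Fin 4) (h1 : ∀ h, mate (mate h) = h) (h2 : ∀ h, mate h ≠ h)
    (h3 : nFaces mate = Fintype.card E + 2 * nComps mate) (s : Bool) (t : E → Bool) :
    szD mate s t * szD mate s t = 0 := by
  obtain ⟨col, hdia, hO, hJ, hW, hCH, hD, hLYC, hd', hsq⟩ := data E mate h1 h2 h3
  rw [szD_eq Pool.Agent.Y282.SZ.ETY.ety Pool.Agent.Y71.SZ.Cty.cty hdia hO hJ hW hCH hD s t]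
  have hdS := dS_sq (col := col) (s := s) (fun t j => (hLYC t j).1) (hsq s)
  rw [hdS t]
  refine Pool.Agent.Y71.SZ.Sqb.sqb Pool.Agent.Y657.SZ.t_SQA E mate col hdia hO hJ hW s (hd' s) ?_ t
  intro t j
  have hc : dS mate col s t * LL t j = LL t j * dS mate col s t := by
    have a := dd_comm_LL (hsq s t) j
    have b := (hLYC (op t) j).1
    have hop : (fun e => !(op t) e) = t := op_op t
    rw [hop] at b
    have e1 : dS mate col s t = DD mate col s t + L0 (op t) := by
      unfold dS DD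
      abel
    rw [e1, add_mul, mul_add, a, b]
  rw [← hdS t, mul_assoc, hc, ← mul_assoc, hc, mul_assoc]

/-- the square of the differential vanishes on the full chain group -/
theorem szC_sq (E C : Type) [Fintype E] [DecidableEq E] [Fintype C] [DecidableEq C]
    (mate : E × Fin 4 → E × Fin 4) (h1 : ∀ h, mate (mate h) = h) (h2 : ∀ h, mate h ≠ h)
    (h3 : nFaces mate = Fintype.card E + 2 * nComps mate) (s : Bool) (t : E → Bool) :
    szC mate C s t * szC mate C s t = 0 := by
  have h := Matrix.mul_kronecker_mul (szD mate s t) (szD mate s t)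
    (1 : Matrix (C → Bool) (C → Bool) (ZMod 2)) (1 : Matrix (C → Bool) (C → Bool) (ZMod 2))
  rw [szD_sq E mate h1 h2 h3 s t, Matrix.zero_kronecker] at h
  exact h.symm

/-- the splitting of all pages of Szabo's spectral sequence -/
theorem full (E C : Type) [Fintype E] [DecidableEq E] [Fintype C] [DecidableEq C]
    (mate : E × Fin 4 → E × Fin 4) (h1 : ∀ h, mate (mate h) = h) (h2 : ∀ h, mate h ≠ h)
    (h3 : nFaces mate = Fintype.card E + 2 * nComps mate)
    (s : Bool) (t : E → Bool) (np nm : ℤ) (P : (E × Fin 4) ⊕ C) (k : ℕ) (a b : ℤ) :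
    Nonempty (UPage mate C s t np nm k a b ≃ₗ[ZMod 2]
      (RPage mate C s t np nm P k a (b + 1) × RPage mate C s t np nm P k a (b - 1))) := by
  rcases P with p | c
  · obtain ⟨col, hdia, hO, hJ, hW, hCH, hD, hLYC, hd', hsq⟩ := data E mate h1 h2 h3
    choose T hLT hTL hTp hpT hCS using Pool.Agent.Y282.SZ.TQ.tq E mate hO hW hD t
    have hH := algH_of (col := col) (s := s) (t := t) hD hLYC (fun t j => dd_comm_LL (hsq s t) j) T hLT
      hTL hTp hpT hCS (fun h => (Pool.Agent.Y282.SZ.CL.cl E mate T hCS h).2) (cl_part1 hCS)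
    obtain ⟨nu, hnu, hc, h1⟩ := main_ops A1.alg1 A2.alg2 A3.alg3 hH hCS
      (Pool.Agent.Y71.SZ.Rig.rig E mate hO hW hCH hD t) p
    have hS := szD_eq Pool.Agent.Y282.SZ.ETY.ety Pool.Agent.Y71.SZ.Cty.cty hdia hO hJ hW hCH hD s t
    have hm : ∀ x y : Cfg mate, (szD mate s t) y x ≠ 0 → x.f p = true → y.f p = true := by
      intro x y h hx
      rw [hS] at h
      by_contra hn
      have h4 := hH.md p
      have h5 : (dS mate col s t * pr p : Op mate) y x = (pr p * dS mate col s t * pr p : Op mate) y x := by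
        rw [← h4]
      rw [mul_pr_apply, mul_pr_apply, pr_mul_apply, if_pos hx, if_pos hx, if_neg hn] at h5
      exact h h5
    have := pages_diag (C := C) Pool.Agent.Y658.SZ.pag (szD mate s t) nu (LL t p) p hm hnu Gr.LL
      (pr_mul_LL t p) (LL_mul_pr t p) (by rw [hS]; exact hc) (by rw [hS]; exact hH.cdL p) h1 np nm k a b
    exact this
  · exact pages_circ (C := C) Pool.Agent.Y658.SZ.pag (szD mate s t) c np nm k a b

end Pool.Agent.Y465.SZ
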