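import Pool.Agent.Y465.SZ.Defs

/-!
Project Y465-SZ: statements of the jobs.  A job proves the proposition `S_...` of its title.
-/

set_option linter.unusedSectionVars false

namespace Pool.Agent.Y465.SZ

variable {E : Type} [Fintype E] [DecidableEq E]

/-! ### topology of the states -/

/-- job ORI -/
def S_ORI : Prop := ∀ (E : Type) [Fintype E] [DecidableEq E] (mate : E × Fin 4 → E × Fin 4)
    (col : E × Fin 4 → Bool), (∀ h, mate (mate h) = h) → (∀ h, col (mate h) = !col h) →
    (∀ e i, col (e, i + 1) = !col (e, i)) → Ori mate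

/-- truth value as an integer -/
def bz (b : Bool) : ℤ := if b then 1 else 0

/-- job OSG: signed intersection formula -/
def S_OSG : Prop := ∀ (E : Type) [Fintype E] [DecidableEq E] (mate : E × Fin 4 → E × Fin 4)
    (col : E × Fin 4 → Bool), (∀ h, mate (mate h) = h) → (∀ h, col (mate h) = !col h) →
    (∀ e i, col (e, i + 1) = !col (e, i)) →
    ∀ (K K' : Finset E) (u v : E × Fin 4 → Bool), Inv mate K u → Inv mate K' v →
      ∑ g ∈ symmDiff K K', (if col (g, 0) then (1 : ℤ) else -1) *
        (bz (u (g, 2)) - bz (u (g, 0))) * (bz (v (g, 2)) - bz (v (g, 0))) = 0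

/-- passing the crossing `e` in the merging direction joins exactly two circles -/
def JOI (mate : E × Fin 4 → E × Fin 4) : Prop :=
  ∀ (K : Finset E) (e : E), ¬ Same mate K (e, 0) (e, 2) →
    (∀ f, Inv mate (tog K e) f → Inv mate K f) ∧
    ∀ x y, Same mate (tog K e) x y ↔ Same mate K x y ∨
      (Same mate K x (e, 0) ∧ Same mate K y (e, 2)) ∨ (Same mate K x (e, 2) ∧ Same mate K y (e, 0))

/-- job JOI -/
def S_JOI : Prop := ∀ (E : Type) [Fintype E] [DecidableEq E] (mate : E × Fin 4 → E × Fin 4),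
    Ori mate → JOI mate

/-- job CN -/
def S_CN : Prop := ∀ (E : Type) [Fintype E] [DecidableEq E] (mate : E × Fin 4 → E × Fin 4)
    (K : Finset E) (g : E × Fin 4 → Bool), Inv mate K g →
    Nat.card {f : E × Fin 4 → Bool // Inv mate K f ∧ ∀ h, f h = true → g h = true} =
      2 ^ cn mate K g

/-- properties of the weight -/
structure WTF (mate : E × Fin 4 → E × Fin 4) : Prop where
  /-- label 1, splitting -/
  s1 : ∀ (K : Finset E) (e : E) (f : E × Fin 4 → Bool), e ∉ K → Inv mate K f → f (e, 0) = false →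
    f (e, 2) = false → Same mate K (e, 0) (e, 2) → wt mate (insert e K) f = wt mate K f
  /-- label 1, merging -/
  m1 : ∀ (K : Finset E) (e : E) (f : E × Fin 4 → Bool), e ∉ K → Inv mate K f → f (e, 0) = false →
    f (e, 2) = false → ¬ Same mate K (e, 0) (e, 2) → wt mate (insert e K) f = wt mate K f + 2
  /-- label x, splitting -/
  sx : ∀ (K : Finset E) (e : E) (f : E × Fin 4 → Bool), e ∉ K → Inv mate K f → f (e, 0) = true →
    f (e, 2) = true → Same mate K (e, 0) (e, 2) → wt mate (insert e K) f = wt mate K f + 2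
  /-- label x, merging -/
  mx : ∀ (K : Finset E) (e : E) (f : E × Fin 4 → Bool), e ∉ K → Inv mate K f → f (e, 0) = true →
    f (e, 2) = true → ¬ Same mate K (e, 0) (e, 2) → wt mate (insert e K) f = wt mate K f
  /-- change of labels in a fixed state -/
  lab : ∀ (K : Finset E) (f g : E × Fin 4 → Bool), Inv mate K f → Inv mate K g →
    (∀ h, f h = true → g h = true) → wt mate K g = wt mate K f + 2 * (cn mate K (fun h => g h && !f h) : ℤ)
  cn0 : ∀ (K : Finset E) (z : E × Fin 4 → Bool), Inv mate K z →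
    (cn mate K z = 0 ↔ ∀ h, z h = false)
  cn1 : ∀ (K : Finset E) (z : E × Fin 4 → Bool), Inv mate K z →
    (cn mate K z = 1 ↔ (∃ h, z h = true) ∧ ∀ h h', z h = true → z h' = true → Same mate K h h')
  /-- locality -/
  loc : ∀ (K K' : Finset E) (z : E × Fin 4 → Bool), Inv mate K z → Inv mate K' z →
    (∀ e, (e ∈ K ↔ ¬ e ∈ K') → z (e, 0) = false) → cn mate K z = cn mate K' z
  /-- additivity -/
  add : ∀ (K : Finset E) (z z' : E × Fin 4 → Bool), Inv mate K z → Inv mate K z' →
    (∀ h, z h = true → z' h = false) →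
    cn mate K (fun h => z h || z' h) = cn mate K z + cn mate K z'

/-- job WTF -/
def S_WTF : Prop := S_CN → ∀ (E : Type) [Fintype E] [DecidableEq E]
    (mate : E × Fin 4 → E × Fin 4), Ori mate → JOI mate → WTF mate

/-- chains of label preserving changes -/
structure CHN (mate : E × Fin 4 → E × Fin 4) : Prop where
  c1 : ∀ (I K : Finset E) (f : E × Fin 4 → Bool), I ⊆ K → Inv mate I f →
    (∀ e ∈ K, e ∉ I → f (e, 0) = false ∧ f (e, 2) = false) →
    wt mate I f ≤ wt mate K f ∧ (wt mate K f = wt mate I f → ∀ g, Inv mate I g → Inv mate K g)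
  cx : ∀ (I K : Finset E) (f : E × Fin 4 → Bool), I ⊆ K → Inv mate I f →
    (∀ e ∈ K, e ∉ I → f (e, 0) = true ∧ f (e, 2) = true) →
    wt mate I f ≤ wt mate K f ∧ (wt mate K f = wt mate I f → ∀ g, Inv mate K g → Inv mate I g)

/-- weights along the local rule -/
structure DEG (mate : E × Fin 4 → E × Fin 4) : Prop where
  two : ∀ (t : E → Bool) (x y : Cfg mate), LP t x y → x.f ≠ y.f → x.w + 2 ≤ y.w
  star : ∀ (t : E → Bool) (x y : Cfg mate), LP t x y → y.w = x.w + 2 →
    ∀ h h', x.f h = false → y.f h = true → x.f h' = false → y.f h' = true →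
      Same mate x.K h h' ∧ Same mate y.K h h'

/-- job DEG -/
def S_DEG : Prop := ∀ (E : Type) [Fintype E] [DecidableEq E] (mate : E × Fin 4 → E × Fin 4),
    Ori mate → JOI mate → WTF mate → CHN mate ∧ DEG mate

/-! ### the decoration change -/

/-- job LCJ -/
def S_LCJ : Prop := ∀ (E : Type) [Fintype E] [DecidableEq E] (mate : E × Fin 4 → E × Fin 4),
    Ori mate → WTF mate → DEG mate → ∀ (t : E → Bool) (e : E),
    (L0 (ft t e) : Op mate) = (1 + ue e) * L0 t * (1 + ue e)

/-- job LYC -/
def S_LYC : Prop := ∀ (E : Type) [Fintype E] [DecidableEq E] (mate : E × Fin 4 → E × Fin 4),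
    DEG mate → ∀ (t : E → Bool) (j : E × Fin 4),
    (L0 t : Op mate) * LL (fun e => !t e) j = LL (fun e => !t e) j * L0 t ∧
    ∀ i, (LL t i : Op mate) * LL (fun e => !t e) j = LL (fun e => !t e) j * LL t i

/-- types A and C over a family of relations -/
def TT {A : Type} [DecidableEq A] (s : Bool) (kind : A → Bool)
    (R : Finset A → A × Bool → A × Bool → Prop) (K S : Finset A) (t : A → Bool) : Prop :=
  TA (R K) t S ∨ TC s kind (R K) (fun f => R (insert f K)) t S

/-- job GAM: the combinatorial identity behind the decoration change of the types A and C -/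
def S_GAM : Prop := ∀ (A : Type) [DecidableEq A] (kind : A → Bool) (S : Finset A) (e : A)
    (R : Finset A → A × Bool → A × Bool → Prop) (m : Finset A → ℤ) (s : Bool) (t : A → Bool),
    e ∉ S → S.Nonempty → (∀ K, Equivalence (R K)) →
    (∀ K, K ⊆ insert e S → ∀ f ∈ insert e S, f ∉ K → ¬ R K (f, true) (f, false) →
      m (insert f K) = m K + 2 ∧ ∀ x y, R (insert f K) x y ↔ R K x y ∨
        (R K x (f, true) ∧ R K y (f, false)) ∨ (R K x (f, false) ∧ R K y (f, true))) →
    (∀ K, K ⊆ insert e S → ∀ f ∈ insert e S, f ∉ K → R K (f, true) (f, false) →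
      m (insert f K) = m K ∧ ¬ R (insert f K) (f, true) (f, false) ∧
      ∀ x y, R K x y ↔ R (insert f K) x y ∨
        (R (insert f K) x (f, true) ∧ R (insert f K) y (f, false)) ∨
        (R (insert f K) x (f, false) ∧ R (insert f K) y (f, true))) →
    (∀ f ∈ insert e S, ∀ g ∈ insert e S, f ≠ g → R ∅ (f, true) (f, false) →
      R ∅ (g, true) (g, false) → ¬ R {f} (g, true) (g, false) → kind f ≠ kind g) →
    (∀ f ∈ insert e S, ∀ g ∈ insert e S, kind f ≠ kind g → R ∅ (f, true) (f, false) →
      R ∅ (g, true) (g, false) → ¬ R {f} (g, true) (g, false) →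
      (R {f} (g, true) (f, true) ↔ R {g} (f, true) (g, true))) →
    m (insert e S) = m ∅ + 2 →
    (Xor (TT s kind R ∅ (insert e S) (ft t e)) (TT s kind R ∅ (insert e S) t) ↔
      Xor (R S (e, true) (e, false) ∧ TT s kind R ∅ S t)
        (R ∅ (e, true) (e, false) ∧ TT s kind R {e} S t))

/-- job DCJ -/
def S_DCJ : Prop := S_OSG → S_GAM → ∀ (E : Type) [Fintype E] [DecidableEq E]
    (mate : E × Fin 4 → E × Fin 4) (col : E × Fin 4 → Bool),
    Dia mate col → Ori mate → JOI mate → WTF mate → ∀ (s : Bool) (t : E → Bool) (e : E),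
    (dl col s (ft t e) : Op mate) = (1 + ue e) * dl col s t * (1 + ue e)

/-- balanced circles -/
def BAL (mate : E × Fin 4 → E × Fin 4) (col : E × Fin 4 → Bool) : Prop :=
  ∀ (s : Bool) (t : E → Bool) (K K' : Finset E) (v : E × Fin 4 → Bool), Inv mate K' v →
    ((∀ e ∈ symmDiff K K', e ∉ K) ∨ (∀ e ∈ symmDiff K K', e ∈ K)) →
    (TA (fun p q => Same mate K (pt p) (pt q)) t (symmDiff K K') ∨
      TC s (fun e => col (e, 0)) (fun p q => Same mate K (pt p) (pt q))
        (fun e p q => Same mate (tog K e) (pt p) (pt q)) t (symmDiff K K')) →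
    (∀ e ∈ symmDiff K K', ¬ (v (hd t e) = true ∧ v (tl t e) = false)) →
    ∀ e ∈ symmDiff K K', v (hd t e) = v (tl t e)

/-- job BAL -/
def S_BAL : Prop := S_OSG → ∀ (E : Type) [Fintype E] [DecidableEq E]
    (mate : E × Fin 4 → E × Fin 4) (col : E × Fin 4 → Bool), Dia mate col → Ori mate → BAL mate col

/-- job P2A: the square of `L_0 + delta` at entries without L-pattern, some crossing not full -/
def S_P2A : Prop := ∀ (E : Type) [Fintype E] [DecidableEq E]
    (mate : E × Fin 4 → E × Fin 4) (col : E × Fin 4 → Bool),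
    Dia mate col → Ori mate → WTF mate → BAL mate col →
    ∀ (s : Bool) (t : E → Bool) (x y : Cfg mate), x.f ≠ y.f →
    (∀ e ∈ y.K \ x.K, ¬ (x.f (hd t e) = false ∧ y.f (hd t e) = true ∧ x.f (tl t e) = y.f (tl t e))) →
    (∃ e ∈ y.K \ x.K, ¬ (x.f (e, 0) = false ∧ y.f (e, 0) = true ∧ x.f (e, 2) = false ∧
      y.f (e, 2) = true)) →
    (((L0 t + dl col s t) * (L0 t + dl col s t) : Op mate)) y x = 0

/-- job P2B: the square of `L_0 + delta` at entries where all crossings are full -/
def S_P2B : Prop := S_OSG → ∀ (E : Type) [Fintype E] [DecidableEq E]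
    (mate : E × Fin 4 → E × Fin 4) (col : E × Fin 4 → Bool),
    Dia mate col → Ori mate → JOI mate → WTF mate →
    ∀ (s : Bool) (t : E → Bool) (x y : Cfg mate), x.f ≠ y.f →
    (∀ e ∈ y.K \ x.K, x.f (e, 0) = false ∧ y.f (e, 0) = true ∧ x.f (e, 2) = false ∧
      y.f (e, 2) = true) →
    (((L0 t + dl col s t) * (L0 t + dl col s t) : Op mate)) y x = 0

/-! ### the inverse operators T -/

/-- cluster structure of the entries of `T q` -/
def CS {mate : E × Fin 4 → E × Fin 4} (q : E × Fin 4) (x y : Cfg mate) : Prop :=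
  x.K ⊆ y.K ∧ x.w = y.w + 2 ∧ (∀ h, y.f h = true → x.f h = true) ∧
    x.f q = true ∧ y.f q = false ∧
    Inv mate x.K (fun h => x.f h && !y.f h) ∧ Inv mate y.K (fun h => x.f h && !y.f h) ∧
    (∀ e ∈ y.K, e ∉ x.K → ∀ i, x.f (e, i) = true ∧ y.f (e, i) = false) ∧
    ∀ g, Inv mate x.K g → Inv mate y.K g → g q = true →
      ∀ h, x.f h = true → y.f h = false → g h = true

/-- job TQ -/
def S_TQ : Prop := ∀ (E : Type) [Fintype E] [DecidableEq E] (mate : E × Fin 4 → E × Fin 4),
    Ori mate → WTF mate → DEG mate → ∀ (t : E → Bool) (q : E × Fin 4), ∃ T : Op mate,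
    LL t q * T = pr q ∧ T * LL t q = 1 + pr q ∧ T * pr q = T ∧ pr q * T = 0 ∧
    ∀ x y, T y x ≠ 0 → CS q x y

/-- entries which do not change the labels at the points of `B` -/
noncomputable def msk {mate : E × Fin 4 → E × Fin 4} (B : Finset (E × Fin 4)) (M : Op mate) :
    Op mate :=
  open Classical in Matrix.of fun y x => if ∀ b ∈ B, x.f b = y.f b then M y x else 0

/-- entries which change the label at `b` -/
noncomputable def chg {mate : E × Fin 4 → E × Fin 4} (b : E × Fin 4) (M : Op mate) : Op mate :=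
  open Classical in Matrix.of fun y x => if x.f b ≠ y.f b then M y x else 0

/-- projection on the states in which `b` and `c` lie on one circle -/
noncomputable def sg {mate : E × Fin 4 → E × Fin 4} (b c : E × Fin 4) : Op mate :=
  ind fun x y => x = y ∧ Same mate x.K b c

/-- job CL: consequences of the cluster structure -/
def S_CL : Prop := ∀ (E : Type) [Fintype E] [DecidableEq E] (mate : E × Fin 4 → E × Fin 4)
    (T : E × Fin 4 → Op mate), (∀ q x y, T q y x ≠ 0 → CS q x y) →
    (∀ p q, T p * T q = T q * T p) →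
    (∀ (b c q : E × Fin 4), sg b c * msk {b} (chg c (T q)) = 0 ∧ msk {b} (chg c (T q)) * sg b c = 0) ∧
    ∀ (B : Finset (E × Fin 4)) (b p q : E × Fin 4), b ∉ B →
      chg b (msk B (T q)) * msk (insert b B) (T p) = msk (insert b B) (T p) * chg b (msk B (T q))

/-- job RIG: rigidity -/
def S_RIG : Prop := ∀ (E : Type) [Fintype E] [DecidableEq E] (mate : E × Fin 4 → E × Fin 4),
    Ori mate → WTF mate → CHN mate → DEG mate → ∀ (t : E → Bool) (W : Op mate),
    (∀ x y, W y x ≠ 0 → x.K ⊆ y.K ∧ x.K ≠ y.K ∧ y.w = x.w) →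
    (∀ j, W * LL t j = LL t j * W) → W = 0

end Pool.Agent.Y465.SZ
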